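import Pool.Agent.TRP.FamD
import Pool.Agent.TRP.NF2
import Pool.Agent.TRQ.Defs

/-! # [TRP-FM1] the number of all curves with `j = -3375` (helper5) -/

set_option autoImplicit false

open NumberField Ideal IsDedekindDomain
open scoped Real Classical

namespace TRP

open TR TTS TU TRG XTB

section
variable {M : Type} [Field M] [NumberField M]

/-- units modulo squares -/
abbrev FM1Q (M : Type) [Field M] [NumberField M] : Type :=
  (𝓞 M)ˣ ⧸ (powMonoidHom 2 : (𝓞 M)ˣ →* (𝓞 M)ˣ).range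

theorem fm1_finite_Q : Finite (FM1Q M) := by
  have h0 : Group.FG (𝓞 M)ˣ := Group.fg_iff_monoid_fg.2 inferInstance
  have h1 : Group.FG (FM1Q M) := Group.fg_of_surjective
    (QuotientGroup.mk'_surjective ((powMonoidHom 2 : (𝓞 M)ˣ →* (𝓞 M)ˣ).range))
  apply CommGroup.finite_of_fg_isMulTorsion
  intro q
  obtain ⟨u, rfl⟩ := QuotientGroup.mk_surjective q
  rw [isOfFinOrder_iff_pow_eq_one]
  refine ⟨2, by norm_num, ?_⟩
  rw [← QuotientGroup.mk_pow, QuotientGroup.eq_one_iff]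
  exact ⟨u, rfl⟩

theorem fm1_two_finite : {P : HeightOneSpectrum (𝓞 M) | (2 : 𝓞 M) ∈ P.asIdeal}.Finite := by
  have h2 : (2 : M) ≠ 0 := two_ne_zero
  refine (TRH.h2_finite h2).subset ?_
  intro P hP h1
  have h1' : P.valuation M (2 : M) = 1 := h1
  have e : ((2 : 𝓞 M) : M) = 2 := map_ofNat (algebraMap (𝓞 M) M) 2
  rw [← e] at h1'
  exact (g1_val_one P).1 h1' hP

/-- an element is determined up to squares by the parities of the valuations at the odd primes and an element of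
a finite set -/
theorem fm1_cls (hodd : Odd (classNumber M)) : ∃ (F : Type) (_ : Finite F) (f : M → F),
    ∀ x y : M, x ≠ 0 → y ≠ 0 →
      (∀ P : HeightOneSpectrum (𝓞 M), (2 : 𝓞 M) ∉ P.asIdeal →
        (IsSquare (P.valuation M x) ↔ IsSquare (P.valuation M y))) →
      f x = f y → ∃ z : M, z ≠ 0 ∧ x = z ^ 2 * y := by
  have hP2 : Finite {P : HeightOneSpectrum (𝓞 M) // (2 : 𝓞 M) ∈ P.asIdeal} := fm1_two_finite.to_subtype
  have hQ : Finite (FM1Q M) := fm1_finite_Q
  have key : ∀ p : HeightOneSpectrum (𝓞 M) → Prop, ∃ r : M, r ≠ 0 ∧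
      ((∃ x : M, x ≠ 0 ∧ ∀ P : HeightOneSpectrum (𝓞 M), IsSquare (P.valuation M x) ↔ p P) →
        ∀ P : HeightOneSpectrum (𝓞 M), IsSquare (P.valuation M r) ↔ p P) := by
    intro p
    by_cases h : ∃ x : M, x ≠ 0 ∧ ∀ P : HeightOneSpectrum (𝓞 M), IsSquare (P.valuation M x) ↔ p P
    · obtain ⟨x, hx, h1⟩ := h
      exact ⟨x, hx, fun _ => h1⟩
    · exact ⟨1, one_ne_zero, fun h' => absurd h' h⟩
  choose r hr0 hr using key
  have key2 : ∀ x : M, ∃ u : (𝓞 M)ˣ, x ≠ 0 → ∃ s : M, s ≠ 0 ∧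
      x * r (fun P => IsSquare (P.valuation M x)) = ((u : 𝓞 M) : M) * s ^ 2 := by
    intro x
    by_cases hx : x = 0
    · exact ⟨1, fun h => absurd hx h⟩
    · have hr1 := hr0 (fun P => IsSquare (P.valuation M x))
      have h1 := hr (fun P => IsSquare (P.valuation M x)) ⟨x, hx, fun P => Iff.rfl⟩
      obtain ⟨u, s, hs, hus⟩ := b3_even hodd (x * r (fun P => IsSquare (P.valuation M x)))
        (mul_ne_zero hx hr1) (fun P => by
          rw [map_mul]
          exact s4_even_mul ((map_ne_zero _).2 hx) ((map_ne_zero _).2 hr1) (h1 P).symm)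
      exact ⟨u, fun _ => ⟨s, hs, hus⟩⟩
  choose u hu using key2
  refine ⟨({P : HeightOneSpectrum (𝓞 M) // (2 : 𝓞 M) ∈ P.asIdeal} → Prop) × FM1Q M, inferInstance,
    fun x => (fun P => IsSquare (P.1.valuation M x), QuotientGroup.mk (u x)), ?_⟩
  intro x y hx hy hxy hf
  rw [Prod.mk.injEq] at hf
  obtain ⟨hf1, hf2⟩ := hf
  have hp : (fun P : HeightOneSpectrum (𝓞 M) => IsSquare (P.valuation M x)) =
      fun P : HeightOneSpectrum (𝓞 M) => IsSquare (P.valuation M y) := by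
    funext P
    by_cases h2 : (2 : 𝓞 M) ∈ P.asIdeal
    · exact congrFun hf1 ⟨P, h2⟩
    · exact propext (hxy P h2)
  obtain ⟨s, hs, hsx⟩ := hu x hx
  obtain ⟨t, ht, hty⟩ := hu y hy
  rw [QuotientGroup.eq] at hf2
  obtain ⟨w, hw⟩ := hf2
  have hw' : w ^ 2 = (u x)⁻¹ * u y := hw
  have hw2 : u y = u x * w ^ 2 := by rw [hw', mul_inv_cancel_left]
  have hr1 := hr0 (fun P => IsSquare (P.valuation M x))
  rw [← hp] at hty
  generalize r (fun P => IsSquare (P.valuation M x)) = ρ at hsx hty hr1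
  have hw0 : ((w : 𝓞 M) : M) ≠ 0 := by
    rw [Ne, RingOfIntegers.coe_eq_zero_iff]
    exact w.ne_zero
  have hu0 : ((u x : 𝓞 M) : M) ≠ 0 := by
    rw [Ne, RingOfIntegers.coe_eq_zero_iff]
    exact (u x).ne_zero
  have hw3 : ((u y : 𝓞 M) : M) = ((u x : 𝓞 M) : M) * ((w : 𝓞 M) : M) ^ 2 := by
    rw [hw2]
    push_cast
    rfl
  rw [hw3] at hty
  refine ⟨s / (((w : 𝓞 M) : M) * t), div_ne_zero hs (mul_ne_zero hw0 ht), ?_⟩
  have h1 : x * ρ * (((w : 𝓞 M) : M) * t) ^ 2 = s ^ 2 * (y * ρ) := by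
    rw [hsx, hty]
    ring
  have h2 : x * (((w : 𝓞 M) : M) * t) ^ 2 = s ^ 2 * y := by
    apply mul_right_cancel₀ hr1
    linear_combination h1
  rw [div_pow, div_mul_eq_mul_div, eq_div_iff (pow_ne_zero 2 (mul_ne_zero hw0 ht))]
  exact h2

theorem fm1_badProd {E : WeierstrassCurve M} {S : Finset (HeightOneSpectrum (𝓞 M))}
    (hS : ∀ P, P ∈ S ↔ ¬ XTS.GoodReduction E P) : badProd E = ∏ P ∈ S, Ideal.absNorm P.asIdeal := by
  unfold badProd
  rw [finprod_subtype_eq_finprod_cond (f := fun P : HeightOneSpectrum (𝓞 M) => Ideal.absNorm P.asIdeal)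
    (fun P => ¬ XTS.GoodReduction E P), ← finprod_mem_coe_finset]
  refine finprod_congr fun P => ?_
  have h1 : (¬ XTS.GoodReduction E P) = (P ∈ (S : Set (HeightOneSpectrum (𝓞 M)))) := by
    rw [Finset.mem_coe]
    exact propext (hS P).symm
  rw [h1]

end

section
variable {L M : Type} [Field L] [NumberField L] [Field M] [NumberField M] [Algebra L M]
  [IsTotallyReal L]

/-- good reduction at the odd primes and the valuation of `d √-7` -/
theorem fm1_good_iff (D : Dat L M) {d : M} (hd : d ≠ 0) (C : WeierstrassCurve.VariableChange M)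
    {P : HeightOneSpectrum (𝓞 M)} (h2 : (2 : 𝓞 M) ∉ P.asIdeal) :
    GoodAt P (C • Ws d) ↔ IsSquare (P.valuation M (d * D.r)) := by
  by_cases h7 : (7 : 𝓞 M) ∈ P.asIdeal
  · rw [nf2_val_seven D h7 hd]
    constructor
    · intro hg hev
      exact nf2_bad D h7 hd hev C hg
    · intro hod
      exact nf_seven D ((n1_rr_iff D P).1 h7) hd hod C
  · rw [nf2_val D h7]
    constructor
    · intro hg
      obtain ⟨C1, hC1⟩ := Wd_eq_Ws d
      have e : C • Ws d = (C * C1⁻¹) • Wd d := by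
        rw [hC1, mul_smul, inv_smul_smul]
      rw [e] at hg
      exact (ur_of_good h7 hd hg).val
    · intro h
      exact TRH.h2_good h7 ((ur_iff_val h2 hd).2 h) C

/-- the data of a curve of the family -/
theorem fm1_data (D : Dat L M) {B : TRQ.Base {P : HeightOneSpectrum (𝓞 M) // (2 : 𝓞 M) ∉ P.asIdeal}}
    (hB : B.N = fun v => absNorm v.1.asIdeal) (X : ℕ)
    {E : WeierstrassCurve M} [E.IsElliptic] (hj : E.j = -3375) (hX : badProd E ≤ X) :
    ∃ (d : M) (S : Finset {P : HeightOneSpectrum (𝓞 M) // (2 : 𝓞 M) ∉ P.asIdeal}), d ≠ 0 ∧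
      (∃ C : WeierstrassCurve.VariableChange M, E = C • Ws d) ∧
      (∀ v, v ∈ S ↔ ¬ IsSquare (v.1.valuation M (d * D.r))) ∧ S ∈ B.sb (X : ℝ) := by
  obtain ⟨d, C, C', hd, hC, -⟩ := exists_Ws E hj
  have hr0 : D.r ≠ 0 := by
    intro h
    have h1 := D.hr
    rw [h] at h1
    norm_num at h1
  have hfin : {P : HeightOneSpectrum (𝓞 M) | ¬ IsSquare (P.valuation M (d * D.r))}.Finite := by
    refine (TRH.h2_finite (mul_ne_zero hd hr0)).subset ?_
    intro P hP h1
    apply hP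
    have h1' : P.valuation M (d * D.r) = 1 := h1
    rw [h1']
    exact ⟨1, by rw [one_mul]⟩
  have hbad : {P : HeightOneSpectrum (𝓞 M) | ¬ XTS.GoodReduction E P}.Finite := by
    refine (hfin.union (fm1_two_finite (M := M))).subset ?_
    intro P hP
    by_cases h2 : (2 : 𝓞 M) ∈ P.asIdeal
    · exact Or.inr h2
    · left
      intro h
      apply hP
      have h1 := (fm1_good_iff D hd C h2).2 h
      rw [← hC] at h1
      exact h1
  have hfin2 : {v : {P : HeightOneSpectrum (𝓞 M) // (2 : 𝓞 M) ∉ P.asIdeal} |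
      ¬ IsSquare (v.1.valuation M (d * D.r))}.Finite :=
    Set.Finite.preimage (Subtype.val_injective.injOn) hfin
  refine ⟨d, hfin2.toFinset, hd, ⟨C, hC⟩, fun v => by rw [Set.Finite.mem_toFinset]; rfl, ?_⟩
  rw [B.mem_sb]
  have h3 : B.nS hfin2.toFinset ≤ badProd E := by
    rw [fm1_badProd (S := hbad.toFinset) (fun P => by rw [Set.Finite.mem_toFinset]; rfl)]
    have h4 : B.nS hfin2.toFinset =
        ∏ P ∈ hfin2.toFinset.map ⟨Subtype.val, Subtype.val_injective⟩, absNorm P.asIdeal := by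
      rw [Finset.prod_map]
      unfold TRQ.Base.nS
      rw [hB]
      rfl
    rw [h4]
    apply Finset.prod_le_prod_of_subset_of_one_le'
    · intro P hP
      obtain ⟨v, hv, rfl⟩ := Finset.mem_map.1 hP
      rw [Set.Finite.mem_toFinset] at hv ⊢
      intro hg
      have hg' : GoodAt v.1 E := hg
      rw [hC] at hg'
      exact hv ((fm1_good_iff D hd C v.2).1 hg')
    · intro P _ _
      exact Nat.one_le_iff_ne_zero.2 (by
        rw [Ne, Ideal.absNorm_eq_zero_iff]
        exact P.ne_bot)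
  exact_mod_cast h3.trans hX

end

section
variable {L M : Type} [Field L] [NumberField L] [Field M] [NumberField M] [Algebra L M]
  [IsTotallyReal L]

/-- **[P1]** all curves with `j = -3375`: `d` is determined by the set of the odd primes with odd valuation of
`d √-7` and an element of a finite set -/
theorem all_le_D (D : Dat L M) {B : TRQ.Base {P : HeightOneSpectrum (𝓞 M) // (2 : 𝓞 M) ∉ P.asIdeal}}
    (hB : B.N = fun v => absNorm v.1.asIdeal) :
    ∃ K : ℕ, ∀ X : ℕ, (cmFamily M X fun _ => True).Finite ∧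
      (cmFamily M X fun _ => True).ncard ≤ K * (B.sb (X : ℝ)).card := by
  obtain ⟨F, hF, f, hf⟩ := fm1_cls D.hodd
  have hFt : Fintype F := Fintype.ofFinite F
  have hr0 : D.r ≠ 0 := by
    intro h
    have h1 := D.hr
    rw [h] at h1
    norm_num at h1
  refine ⟨Fintype.card F, fun X => ?_⟩
  have hex : ∀ c ∈ cmFamily M X fun _ => True,
      ∃ (d : M) (S : Finset {P : HeightOneSpectrum (𝓞 M) // (2 : 𝓞 M) ∉ P.asIdeal}), d ≠ 0 ∧
      (∃ C : WeierstrassCurve.VariableChange M, c = Quotient.mk _ (C • Ws d)) ∧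
      (∀ v, v ∈ S ↔ ¬ IsSquare (v.1.valuation M (d * D.r))) ∧ S ∈ B.sb (X : ℝ) := by
    rintro c ⟨E, hc, ⟨hE, hj⟩, hX, -⟩
    obtain ⟨d, S, hd, ⟨C, hC⟩, hS, hSX⟩ := fm1_data D hB X hj hX
    exact ⟨d, S, hd, ⟨C, by rw [← hC, hc]⟩, hS, hSX⟩
  choose! d S hd hC hS hSX using hex
  have hmaps : ∀ c ∈ cmFamily M X fun _ => True,
      (S c, f (d c * D.r)) ∈ (↑((B.sb (X : ℝ)) ×ˢ (Finset.univ : Finset F)) : Set _) := by
    intro c hc
    rw [Finset.mem_coe, Finset.mem_product]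
    exact ⟨hSX c hc, Finset.mem_univ _⟩
  have hinj : Set.InjOn (fun c => (S c, f (d c * D.r))) (cmFamily M X fun _ => True) := by
    intro c hc c' hc' h
    obtain ⟨h1, h2⟩ := Prod.mk.inj h
    obtain ⟨z, hz, hzd⟩ := hf _ _ (mul_ne_zero (hd c hc) hr0) (mul_ne_zero (hd c' hc') hr0) (by
      intro P hP
      have h3 := hS c hc ⟨P, hP⟩
      have h4 := hS c' hc' ⟨P, hP⟩
      rw [h1] at h3
      exact not_iff_not.1 (h3.symm.trans h4)) h2
    have h5 : d c = z ^ 2 * d c' := by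
      apply mul_right_cancel₀ hr0
      rw [hzd]
      ring
    obtain ⟨C, h6⟩ := hC c hc
    obtain ⟨C', h7⟩ := hC c' hc'
    obtain ⟨C2, h8⟩ := (ws_iso_iff (d := d c') (hd c hc)).2 ⟨z, hz, h5⟩
    rw [h6, h7, h8]
    apply Quotient.sound
    change C • C2 • Ws (d c') ∈ MulAction.orbit _ (C' • Ws (d c'))
    refine ⟨C * C2 * C'⁻¹, ?_⟩
    change (C * C2 * C'⁻¹) • C' • Ws (d c') = _
    rw [mul_smul, mul_smul, inv_smul_smul]
  have hfinT := Finset.finite_toSet ((B.sb (X : ℝ)) ×ˢ (Finset.univ : Finset F))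
  refine ⟨Set.Finite.of_injOn hmaps hinj hfinT, ?_⟩
  refine (Set.ncard_le_ncard_of_injOn _ hmaps hinj hfinT).trans ?_
  rw [Set.ncard_coe_finset, Finset.card_product, Finset.card_univ, mul_comm]

end

section
variable {L M : Type} [Field L] [NumberField L] [Field M] [NumberField M] [Algebra L M]
  [IsTotallyReal L] {D : Dat L M} (hD : Od2 D)

include hD

/-- **[P1]**, SPEC3 verbatim -/
theorem all_le {B : TRQ.Base (OP M)} (hB : B.N = fun v => absNorm v.1.asIdeal) :
    ∃ K : ℕ, ∀ X : ℕ, (cmFamily M X fun _ => True).Finite ∧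
      (cmFamily M X fun _ => True).ncard ≤ K * (B.sb (X : ℝ)).card := by
  have _ := hD
  exact all_le_D D hB

end

end TRP
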