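import Pool.Agent.TRP.NF3
import Pool.Agent.TRP.AD1
import Pool.Agent.TRQ.Defs

/-! # [ALLP-P2] the isomorphism classes of the family correspond to sets of primes -/

set_option autoImplicit false

open NumberField Ideal IsDedekindDomain Filter Topology
open scoped Real Classical ComplexConjugate
open TR TRG TTS TU TT XTB

namespace TRP

section
variable {K : Type} [Field K] [NumberField K]

theorem fm2_badProd {E : WeierstrassCurve K} {S : Finset (HeightOneSpectrum (𝓞 K))}
    (hS : ∀ P, P ∈ S ↔ ¬ XTS.GoodReduction E P) : badProd E = ∏ P ∈ S, Ideal.absNorm P.asIdeal := by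
  unfold badProd
  rw [finprod_subtype_eq_finprod_cond (f := fun P : HeightOneSpectrum (𝓞 K) => Ideal.absNorm P.asIdeal)
    (fun P => ¬ XTS.GoodReduction E P), ← finprod_mem_coe_finset]
  refine finprod_congr fun P => ?_
  have h1 : (¬ XTS.GoodReduction E P) = (P ∈ (S : Set (HeightOneSpectrum (𝓞 K)))) := by
    rw [Finset.mem_coe]
    exact propext (hS P).symm
  rw [h1]

theorem fm2_good_smul (C : WeierstrassCurve.VariableChange K) (E : WeierstrassCurve K) (P : HeightOneSpectrum (𝓞 K)) :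
    XTS.GoodReduction (C • E) P ↔ XTS.GoodReduction E P := by
  constructor
  · rintro ⟨C', h⟩
    rw [← mul_smul] at h
    exact ⟨C' * C, h⟩
  · rintro ⟨C', h⟩
    refine ⟨C' * C⁻¹, ?_⟩
    rw [mul_smul, inv_smul_smul]
    exact h

end

section
variable {L M : Type} [Field L] [NumberField L] [Field M] [NumberField M] [Algebra L M]
  [IsTotallyReal L] {D : Dat L M} (hD : Od2 D)

/-- [NF] two curves of the family with the same bad primes are isomorphic -/
theorem two_unique (hD : Od2 D) {E E' : WeierstrassCurve M} (hE : TwoCurve E) (hE' : TwoCurve E')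
    (h : ∀ P, XTS.GoodReduction E P ↔ XTS.GoodReduction E' P) :
    ∃ C : WeierstrassCurve.VariableChange M, C • E = E' := by
  obtain ⟨d, T, C, -, H, hC, -, hT⟩ := exists_form hD hE
  obtain ⟨d', T', C', -, H', hC', -, hT'⟩ := exists_form hD hE'
  have hTT : T' = T := by
    ext P
    rw [hT, hT', h P]
  rw [hTT] at H'
  obtain ⟨y, hy, hyd⟩ := DT.unique hD H H'
  obtain ⟨C₂, hC₂, -⟩ := Ws_scale (d := d) hy
  refine ⟨C' * C₂ * C⁻¹, ?_⟩
  rw [hC, hC', hyd, hC₂, mul_smul, mul_smul, inv_smul_smul]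

include hD

/-- [P2] (compare `XTB.fn_family`, TRQ/FN) -/
theorem two_family {s : Bool} {z : HeightOneSpectrum (𝓞 M) → 𝓞 M} (hz : ∀ P, (2 : 𝓞 M) ∉ P.asIdeal → NG D s P (z P))
    {R : HeightOneSpectrum (𝓞 M)} (hR : R.asIdeal = span {D.rr})
    {B : TRQ.Base (OP M)} (hB : B.N = fun v => absNorm v.1.asIdeal) (X : ℕ) (Q : WeierstrassCurve M → Prop)
    (F : Finset (OP M) → Prop)
    (hF : ∀ (S : Finset (OP M)) (E : WeierstrassCurve M), TwoCurve E →
      (∀ P, P ∈ S.map ⟨Subtype.val, Subtype.val_injective⟩ ↔ ¬ XTS.GoodReduction E P) → (Q E ↔ F S)) :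
    (cmFamily M X fun E => TwoCurve E ∧ Q E).ncard =
      ((B.sb (X : ℝ)).filter fun S => ∑ v ∈ S, c8 D s (z v.1) = c8 D s (z R) ∧ F S).card := by
  obtain ⟨emb, hemb⟩ : ∃ emb : OP M ↪ HeightOneSpectrum (𝓞 M), emb = ⟨Subtype.val, Subtype.val_injective⟩ := ⟨_, rfl⟩
  rw [← hemb] at hF
  have hembv : ∀ v : OP M, emb v = v.1 := fun v => by rw [hemb]; rfl
  have hR2 : (2 : 𝓞 M) ∉ R.asIdeal := by
    intro h2
    have h7 : (7 : 𝓞 M) ∈ R.asIdeal := by
      rw [hR]
      have e : (7 : 𝓞 M) = D.rr * (-D.rr) := by linear_combination D.rr_sq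
      rw [e]
      exact Ideal.mul_mem_right _ _ (Ideal.mem_span_singleton_self _)
    apply R.isPrime.ne_top
    rw [Ideal.eq_top_iff_one]
    have e : (1 : 𝓞 M) = 7 - 2 * 3 := by norm_num
    rw [e]
    exact Ideal.sub_mem _ h7 (Ideal.mul_mem_right _ _ h2)
  have hnS : ∀ S : Finset (OP M), B.nS S = ∏ P ∈ S.map emb, Ideal.absNorm P.asIdeal := by
    intro S
    rw [Finset.prod_map]
    unfold TRQ.Base.nS
    rw [hB]
    exact Finset.prod_congr rfl fun v _ => by rw [hembv]
  have hsb : ∀ S : Finset (OP M), S ∈ B.sb (X : ℝ) ↔ B.nS S ≤ X := by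
    intro S
    rw [B.mem_sb]
    exact Nat.cast_le
  have h2S : ∀ S : Finset (OP M), ∀ P ∈ S.map emb, (2 : 𝓞 M) ∉ P.asIdeal := by
    intro S P hP
    obtain ⟨v, -, rfl⟩ := Finset.mem_map.1 hP
    rw [hembv]
    exact v.2
  -- the condition on the classes
  have hcl : ∀ S : Finset (OP M), ∑ v ∈ S, c8 D s (z v.1) = c8 D s (z R) ↔ ∃ d : M, DT D d (S.map emb) := by
    intro S
    have h3 : ∀ P ∈ insert R (S.map emb), (2 : 𝓞 M) ∉ P.asIdeal := by
      intro P hP
      rcases Finset.mem_insert.1 hP with h | h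
      · rw [h]
        exact hR2
      · exact h2S S P h
    rw [← c8_sum_iff hD hR h3 (fun P hP => hz P (h3 P hP)), Finset.sum_map]
    have h4 : ∑ v ∈ S, c8 D s (z v.1) = ∑ v ∈ S, c8 D s (z (emb v)) :=
      Finset.sum_congr rfl fun v _ => by rw [hembv]
    rw [h4]
  have hex : ∀ S : Finset (OP M), ∃ E : WeierstrassCurve M, (∃ d : M, DT D d (S.map emb)) →
      TwoCurve E ∧ ∀ P, P ∈ S.map emb ↔ ¬ XTS.GoodReduction E P := by
    intro S
    by_cases h : ∃ d : M, DT D d (S.map emb)
    · obtain ⟨d, hd⟩ := h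
      exact ⟨(1 : WeierstrassCurve.VariableChange M) • Ws d, fun _ => form_two hD hd 1⟩
    · exact ⟨Ws 1, fun h' => absurd h' h⟩
  choose E hE using hex
  obtain ⟨cl, hcl'⟩ : ∃ cl : Finset (OP M) →
      MulAction.orbitRel.Quotient (WeierstrassCurve.VariableChange M) (WeierstrassCurve M),
      ∀ S, cl S = Quotient.mk _ (E S) := ⟨fun S => Quotient.mk _ (E S), fun _ => rfl⟩
  have hset : (cmFamily M X fun E => TwoCurve E ∧ Q E) =
      ↑(((B.sb (X : ℝ)).filter fun S => ∑ v ∈ S, c8 D s (z v.1) = c8 D s (z R) ∧ F S).image cl) := by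
    ext c
    rw [Finset.mem_coe, Finset.mem_image]
    constructor
    · rintro ⟨E', hc, -, hX, hE', hQE⟩
      obtain ⟨d, T, C, -, H, -, -, hT⟩ := exists_form hD hE'
      obtain ⟨S, hST⟩ : ∃ S : Finset (OP M), S.map emb = T := by
        refine ⟨T.attach.map ⟨fun P => ⟨P.1, H.two P.1 P.2⟩, ?_⟩, ?_⟩
        · intro P P' h
          exact Subtype.ext (congrArg (fun v : OP M => v.1) h)
        · rw [Finset.map_map]
          ext P
          rw [Finset.mem_map]
          constructor
          · rintro ⟨v, -, rfl⟩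
            change emb _ ∈ T
            rw [hembv]
            exact v.2
          · intro hP
            exact ⟨⟨P, hP⟩, Finset.mem_attach _ _, hembv _⟩
      have hS2 : ∀ P, P ∈ S.map emb ↔ ¬ XTS.GoodReduction E' P := by
        rw [hST]
        exact hT
      have hd : ∃ d : M, DT D d (S.map emb) := ⟨d, by rw [hST]; exact H⟩
      refine ⟨S, ?_, ?_⟩
      · rw [Finset.mem_filter, hsb, hnS, ← fm2_badProd hS2]
        exact ⟨hX, (hcl S).2 hd, (hF S E' hE' hS2).1 hQE⟩
      · rw [hcl', ← hc]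
        obtain ⟨C', hC'⟩ := two_unique hD hE' (hE S hd).1 (fun P => by
          have h1 := hS2 P
          have h2 := (hE S hd).2 P
          constructor
          · intro h
            by_contra hn
            exact (h1.1 (h2.2 hn)) h
          · intro h
            by_contra hn
            exact (h2.1 (h1.2 hn)) h)
        apply Quotient.sound
        change E S ∈ MulAction.orbit _ E'
        exact ⟨C', hC'⟩
    · rintro ⟨S, hS, rfl⟩
      rw [Finset.mem_filter, hsb] at hS
      have hd := (hcl S).1 hS.2.1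
      refine ⟨E S, (hcl' S).symm, (hE S hd).1.j_eq, ?_, (hE S hd).1,
        (hF S (E S) (hE S hd).1 (hE S hd).2).2 hS.2.2⟩
      rw [fm2_badProd (hE S hd).2, ← hnS]
      exact hS.1
  have hinj : Set.InjOn cl
      ↑((B.sb (X : ℝ)).filter fun S => ∑ v ∈ S, c8 D s (z v.1) = c8 D s (z R) ∧ F S) := by
    intro S hS S' hS' h
    rw [Finset.mem_coe, Finset.mem_filter] at hS hS'
    have hd := (hcl S).1 hS.2.1
    have hd' := (hcl S').1 hS'.2.1
    rw [hcl', hcl'] at h
    have h1 : E S ∈ MulAction.orbit (WeierstrassCurve.VariableChange M) (E S') := Quotient.exact h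
    obtain ⟨C, hC⟩ := h1
    have hC' : C • E S' = E S := hC
    apply Finset.map_injective emb
    ext P
    rw [(hE S hd).2, (hE S' hd').2, ← hC', fm2_good_smul]
  rw [hset, Set.ncard_coe_finset, Finset.card_image_of_injOn hinj]

end

end TRP
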