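import Pool.Agent.TRP.FM3a
import Pool.Agent.TRP.AD2
import Pool.Agent.TRP.AD4
import Pool.Agent.TRP.SE
import Pool.Agent.TRP.NF3
import Pool.Agent.TRP.FM1
import Pool.Agent.TRP.FM2
import Pool.Agent.TRP.AD1

/-! # [ALLP-P3] the density theorem for the curves which are isomorphic to `X₀(49)` at the primes above `2` -/

set_option autoImplicit false

open NumberField Ideal IsDedekindDomain Filter Topology
open scoped Real Classical ComplexConjugate
open TR TRG TTS TU TT XTB

namespace TRP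

section
variable {L M : Type} [Field L] [NumberField L] [Field M] [NumberField M] [Algebra L M]
  [IsTotallyReal L] {D : Dat L M} (hD : Od2 D)

include hD

omit hD in
/-- the prime `√-7` is odd -/
theorem fm_two {R : HeightOneSpectrum (𝓞 M)} (hR : R.asIdeal = span {D.rr}) : (2 : 𝓞 M) ∉ R.asIdeal := by
  intro h
  rw [hR, ← rs7_span false] at h
  obtain ⟨a, b, hab⟩ := rs7_odd (D := D) false
  apply R.isPrime.ne_top
  rw [hR, ← rs7_span false, Ideal.eq_top_iff_one, ← hab]
  exact Ideal.add_mem _ (Ideal.mul_mem_left _ _ (Ideal.mem_span_singleton_self _)) (Ideal.mul_mem_left _ _ h)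

theorem fm_card {s : Bool} {z : HeightOneSpectrum (𝓞 M) → 𝓞 M} (hz : ∀ P, (2 : 𝓞 M) ∉ P.asIdeal → NG D s P (z P))
    {R : HeightOneSpectrum (𝓞 M)} (hR : R.asIdeal = span {D.rr})
    (B : TRPA.DSys (OP M) (G8 D s)) (hN : B.N = fun v => absNorm v.1.asIdeal)
    (hw : B.w = fun u v => aM z u.1 v.1) (hc : B.c = fun v => c8 D s (z v.1)) (X : ℕ) :
    (cmFamily M X fun E => TwoCurve E ∧ TRB.FiniteSha E).ncard =
      ((B.sb (X : ℝ)).filter fun S => B.Gd (c8 D s (z R)) S).card ∧
    (cmFamily M X TwoCurve).ncard = ((B.sb (X : ℝ)).filter fun S => B.cs S = c8 D s (z R)).card := by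
  constructor
  · rw [two_family hD hz hR (B := B.toBase) hN X TRB.FiniteSha (fun S => TRPA.Nsg B.w S)]
    · congr 1
      refine Finset.filter_congr fun S _ => ?_
      unfold TRPA.DSys.Gd TRPA.DSys.cs
      rw [hc]
    · intro S E hE hS
      obtain ⟨d, T, C, C', H, h1, -, h2⟩ := exists_form hD hE
      have hT : T = S.map ⟨Subtype.val, Subtype.val_injective⟩ := by
        ext P
        rw [h2, hS]
      rw [h1, finiteSha_iff_T hD H (fun P hP => hz P (H.two P hP)) C, hT, hw]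
      exact nsg_map (⟨Subtype.val, Subtype.val_injective⟩ : OP M ↪ HeightOneSpectrum (𝓞 M)) (aM z) S
  · have h := two_family hD hz hR (B := B.toBase) hN X (fun _ => True) (fun _ => True)
      (fun _ _ _ _ => Iff.rfl)
    simp only [and_true] at h
    rw [h]
    congr 1
    refine Finset.filter_congr fun S _ => ?_
    unfold TRPA.DSys.cs
    rw [hc]

/-- [P3] **the density theorem** -/
theorem two_density :
    (∀ X : ℕ, (cmFamily M X fun _ => True).Finite) ∧
    (∃ c : ℝ, 0 < c ∧ ∀ᶠ X : ℕ in atTop, c * (cmFamily M X fun _ => True).ncard ≤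
      (cmFamily M X fun E => TwoCurve E ∧ TRB.FiniteSha E).ncard) ∧
    Tendsto (fun X : ℕ => (cmFamily M X TwoCurve).ncard) atTop atTop ∧
    Tendsto (fun X : ℕ => ((cmFamily M X fun E => TwoCurve E ∧ TRB.FiniteSha E).ncard : ℝ) /
      ((cmFamily M X TwoCurve).ncard : ℝ)) atTop (𝓝 (∏' k : ℕ, (1 - 1 / 2 ^ (k + 1)))) := by
  obtain ⟨z, hz⟩ : ∃ z : HeightOneSpectrum (𝓞 M) → 𝓞 M, ∀ P, (2 : 𝓞 M) ∉ P.asIdeal → NG D false P (z P) := by
    have h : ∀ P : HeightOneSpectrum (𝓞 M), (2 : 𝓞 M) ∉ P.asIdeal → ∃ q, NG D false P q :=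
      fun P hP => exists_NG hD false hP
    choose! z hz using h
    exact ⟨z, hz⟩
  obtain ⟨R, hR⟩ := se4_R D
  have hR2 := fm_two hR
  obtain ⟨om, hsy, hom, hom0, hps⟩ := exists_om hD false
  obtain ⟨B, hN, hw, hc, hBom⟩ := exists_dsys hD false hz om hsy fun P Q hPQ hP hQ =>
    hom z P Q hPQ hP hQ (hz P hP) (hz Q hQ)
  let _ : Fintype (G8 D false) := Fintype.ofFinite _
  have h0 : ∀ g, B.om g (c8 D false (z R)) = B.om g g := by
    intro g
    rw [hBom]
    exact (hom0 R (z R) hR (hz R hR2) g).symm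
  have h1 : ∃ g, B.om g g ≠ 0 := by rw [hBom]; exact hps
  have hcard := fm_card hD hz hR B hN hw hc
  have hfam := all_le hD (B := B.toBase) hN
  obtain ⟨K, hK⟩ := hfam
  have hnat : Tendsto (fun X : ℕ => (X : ℝ)) atTop atTop := tendsto_natCast_atTop_atTop
  refine ⟨fun X => (hK X).1, ?_, ?_, ?_⟩
  · obtain ⟨κ, X₀, hκ, h2⟩ := TRPA.pos_dir B h0 h1
    refine ⟨κ / (K + 1), by positivity, ?_⟩
    filter_upwards [hnat.eventually_ge_atTop X₀] with X hX
    rw [(hcard X).1]
    have h3 : ((cmFamily M X fun _ => True).ncard : ℝ) ≤ K * ((B.sb (X : ℝ)).card : ℝ) := by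
      exact_mod_cast (hK X).2
    have h4 : (0 : ℝ) ≤ ((B.sb (X : ℝ)).card : ℝ) := Nat.cast_nonneg _
    have h5 : (0 : ℝ) ≤ K := Nat.cast_nonneg _
    calc κ / (K + 1) * ((cmFamily M X fun _ => True).ncard : ℝ) ≤ κ / (K + 1) * (K * ((B.sb (X : ℝ)).card : ℝ)) :=
          mul_le_mul_of_nonneg_left h3 (by positivity)
      _ = κ * ((B.sb (X : ℝ)).card : ℝ) * (K / (K + 1)) := by ring
      _ ≤ κ * ((B.sb (X : ℝ)).card : ℝ) * 1 := by
          refine mul_le_mul_of_nonneg_left ?_ (by positivity)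
          rw [div_le_one (by positivity)]
          linarith
      _ = κ * ((B.sb (X : ℝ)).card : ℝ) := mul_one _
      _ ≤ _ := h2 X hX
  · obtain ⟨κ, X₀, hκ, h2⟩ := TRPA.class_ge B (c8 D false (z R))
    have h3 : Tendsto (fun X : ℕ => κ * ((B.sb (X : ℝ)).card : ℝ)) atTop atTop :=
      ((tendsto_card_sb B.toMSys).comp hnat).const_mul_atTop hκ
    have h4 : Tendsto (fun X : ℕ => ((cmFamily M X TwoCurve).ncard : ℝ)) atTop atTop := by
      refine tendsto_atTop_mono' _ ?_ h3
      filter_upwards [hnat.eventually_ge_atTop X₀] with X hX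
      rw [(hcard X).2]
      refine (h2 X hX).trans (le_of_eq ?_)
      rw [card_dec]
    exact tendsto_natCast_atTop_iff.1 h4
  · have h2 := (TRPA.main_dir B h0 h1).comp hnat
    refine (h2.congr fun X => ?_).trans_eq ?_
    · rw [(hcard X).1, (hcard X).2, card_dec _ (fun S => B.cs S = c8 D false (z R))]
      rfl
    · rfl

end

end TRP
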