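import Pool.Agent.TRP.RA2s
import Pool.Agent.TRP.BAL

/-! # [ALLP-PD] the diagonal: `(z_P / P̄) = (√-7 / P̄)` for a normalised generator -/

set_option autoImplicit false
set_option linter.unusedSectionVars false

open NumberField Ideal IsDedekindDomain Filter Topology
open scoped Real Classical ComplexConjugate
open TR TRG TTS TU TT

namespace TRP

section
variable {F : Type} [Field F] [NumberField F] [IsTotallyComplex F]

/-- every odd element has a class -/
theorem pd_class {V V' : HeightOneSpectrum (𝓞 F)} {p p' : 𝓞 F} (D : Dy V p p') (D' : Dy V' p' p) {z : 𝓞 F}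
    (hz : IsCoprime z 2) : ∃ ω : 𝓞 F, Cl ω z := by
  obtain ⟨b₁, hb₁⟩ := bl_frob D.two z
  rw [D.span, Ideal.mem_span_singleton] at hb₁
  obtain ⟨f, hf⟩ := hb₁
  obtain ⟨b₂, hb₂⟩ := bl_frob D'.two z
  rw [D'.span, Ideal.mem_span_singleton] at hb₂
  obtain ⟨g, hg⟩ := hb₂
  have hp : p = 1 - p' := by rw [← D.add]; ring
  set t : 𝓞 F := b₁ * p' + b₂ * p with ht
  have h1 : p ∣ z - t ^ 2 := by
    refine ⟨f + (b₁ - b₂) * (t + b₁), ?_⟩
    have e : t - b₁ = -((b₁ - b₂) * p) := by rw [ht, hp]; ring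
    linear_combination hf - (t + b₁) * e
  have h2 : p' ∣ z - t ^ 2 := by
    refine ⟨g - (b₁ - b₂) * (t + b₂), ?_⟩
    have e : t - b₂ = (b₁ - b₂) * p' := by rw [ht, hp]; ring
    linear_combination hg - (t + b₂) * e
  have hcop : IsCoprime p p' := ⟨1, 1, by rw [one_mul, one_mul]; exact D.add⟩
  obtain ⟨h, hh⟩ := hcop.mul_dvd h1 h2
  have hz' : z = t ^ 2 + 2 * h := by
    rw [← D.mul]
    linear_combination hh
  have ht2 : IsCoprime t 2 := by
    have h3 := hz.add_mul_left_left (-h)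
    rw [show z + 2 * -h = t ^ 2 by rw [hz']; ring] at h3
    exact (IsCoprime.pow_left_iff (by norm_num)).1 h3
  obtain ⟨g', e, he⟩ := ht2.pow_left (m := 2)
  refine ⟨g' * h, t, e * h, ht2, ?_⟩
  rw [hz']
  linear_combination (-2 * h) * he

/-- the dyadic term of two elements `a`, `b` with `a = -b` modulo `p ^ 2` where `a` is a square modulo `p' ^ 2` -/
theorem pd_bb {V V' : HeightOneSpectrum (𝓞 F)} {p p' : 𝓞 F} (D : Dy V p p') (D' : Dy V' p' p) {β ω a b : 𝓞 F}
    (ha : Cl (β * p') a) (hb : Cl ω b) (hab : p ^ 2 ∣ a + b) : bb (β * p') ω = 1 := by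
  have e1 : ω = ω * p' + ω * p := by
    have h := D.add
    linear_combination (-ω) * h
  rw [e1, bb_add_right D.hodd, bl_mix D D', mul_one, D.bb_val]
  -- `ω = β + 1` modulo `p`
  have hp' : p' = 1 - p := by rw [← D.add]; ring
  have h2 : (2 : 𝓞 F) = p * (1 - p) := by rw [← hp']; exact D.mul.symm
  obtain ⟨t, c, ht, hac⟩ := ha
  obtain ⟨r, d, hr, hbd⟩ := hb
  have h4 : p ^ 2 ∣ (4 : 𝓞 F) := ⟨p' ^ 2, by rw [← mul_pow, D.mul]; norm_num⟩
  have h3 : p ^ 2 ∣ t ^ 2 * (1 + 2 * (β * p')) + r ^ 2 * (1 + 2 * ω) := by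
    have e : t ^ 2 * (1 + 2 * (β * p')) + r ^ 2 * (1 + 2 * ω) = (a + b) - 4 * (c + d) := by
      rw [hac, hbd]; ring
    rw [e]
    exact dvd_sub hab (h4.mul_right _)
  have hrp : IsCoprime r p := by
    rw [← D.mul] at hr
    exact hr.of_mul_right_left
  have hVp : V.asIdeal = span {p} := D.span
  have hpV : p ∈ V.asIdeal := by rw [hVp]; exact Ideal.mem_span_singleton_self p
  -- `t = r + p e`
  have h5 : p ∣ t - r := by
    have h6 : p ∣ (t - r) ^ 2 := by
      obtain ⟨k, hk⟩ := h3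
      refine ⟨p * k - (t ^ 2 * β * p' + r ^ 2 * ω + t * r) * (1 - p), ?_⟩
      linear_combination hk - (t ^ 2 * β * p' + r ^ 2 * ω + t * r) * h2
    have h7 : (t - r) ^ 2 ∈ V.asIdeal := by rw [hVp, Ideal.mem_span_singleton]; exact h6
    have h8 := V.isPrime.mem_of_pow_mem _ h7
    rwa [hVp, Ideal.mem_span_singleton] at h8
  obtain ⟨e, he⟩ := h5
  have ht' : t = r + p * e := by linear_combination he
  have h6 : p ^ 2 ∣ r ^ 2 * (2 * (1 + β + ω)) := by
    obtain ⟨k, hk⟩ := h3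
    rw [ht', hp'] at hk
    refine ⟨k - e ^ 2 * (1 + 2 * (β * (1 - p))) - (r * e) * (1 - p) * (1 + 2 * (β * (1 - p))) + r ^ 2 * β * (1 - p), ?_⟩
    linear_combination hk - (r * (p * e) * (1 + 2 * (β * (1 - p)))) * h2 + (r ^ 2 * β * p) * h2
  have h7 : p ∣ 1 + β + ω := by
    have h8 : p ^ 2 ∣ 2 * (1 + β + ω) := (hrp.symm.pow (m := 2) (n := 2)).dvd_of_dvd_mul_left h6
    rw [← D.mul, sq, mul_assoc] at h8
    have hp0 : p ≠ 0 := by
      rintro rfl
      have := D.mul
      rw [zero_mul] at this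
      exact two_ne_zero this.symm
    have h9 := (mul_dvd_mul_iff_left hp0).1 h8
    have hcop : IsCoprime p p' := ⟨1, 1, by rw [one_mul, one_mul]; exact D.add⟩
    exact hcop.dvd_of_dvd_mul_left h9
  obtain ⟨k, hk⟩ := h7
  unfold chd
  rw [if_pos]
  refine ⟨-β, ?_⟩
  have e2 : (-β) ^ 2 - 1 * -β - β * ω = p * (2 * 0) + β * (2 * (1 + β)) - β * (p * k) := by
    rw [← hk]; ring
  rw [e2]
  refine V.asIdeal.sub_mem (V.asIdeal.add_mem (V.asIdeal.mul_mem_right _ hpV) ?_)
    (V.asIdeal.mul_mem_left _ (V.asIdeal.mul_mem_right _ hpV))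
  exact V.asIdeal.mul_mem_left _ (V.asIdeal.mul_mem_right _ D.two)

end

section
variable {L M : Type} [Field L] [NumberField L] [Field M] [NumberField M] [Algebra L M]
  [IsTotallyReal L] (D : Dat L M)
include D

/-- an element of `L` is a square modulo a prime ideal of `L` in `M` -/
theorem pd_sy_prime {w : HeightOneSpectrum (𝓞 L)} (h2 : (2 : 𝓞 L) ∉ w.asIdeal) {a : 𝓞 L} (ha : a ∉ w.asIdeal) :
    w.asIdeal.map (algebraMap (𝓞 L) (𝓞 M)) ≠ ⊥ ∧
      sy (algebraMap (𝓞 L) (𝓞 M) a) (w.asIdeal.map (algebraMap (𝓞 L) (𝓞 M))) = 1 := by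
  by_cases h7 : (7 : 𝓞 L) ∈ w.asIdeal
  · have h1 : w.asIdeal.map (algebraMap (𝓞 L) (𝓞 M)) = span {D.rr} ^ 2 := by
      rw [(D.above_seven.1 w).1 h7, Ideal.map_span, Set.image_singleton, map_ofNat, Ideal.span_singleton_pow, D.rr_sq]
      rw [Ideal.span_singleton_neg]
    obtain ⟨R, hR⟩ : ∃ R : HeightOneSpectrum (𝓞 M), R.asIdeal = span {D.rr} := by
      have hne : span {D.rr} ≠ ⊥ := by
        rw [Ne, Ideal.span_singleton_eq_bot]
        exact bl_rr_ne
      obtain ⟨R, hRm, hR⟩ := Ideal.exists_le_maximal (span {D.rr}) (by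
        intro h
        have h3 := D.above_seven.2.2.2
        rw [h, Ideal.absNorm_top] at h3
        have h4 : 1 < 7 ^ Module.finrank ℚ L := Nat.one_lt_pow Module.finrank_pos.ne' (by norm_num)
        omega)
      have hR0 : R ≠ ⊥ := fun h => hne (by rw [h] at hR; exact le_bot_iff.1 hR)
      refine ⟨⟨R, hRm.isPrime, hR0⟩, ?_⟩
      rw [← (D.above_seven.2.1 ⟨R, hRm.isPrime, hR0⟩)]
      have h5 : (7 : 𝓞 M) = -(D.rr ^ 2) := by rw [D.rr_sq]; ring
      rw [h5]
      exact neg_mem (Ideal.pow_mem_of_mem _ (hR (Ideal.mem_span_singleton_self _)) 2 (by norm_num))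
    have hRw : a7a_pi (L := L) R = w := by
      rw [a7a_pi_eq]
      symm
      refine w.isMaximal.eq_of_le ?_ ?_
      · have := R.isPrime
        exact (Ideal.comap_isPrime (algebraMap (𝓞 L) (𝓞 M)) R.asIdeal).ne_top
      · rw [← Ideal.map_le_iff_le_comap, h1, ← hR]
        exact Ideal.pow_le_self two_ne_zero
    rw [h1, ← hR]
    refine ⟨pow_ne_zero 2 R.ne_bot, ?_⟩
    rw [r1_sy_pow_right _ R.ne_bot, r1_sy_prime]
    have h6 : algebraMap (𝓞 L) (𝓞 M) a ∉ R.asIdeal := by rwa [alg_mem hRw]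
    rcases TRQ.sy3_qr_pm h6 with h | h <;> rw [h] <;> norm_num
  · have hc := ra_c7 (⟨w, h2, h7⟩ : OQ L)
    have hfin : {P : HeightOneSpectrum (𝓞 M) | a7a_pi (L := L) P = w}.Finite := by
      have h1 : ((absNorm w.asIdeal : ℕ) : 𝓞 M) ≠ 0 := by
        rw [Nat.cast_ne_zero, Ne, Ideal.absNorm_eq_zero_iff]
        exact w.ne_bot
      refine (TRN.n7_fin M h1).subset fun P hP => ?_
      have h3 : algebraMap (𝓞 L) (𝓞 M) ((absNorm w.asIdeal : ℕ) : 𝓞 L) ∈ P.asIdeal := by
        rw [alg_mem hP]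
        exact Ideal.absNorm_mem _
      rwa [map_natCast] at h3
    have hmap := ra_map D hc hfin.toFinset fun P => by rw [Set.Finite.mem_toFinset, Set.mem_ofPred_eq]
    rw [hmap]
    refine ⟨Finset.prod_ne_zero_iff.2 fun P _ => P.ne_bot, ?_⟩
    have h3 := x_sy_prod hfin.toFinset 1 (algebraMap (𝓞 L) (𝓞 M) a)
    simp only [pow_one] at h3
    rw [h3]
    rcases hc with h | h
    · obtain ⟨P, Q, hPQ, -, hR, -, -⟩ := D.split w h7 h
      have hFe : hfin.toFinset = {P, Q} := by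
        ext R
        rw [Set.Finite.mem_toFinset, Set.mem_ofPred_eq, a7a_pi_eq, hR, Finset.mem_insert, Finset.mem_singleton]
      rw [hFe, Finset.prod_pair hPQ, qr_split_alg D (a7a_pi_eq.2 ((hR P).2 (Or.inl rfl))) h2 h,
        qr_split_alg D (a7a_pi_eq.2 ((hR Q).2 (Or.inr rfl))) h2 h]
      rcases TRQ.sy3_qr_pm ha with h | h <;> rw [h] <;> norm_num
    · refine Finset.prod_eq_one fun P hP => ?_
      rw [Set.Finite.mem_toFinset, Set.mem_ofPred_eq] at hP
      exact qr_inert_alg D hP h2 h ha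

/-- elements of `L` are squares modulo the ideals of `L` in `M` -/
theorem pd_sy_alg {a b : 𝓞 L} (hb : IsCoprime (algebraMap (𝓞 L) (𝓞 M) b) 2)
    (hab : IsCoprime (algebraMap (𝓞 L) (𝓞 M) a) (algebraMap (𝓞 L) (𝓞 M) b)) :
    sy (algebraMap (𝓞 L) (𝓞 M) a) (span {algebraMap (𝓞 L) (𝓞 M) b}) = 1 := by
  have hb0 : span {b} ≠ (⊥ : Ideal (𝓞 L)) := by
    rw [Ne, Ideal.span_singleton_eq_bot]
    rintro rfl
    rw [map_zero] at hb
    exact r2_ne_zero_of_odd hb rfl
  obtain ⟨T, hT⟩ := r1_exists_T hb0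
  have hmem : ∀ w ∈ T, (2 : 𝓞 L) ∉ w.asIdeal ∧ a ∉ w.asIdeal := by
    intro w hw
    have h1 := r1_mem_T hT hw
    have h3 : b ∈ w.asIdeal := (Ideal.span_singleton_le_iff_mem _).1 h1
    have h4 : (span {algebraMap (𝓞 L) (𝓞 M) b} : Ideal (𝓞 M)) ≤ w.asIdeal.map (algebraMap (𝓞 L) (𝓞 M)) := by
      rw [Ideal.span_singleton_le_iff_mem]
      exact Ideal.mem_map_of_mem _ h3
    have h5 : w.asIdeal.map (algebraMap (𝓞 L) (𝓞 M)) ≠ ⊤ := by
      intro h
      have h6 := congrArg absNorm h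
      rw [absNorm_map D, Ideal.absNorm_top] at h6
      have h7 : absNorm w.asIdeal ≠ 1 := fun h => w.isPrime.ne_top (Ideal.absNorm_eq_one_iff.1 h)
      exact h7 (Nat.pow_eq_one.1 h6 |>.resolve_right two_ne_zero)
    constructor
    · intro h
      apply h5
      rw [Ideal.eq_top_iff_one]
      obtain ⟨x, y, hxy⟩ := hb
      rw [← hxy]
      refine Ideal.add_mem _ (Ideal.mul_mem_left _ _ (h4 (Ideal.mem_span_singleton_self _))) (Ideal.mul_mem_left _ _ ?_)
      have := Ideal.mem_map_of_mem (algebraMap (𝓞 L) (𝓞 M)) h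
      rwa [map_ofNat] at this
    · intro h
      apply h5
      rw [Ideal.eq_top_iff_one]
      obtain ⟨x, y, hxy⟩ := hab
      rw [← hxy]
      exact Ideal.add_mem _ (Ideal.mul_mem_left _ _ (Ideal.mem_map_of_mem _ h))
        (Ideal.mul_mem_left _ _ (h4 (Ideal.mem_span_singleton_self _)))
  have hmap : (span {algebraMap (𝓞 L) (𝓞 M) b} : Ideal (𝓞 M)) =
      (T.map fun w => w.asIdeal.map (algebraMap (𝓞 L) (𝓞 M))).prod := by
    rw [← Set.image_singleton, ← Ideal.map_span, hT]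
    have h4 := map_multiset_prod (Ideal.mapHom (algebraMap (𝓞 L) (𝓞 M))) (T.map fun w => w.asIdeal)
    simp only [Ideal.mapHom_apply, Multiset.map_map, Function.comp_def] at h4
    exact h4
  rw [hmap]
  clear hmap hT
  have key : (T.map fun w => w.asIdeal.map (algebraMap (𝓞 L) (𝓞 M))).prod ≠ ⊥ ∧
      sy (algebraMap (𝓞 L) (𝓞 M) a) (T.map fun w => w.asIdeal.map (algebraMap (𝓞 L) (𝓞 M))).prod = 1 := by
    induction T using Multiset.induction_on with
    | empty =>
      rw [Multiset.map_zero, Multiset.prod_zero]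
      exact ⟨by rw [Ideal.one_eq_top]; exact top_ne_bot, r1_sy_one _⟩
    | cons w T ih =>
      obtain ⟨h1, h2⟩ := ih fun u hu => hmem u (Multiset.mem_cons_of_mem hu)
      obtain ⟨h3, h4⟩ := pd_sy_prime D (hmem w (Multiset.mem_cons_self w T)).1 (hmem w (Multiset.mem_cons_self w T)).2
      rw [Multiset.map_cons, Multiset.prod_cons]
      refine ⟨mul_ne_zero h3 h1, ?_⟩
      rw [r1_sy_mul_right _ h3 h1, h4, h2, one_mul]
  exact key.2

omit D in
/-- coordinates with respect to `1`, `ϖ` -/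
theorem pd_repr (D : Dat L M) (s : Bool) (z : 𝓞 M) : ∃ x y : 𝓞 L,
    z = algebraMap (𝓞 L) (𝓞 M) x + algebraMap (𝓞 L) (𝓞 M) y * p1 D s := by
  obtain ⟨c, d, rfl⟩ := D.om_repr z
  cases s
  · refine ⟨c - 3 * d, -d, ?_⟩
    simp only [p1, if_false, Bool.false_eq_true, map_sub, map_mul, map_ofNat, map_neg]
    ring
  · refine ⟨c - 4 * d, d, ?_⟩
    simp only [p1, if_true, map_sub, map_mul, map_ofNat]
    ring

variable {D}

/-- **the diagonal**: `(z / P̄) = (√-7 / P̄)` for a normalised generator `z` of an odd power of `P` -/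
theorem pd_diag (hD : Od2 D) {s : Bool} {P : HeightOneSpectrum (𝓞 M)} (hP2 : (2 : 𝓞 M) ∉ P.asIdeal)
    (hne : u6_conj D P ≠ P) {z : 𝓞 M} (hz : NG D s P z) :
    TT.qr (u6_conj D P) z = TT.qr (u6_conj D P) (rs7 D s) := by
  have htc : IsTotallyComplex M := D.isTotallyComplex
  set Q := u6_conj D P with hQ
  obtain ⟨k, hk, hzk⟩ := hz.gen
  obtain ⟨a, c, ha, hac⟩ := hz.et
  obtain ⟨x, y, hxy⟩ := pd_repr D s z
  set X := algebraMap (𝓞 L) (𝓞 M) x with hX
  set Y := algebraMap (𝓞 L) (𝓞 M) y with hY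
  set p := p1 D s with hp
  set p' := p2 D s with hp'
  have hadd : p + p' = 1 := bl_add D s
  have hmul : p * p' = 2 := bl_mul D s
  have hpp : p = 1 - p' := by linear_combination hadd
  have h2' : (2 : 𝓞 M) = (1 - p') * p' := by rw [← hpp]; exact hmul.symm
  set zb := D.cjO z with hzb
  have hcp' : D.cjO p' = p := by
    have h := bl_cj (D := D) (!s)
    rw [bl_not] at h
    exact h
  have hzb1 : zb = X + Y * p' := by
    rw [hzb, hxy, map_add, map_mul, hX, hY, D.a2_cjO_algebraMap, D.a2_cjO_algebraMap, bl_cj]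
  -- the element `q`
  set q : 𝓞 L := x + 2 * y with hq
  set W := algebraMap (𝓞 L) (𝓞 M) q with hW
  have hWX : W = X + 2 * Y := by rw [hW, hq, map_add, map_mul, map_ofNat]
  have hzbW : zb = W + Y * p' ^ 2 := by
    rw [hzb1, hWX]
    linear_combination (-Y) * h2'
  have hzW : z = W + Y * p ^ 2 := by
    rw [hxy, hWX, hpp]
    linear_combination (-Y) * h2'
  have hzbk : span {zb} = Q.asIdeal ^ k := by
    have h := congrArg (Ideal.map D.cjO) hzk
    rw [Ideal.map_span, Set.image_singleton, Ideal.map_pow] at h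
    exact h
  have hQ2 : (2 : 𝓞 M) ∉ Q.asIdeal := by
    intro h
    apply hP2
    have h1 : D.cjO (2 : 𝓞 M) ∈ Q.asIdeal.map D.cjO := Ideal.mem_map_of_mem _ h
    rw [map_ofNat, hQ] at h1
    have h3 : (u6_conj D P).asIdeal.map D.cjO = P.asIdeal := u6_map_map D P.asIdeal
    rwa [h3] at h1
  have hzQ : z ∉ Q.asIdeal := by
    intro h
    have h1 : P.asIdeal ^ k ≤ Q.asIdeal := by
      rw [← hzk]
      exact (Ideal.span_singleton_le_iff_mem _).2 h
    have h3 := P.isMaximal.eq_of_le Q.isPrime.ne_top (Q.isPrime.le_of_pow_le h1)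
    exact hne (HeightOneSpectrum.ext h3.symm)
  have hzbQ : zb ∈ Q.asIdeal := by
    rw [← Ideal.span_singleton_le_iff_mem, hzbk]
    exact Ideal.pow_le_self hk.pos.ne'
  have hzb2 : IsCoprime zb 2 := bl_gen_two hQ2 hzbk
  have hz2 : IsCoprime z 2 := bl_gen_two hP2 hzk
  have hzzb : IsCoprime z zb := by
    rw [← r1_cop, hzk, hzbk]
    apply IsCoprime.pow
    rw [Ideal.isCoprime_iff_sup_eq]
    by_contra hcon
    have h1 := P.isMaximal.eq_of_le hcon le_sup_left
    have h3 : Q.asIdeal ≤ P.asIdeal := by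
      rw [h1]
      exact le_sup_right
    exact hne (HeightOneSpectrum.ext (Q.isMaximal.eq_of_le P.isPrime.ne_top h3))
  have h2p' : IsCoprime zb p' := by
    rw [← hmul] at hzb2
    exact hzb2.of_mul_right_right
  have h2p : IsCoprime z p := by
    rw [← hmul] at hz2
    exact hz2.of_mul_right_left
  -- `W` is prime to `2` and to `zb`
  have hW2 : IsCoprime W 2 := by
    rw [← hmul]
    apply IsCoprime.mul_right
    · have h1 : IsCoprime (W + p * (Y * p)) p := by
        rw [show W + p * (Y * p) = z by rw [hzW]; ring]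
        exact h2p
      exact IsCoprime.of_add_mul_left_left h1
    · have h1 : IsCoprime (W + p' * (Y * p')) p' := by
        rw [show W + p' * (Y * p') = zb by rw [hzbW]; ring]
        exact h2p'
      exact IsCoprime.of_add_mul_left_left h1
  have hWzb : IsCoprime W zb := by
    have h1 : W * (p - p') = -(p' ^ 2) * z + p ^ 2 * zb := by
      rw [hzW, hzbW, hpp]
      ring
    have h3 : IsCoprime (-(p' ^ 2) * z) zb := by
      apply IsCoprime.mul_left _ hzzb
      exact (h2p'.symm.pow_left (m := 2)).neg_left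
    have h4 : IsCoprime (W * (p - p')) zb := by
      rw [h1, mul_comm (p ^ 2) zb]
      exact h3.add_mul_left_left (p ^ 2)
    exact h4.of_mul_left_left
  have hYW : IsCoprime Y W := by
    have h1 : IsCoprime (zb + W * (-1)) W := hWzb.symm.add_mul_left_left (-1)
    rw [show zb + W * (-1) = Y * p' ^ 2 by rw [hzbW]; ring] at h1
    exact h1.of_mul_left_left
  -- the symbol of `zb` modulo `W`
  have hs1 : sy zb (span {W}) = 1 := by
    have hWne := r2_span_ne hW2
    have h1 : zb - Y * p' ^ 2 ∈ span {W} := by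
      rw [Ideal.mem_span_singleton]
      exact ⟨1, by rw [hzbW]; ring⟩
    rw [r1_sy_congr hWne h1, r1_sy_mul_left hWne (r1_cop.2 hW2.symm), r1_sy_sq hWne, mul_one]
    · exact pd_sy_alg D hW2 hYW
    · rw [r1_cop]
      have h3 := hW2
      rw [← hmul] at h3
      exact h3.of_mul_right_right.symm
  -- the classes
  have hDy := bl_Dy hD s
  have hDy' := bl_Dy hD (!s)
  rw [bl_not] at hDy'
  obtain ⟨β, hβ⟩ : ∃ β : 𝓞 M, Cl (β * p) zb := by
    refine bl_class hDy' hzb2 (a := D.cjO a) (c := D.cjO c) ?_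
    have h := congrArg D.cjO hac
    rw [map_add, map_mul, map_pow, map_pow] at h
    rw [hcp'] at h
    exact h
  obtain ⟨ω, hω⟩ := pd_class hDy hDy' (z := -W) (by
    obtain ⟨u, v, huv⟩ := hW2
    exact ⟨-u, v, by rw [← huv]; ring⟩)
  have hbb : bb (β * p) ω = 1 := by
    refine pd_bb hDy' hDy hβ hω ?_
    refine ⟨Y, ?_⟩
    change zb + -W = p' ^ 2 * Y
    rw [hzbW]
    ring
  have hrs := bb_eq D.hodd hβ hω hWzb.symm.neg_right
  rw [hbb] at hrs
  unfold rs at hrs
  rw [Ideal.span_singleton_neg, hs1, one_mul, hzbk, r1_sy_pow_right _ Q.ne_bot, r1_sy_prime,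
    r1_pow_odd (qr_cases _ _) hk] at hrs
  -- `-W Y` is a square modulo `Q`
  have hYQ : TT.qr Q Y = 1 := by
    have hXQ : X ∉ Q.asIdeal := by
      intro h
      have h1 : Y * p' ∈ Q.asIdeal := by
        have h3 := Q.asIdeal.sub_mem hzbQ h
        rwa [show zb - X = Y * p' by rw [hzb1]; ring] at h3
      have h3 : Y ∈ Q.asIdeal := by
        rcases Q.isPrime.mem_or_mem h1 with h4 | h4
        · exact h4
        · exfalso
          apply hQ2
          rw [← hmul]
          exact Q.asIdeal.mul_mem_left _ h4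
      apply hzQ
      rw [hxy]
      exact Q.asIdeal.add_mem h (Q.asIdeal.mul_mem_right _ h3)
    have h1 : TT.qr Q (-W * Y) = TT.qr Q (X ^ 2) := by
      apply TT.qr_congr
      have e : -W * Y - X ^ 2 = -z * zb := by
        rw [hzb1, hWX, hxy, hpp]
        linear_combination (-(Y ^ 2)) * h2'
      rw [e]
      exact Q.asIdeal.mul_mem_left _ hzbQ
    rw [TT.qr_mul Q hQ2, hrs, one_mul, TT.qr_sq Q hXQ] at h1
    exact h1
  have h1 : TT.qr Q z = TT.qr Q (Y * rs7 D s) := by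
    apply TT.qr_congr
    have e : z - Y * rs7 D s = zb := by
      rw [hzb1, hxy]
      unfold rs7
      ring
    rw [e]
    exact hzbQ
  rw [h1, TT.qr_mul Q hQ2, hYQ, one_mul]

/-- [PD] **the diagonal of `m`** -/
theorem mL_diag (hD : Od2 D) {s : Bool} {z : HeightOneSpectrum (𝓞 M) → 𝓞 M}
    (hz : ∀ P, (2 : 𝓞 M) ∉ P.asIdeal → NG D s P (z P)) {Pv : OQ L → HeightOneSpectrum (𝓞 M)} (hP : Above Pv)
    {v : OQ L} (hv : kL v = 0) : mL D z Pv v v = rtL D s Pv v := by
  have hc := ra_kL.1.1 hv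
  obtain ⟨P, Q, hPQ, hQP, hR, -, -⟩ := D.split v.1 v.2.2 hc
  have hQ : Q = u6_conj D P := HeightOneSpectrum.ext hQP
  have hPv2 : (2 : 𝓞 M) ∉ (Pv v).asIdeal := two_above (hP v) v.2.1
  have hne : u6_conj D (Pv v) ≠ Pv v := by
    rcases (hR (Pv v)).1 (a7a_pi_eq.1 (hP v)) with h | h
    · rw [h, ← hQ]
      exact hPQ.symm
    · rw [h, hQ, u6_conj_conj, ← hQ]
      exact hPQ
  unfold mL rtL TRG.aM bQ
  rw [pd_diag hD hPv2 hne (hz (Pv v) hPv2)]

end

end TRP
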