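import Pool.Agent.TRP.RA2
import Pool.Agent.TRP.RC1
import Pool.Agent.TRP.LD4

/-! [ALLP phase 5] the system of the primes of `L` with its level of distribution -/

set_option autoImplicit false

open NumberField Ideal IsDedekindDomain Filter Topology
open scoped Real Classical ComplexConjugate
open TR TRG TTS TU TT TRPR

namespace TRP

section
variable {L M : Type} [Field L] [NumberField L] [Field M] [NumberField M] [Algebra L M]
  [IsTotallyReal L] {D : Dat L M} (hD : Od2 D)

include hD

/-- **the system with a level of distribution** -/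
theorem exists_lsys {s : Bool} {z : HeightOneSpectrum (𝓞 M) → 𝓞 M} (hz : ∀ P, (2 : 𝓞 M) ∉ P.asIdeal → NG D s P (z P))
    {n : HeightOneSpectrum (𝓞 L) → 𝓞 L} (hn : ∀ v : OQ L, NL v.1 (n v.1)) {Pv : OQ L → HeightOneSpectrum (𝓞 M)} (hP : Above Pv) :
    ∃ B : LSys (OQ L), B.N = (fun v => absNorm v.1.asIdeal) ∧ B.k = kL ∧ B.x = xL ∧ B.τ = tauL ∧
      (∀ v, kL v = 0 → B.rt v = rtL D s Pv v) ∧ B.w = wL n ∧ ∀ u v, kL u = 0 → kL v = 0 → B.m u v = mL D z Pv u v := by
  obtain ⟨R, hN, hk, hx, hτ, hrt, hw, hm⟩ := exists_rsys hD hz hn hP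
  obtain ⟨kap, C, δ, hkap, hC, hδ, hδ1, h⟩ := exists_lod hD R.toBase fun v => congrFun hN v
  let B : LSys (OQ L) :=
    { R with
      kap := kap
      D := C + 1
      ε := δ
      hkap := hkap
      hD := by linarith
      hε := hδ
      hε1 := hδ1.le
      lev := by
        intro a b A Y hY
        have h1 : 1 ≤ R.toBase.nS A := by
          unfold TRQ.Base.nS
          exact Nat.succ_le_of_lt (Finset.prod_pos fun v _ => by have := R.two v; omega)
        have h2 : (1 : ℝ) ≤ Y := le_trans (by exact_mod_cast h1) hY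
        have h3 := h a b A Y h2
        rw [hτ, hx]
        refine (le_of_eq ?_).trans (h3.trans ?_)
        · congr
        have h4 : 0 ≤ (4 : ℝ) ^ A.card * (Y / R.toBase.nS A) ^ (1 - δ) := by positivity
        rw [mul_assoc, mul_assoc]
        exact mul_le_mul_of_nonneg_right (by linarith) h4 }
  exact ⟨B, hN, hk, hx, hτ, hrt, hw, hm⟩

end

end TRP
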