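import Pool.Agent.TRP.LF1
import Pool.Agent.TRP.RA6
import Pool.Agent.TRP.PD
import Pool.Agent.TRP.RC8

/-! # [ALLP-RA7] the exact limit over `L` -/

set_option autoImplicit false

open NumberField Ideal IsDedekindDomain Filter Topology
open scoped Real Classical ComplexConjugate
open TR TRG TTS TU TT XTB TRPR Pool.Agent.TRG

namespace TRP

section
variable {L M : Type} [Field L] [NumberField L] [Field M] [NumberField M] [Algebra L M]
  [IsTotallyReal L] {D : Dat L M} (hD : Od2 D)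
include hD

/-- **the exact limit over `L`**: the proportion of the curves with finite Mordell-Weil group and finite odd `Ш` (no `2`-torsion)
among all the curves over `L` which are isomorphic to `X₀(49)` above `2` -/
theorem real_limit :
    Tendsto (fun X : ℕ => (cmFamily L X TwoCurve).ncard) atTop atTop ∧
    Tendsto (fun X : ℕ => ((cmFamily L X fun E => TwoCurve E ∧ TRB.FiniteSha E).ncard : ℝ) /
      ((cmFamily L X TwoCurve).ncard : ℝ)) atTop (𝓝 (1 / 4 * ∏' k : ℕ, (1 - 1 / 2 ^ (2 * k + 1)))) := by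
  have hnat : Tendsto (fun X : ℕ => (X : ℝ)) atTop atTop := tendsto_natCast_atTop_atTop
  obtain ⟨z, hz⟩ : ∃ z : HeightOneSpectrum (𝓞 M) → 𝓞 M, ∀ P, (2 : 𝓞 M) ∉ P.asIdeal → NG D false P (z P) := by
    have h : ∀ P : HeightOneSpectrum (𝓞 M), (2 : 𝓞 M) ∉ P.asIdeal → ∃ q, NG D false P q :=
      fun P hP => exists_NG hD false hP
    choose! z hz using h
    exact ⟨z, hz⟩
  obtain ⟨n, hn⟩ : ∃ n : HeightOneSpectrum (𝓞 L) → 𝓞 L, ∀ v : OQ L, NL v.1 (n v.1) := by
    have h : ∀ v : HeightOneSpectrum (𝓞 L), (2 : 𝓞 L) ∉ v.asIdeal → ∃ q, NL v q :=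
      fun v hv => exists_NL hD hv
    choose! n hn using h
    exact ⟨n, fun v => hn v.1 v.2.1⟩
  obtain ⟨Pv, hPv⟩ := exists_Pv D
  obtain ⟨B, hN, hk, hx, hτ, hrt, hw, hm⟩ := exists_lsys hD hz hn hPv
  have hdiag : ∀ v, B.k v = 0 → B.m v v = B.rt v := by
    intro v hv
    rw [hk] at hv
    rw [hm v v hv hv, hrt v hv]
    exact mL_diag hD hz hPv hv
  refine ⟨?_, ?_⟩
  · obtain ⟨κ, X₀, hκ, B', -, h1⟩ := ra_lower hD
    have h3 : Tendsto (fun X : ℕ => κ * ((B'.sb (X : ℝ)).card : ℝ)) atTop atTop :=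
      ((tendsto_card_sb B').comp hnat).const_mul_atTop hκ
    have h4 : Tendsto (fun X : ℕ => ((cmFamily L X TwoCurve).ncard : ℝ)) atTop atTop := by
      refine tendsto_atTop_mono' _ ?_ h3
      filter_upwards [hnat.eventually_ge_atTop X₀] with X hX
      refine (h1 X hX).trans ?_
      have h5 : (cmFamily L X fun E => TwoCurve E ∧ TRB.FiniteSha E).ncard ≤ (cmFamily L X TwoCurve).ncard := by
        refine Set.ncard_le_ncard ?_ (lf_all hD hn (B := B.toBase) hN X).1
        rintro c ⟨E, h1, h2, h3, h4⟩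
        exact ⟨E, h1, h2, h3, h4.1⟩
      exact_mod_cast h5
    exact tendsto_natCast_atTop_iff.1 h4
  · have h7 : (0 : ℝ) < 7 ^ Module.finrank ℚ L := by positivity
    have h1 := (B.real_lim hdiag).comp (hnat.atTop_div_const h7)
    have e : (1 / 4 * ∏' k : ℕ, (1 - 1 / 2 ^ (2 * k + 1)) : ℝ) = Pinf / 4 := by
      unfold Pinf
      ring
    rw [e]
    refine h1.congr fun X => ?_
    rw [lf_sha hD hz hn hPv B.toRSys hN hk hx hτ hrt hw hm X, (lf_all hD hn (B := B.toBase) hN X).2, ← hτ]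
    push_cast
    rw [mul_div_mul_left _ _ (two_ne_zero)]
    rfl

end

end TRP
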