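import Pool.Agent.TRP.RES1
import Pool.Agent.TRP.RA7

/-! # [ALLP] the density theorem over admissible fields of odd degree in which `2` is inert -/

set_option autoImplicit false

open NumberField IsDedekindDomain XTR XTS Filter Topology
open scoped Classical

namespace XTB

open TRB

/-- the density theorem over `L` -/
theorem two_densityL {L : Type} [Field L] [NumberField L] (hL : Admissible L) (h2 : (Ideal.span {(2 : 𝓞 L)}).IsPrime)
    (ho : Odd (Module.finrank ℚ L)) :
    (∀ X : ℕ, (cmFamily L X fun _ => True).Finite) ∧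
    (∃ c : ℝ, 0 < c ∧ ∀ᶠ X : ℕ in atTop, c * (cmFamily L X fun _ => True).ncard ≤
      (cmFamily L X fun E => TwoCurve E ∧ FiniteSha E).ncard) ∧
    Tendsto (fun X : ℕ => (cmFamily L X TwoCurve).ncard) atTop atTop ∧
    Tendsto (fun X : ℕ => ((cmFamily L X fun E => TwoCurve E ∧ FiniteSha E).ncard : ℝ) /
      ((cmFamily L X TwoCurve).ncard : ℝ)) atTop (𝓝 (1 / 4 * ∏' k : ℕ, (1 - 1 / 2 ^ (2 * k + 1)))) := by
  have : IsTotallyReal L := hL.real
  obtain ⟨M, _, _, _, r, hr, gen⟩ := TR.exists_sqrt L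
  have hM : Module.finrank L M = 2 := (hL.good.dat hL.inert M r hr gen).finrank_eq_two
  obtain ⟨D, hD⟩ := exists_datOd2 hL h2 ho hM ⟨r, hr⟩
  obtain ⟨h1, -, h3⟩ := TRP.real_density hD
  exact ⟨h1, h3, TRP.real_limit hD⟩

end XTB
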