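import Pool.Agent.TRP.RA2a

/-! # [ALLP-RA2a] the field `chrS` -/

set_option autoImplicit false
set_option linter.unusedSectionVars false

open NumberField Ideal IsDedekindDomain Filter Topology
open scoped Real Classical ComplexConjugate
open TR TRG TTS TU TT TRPR

namespace TRP

section
variable {L M : Type} [Field L] [NumberField L] [Field M] [NumberField M] [Algebra L M]
  [IsTotallyReal L] (D : Dat L M)

omit [IsTotallyReal L] in
theorem ra_kL {v : OQ L} : (kL v = 0 ↔ c7 (absNorm v.1.asIdeal) = 1) ∧ (kL v ≠ 0 ↔ c7 (absNorm v.1.asIdeal) = -1) := by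
  unfold kL
  rcases ra_c7 v with h | h
  · rw [h]
    simp
  · rw [h]
    simp

include D

/-- an unramified prime of `L` in `M` -/
theorem ra_map {v : HeightOneSpectrum (𝓞 L)} (h : c7 (absNorm v.asIdeal) = 1 ∨ c7 (absNorm v.asIdeal) = -1)
    (F : Finset (HeightOneSpectrum (𝓞 M))) (hF : ∀ P, P ∈ F ↔ a7a_pi (L := L) P = v) :
    v.asIdeal.map (algebraMap (𝓞 L) (𝓞 M)) = ∏ P ∈ F, P.asIdeal := by
  rcases h with h | h
  · obtain ⟨P, Q, hPQ, -, hR, hNP, hNQ⟩ := D.split v (as6_seven (Or.inl h)) h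
    have hFe : F = {P, Q} := by
      ext R
      rw [hF, a7a_pi_eq, hR, Finset.mem_insert, Finset.mem_singleton]
    rw [hFe, Finset.prod_pair hPQ]
    have hP : v.asIdeal.map (algebraMap (𝓞 L) (𝓞 M)) ≤ P.asIdeal := by
      rw [Ideal.map_le_iff_le_comap, (hR P).2 (Or.inl rfl)]
    have hQ : v.asIdeal.map (algebraMap (𝓞 L) (𝓞 M)) ≤ Q.asIdeal := by
      rw [Ideal.map_le_iff_le_comap, (hR Q).2 (Or.inr rfl)]
    have hcop : IsCoprime P.asIdeal Q.asIdeal := by
      rw [Ideal.isCoprime_iff_sup_eq]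
      by_contra hcon
      have h1 := P.isMaximal.eq_of_le hcon le_sup_left
      have h2 : Q.asIdeal ≤ P.asIdeal := by
        rw [h1]
        exact le_sup_right
      exact hPQ (HeightOneSpectrum.ext (Q.isMaximal.eq_of_le P.isPrime.ne_top h2)).symm
    obtain ⟨J, hJ⟩ := hcop.mul_dvd (Ideal.dvd_iff_le.2 hP) (Ideal.dvd_iff_le.2 hQ)
    have hnorm : absNorm (v.asIdeal.map (algebraMap (𝓞 L) (𝓞 M))) = absNorm v.asIdeal ^ 2 := absNorm_map D _
    have h0 : absNorm v.asIdeal ≠ 0 := by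
      rw [Ne, absNorm_eq_zero_iff]
      exact v.ne_bot
    have hJ1 : absNorm J = 1 := by
      rw [hJ, map_mul, map_mul, hNP, hNQ, ← sq] at hnorm
      exact Nat.eq_of_mul_eq_mul_left (Nat.pos_of_ne_zero (pow_ne_zero 2 h0)) (by rw [hnorm, mul_one])
    rw [absNorm_eq_one_iff] at hJ1
    rw [hJ, hJ1, Ideal.mul_top]
  · obtain ⟨P, hR, hmap⟩ := h1_inert D v h
    have hFe : F = {P} := by
      ext R
      rw [hF, a7a_pi_eq, hR, Finset.mem_singleton]
    rw [hFe, Finset.prod_singleton, hmap]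

/-- there is a prime above every prime -/
theorem ra_above {v : HeightOneSpectrum (𝓞 L)} (h : c7 (absNorm v.asIdeal) = 1 ∨ c7 (absNorm v.asIdeal) = -1) :
    ∃ P : HeightOneSpectrum (𝓞 M), a7a_pi (L := L) P = v := by
  rcases h with h | h
  · obtain ⟨P, Q, -, -, hR, -, -⟩ := D.split v (as6_seven (Or.inl h)) h
    exact ⟨P, a7a_pi_eq.2 ((hR P).2 (Or.inl rfl))⟩
  · obtain ⟨P, hR, -⟩ := h1_inert D v h
    exact ⟨P, a7a_pi_eq.2 ((hR P).2 rfl)⟩

/-- the norm of a prime above a split prime -/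
theorem ra_norm_above {v : OQ L} (hv : kL v = 0) {P : HeightOneSpectrum (𝓞 M)} (hP : a7a_pi (L := L) P = v.1) :
    absNorm P.asIdeal = absNorm v.1.asIdeal := by
  obtain ⟨P', Q', -, -, hR, hNP', hNQ'⟩ := D.split v.1 v.2.2 (ra_kL.1.1 hv)
  rcases (hR P).1 (a7a_pi_eq.1 hP) with h8 | h8
  · rw [h8]
    exact hNP'
  · rw [h8]
    exact hNQ'

omit D in
/-- the prime of `L` below a prime which is not above `14` -/
theorem ra_below {P : HeightOneSpectrum (𝓞 M)} (h14 : (14 : 𝓞 M) ∉ P.asIdeal) : ∃ v : OQ L, a7a_pi (L := L) P = v.1 := by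
  refine ⟨⟨a7a_pi (L := L) P, ?_, ?_⟩, rfl⟩
  · intro h
    apply h14
    rw [← alg_mem (L := L) (P := P) rfl, map_ofNat] at h
    rw [show (14 : 𝓞 M) = 7 * 2 by norm_num]
    exact P.asIdeal.mul_mem_left _ h
  · intro h
    apply h14
    rw [← alg_mem (L := L) (P := P) rfl, map_ofNat] at h
    rw [show (14 : 𝓞 M) = 2 * 7 by norm_num]
    exact P.asIdeal.mul_mem_left _ h

variable {D} (hD : Od2 D)
include hD

/-- **[RA2a]** the characters `P ↦ ∏_{u ∈ A} (π_u / P)` of `M` -/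
theorem exists_charS {n : HeightOneSpectrum (𝓞 L) → 𝓞 L} (hn : ∀ v : OQ L, NL v.1 (n v.1)) (A : Finset (OQ L))
    (hA : A.Nonempty) : ∃ X : Ideal (𝓞 M) →*₀ ℤ,
      (∀ (P : HeightOneSpectrum (𝓞 M)) (v : OQ L), a7a_pi (L := L) P = v.1 → v ∉ A → kL v = 0 →
        X P.asIdeal = if ∑ u ∈ A, wL n v u = 0 then 1 else -1) ∧
      (∀ (P : HeightOneSpectrum (𝓞 M)) (v : OQ L), a7a_pi (L := L) P = v.1 → v ∈ A → X P.asIdeal = 0) ∧
      (∀ (P : HeightOneSpectrum (𝓞 M)) (v : OQ L), a7a_pi (L := L) P = v.1 → kL v ≠ 0 → 0 ≤ X P.asIdeal) ∧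
      TRQ.CharMod M (∏ u ∈ A, absNorm u.1.asIdeal) X := by
  have := D.isTotallyComplex
  choose k hk hkn using fun u : OQ L => (hn u).1
  set K : ℕ := ∏ u ∈ A, k u with hKdef
  have hK : Odd K := Finset.prod_induction k Odd (fun a b ha hb => ha.mul hb) odd_one fun u _ => hk u
  have hkl : ∀ u ∈ A, k u * (K / k u) = K := fun u hu => Nat.mul_div_cancel' (Finset.dvd_prod_of_mem k hu)
  have hl : ∀ u ∈ A, Odd (K / k u) := by
    intro u hu
    have h1 := hK
    rw [← hkl u hu] at h1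
    exact (Nat.odd_mul.1 h1).2
  set δ : 𝓞 L := ∏ u ∈ A, n u.1 ^ (K / k u) with hδ
  have hdy : dy δ 1 := ra_dy_prod A _ fun u _ => ra_dy_pow (hn u).2 _
  have hspan : span {δ} = ∏ u ∈ A, u.1.asIdeal ^ K := by
    rw [hδ, ← Ideal.prod_span_singleton]
    refine Finset.prod_congr rfl fun u hu => ?_
    rw [← Ideal.span_singleton_pow, hkn u, ← pow_mul, hkl u hu]
  set m : ℕ := ∏ u ∈ A, absNorm u.1.asIdeal with hm
  have hm0 : 0 < m := by
    rw [hm]
    refine Finset.prod_pos fun u _ => Nat.pos_of_ne_zero ?_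
    rw [Ne, Ideal.absNorm_eq_zero_iff]
    exact u.1.ne_bot
  have hmM : (m : 𝓞 M) ≠ 0 := by exact_mod_cast hm0.ne'
  have hmP : ∀ P : HeightOneSpectrum (𝓞 M), (∃ u ∈ A, a7a_pi (L := L) P = u.1) → (m : 𝓞 M) ∈ P.asIdeal := by
    rintro P ⟨u, hu, hPu⟩
    have h1 : algebraMap (𝓞 L) (𝓞 M) (m : 𝓞 L) ∈ P.asIdeal := by
      rw [alg_mem hPu, hm]
      push_cast
      rw [← Finset.mul_prod_erase A _ hu]
      exact u.1.asIdeal.mul_mem_right _ (Ideal.absNorm_mem u.1.asIdeal)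
    rwa [map_natCast] at h1
  have hfin : {P : HeightOneSpectrum (𝓞 M) | ∃ u ∈ A, a7a_pi (L := L) P = u.1}.Finite :=
    (TRN.n7_fin M hmM).subset fun P hP => hmP P hP
  set SM : Finset (HeightOneSpectrum (𝓞 M)) := hfin.toFinset with hSMdef
  have hSM : ∀ P, P ∈ SM ↔ ∃ u ∈ A, a7a_pi (L := L) P = u.1 := fun P => by
    rw [hSMdef, Set.Finite.mem_toFinset, Set.mem_ofPred_eq]
  have h2 : ∀ P ∈ SM, (2 : 𝓞 M) ∉ P.asIdeal := by
    intro P hP
    obtain ⟨u, -, hPu⟩ := (hSM P).1 hP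
    exact two_above hPu u.2.1
  have hSne : SM.Nonempty := by
    obtain ⟨u, hu⟩ := hA
    obtain ⟨P, hP⟩ := ra_above D (ra_c7 u)
    exact ⟨P, (hSM P).2 ⟨u, hu, hP⟩⟩
  -- the ideal of `δ` in `M`
  have hmap : span {algebraMap (𝓞 L) (𝓞 M) δ} = ∏ P ∈ SM, P.asIdeal ^ K := by
    have h3 : span {algebraMap (𝓞 L) (𝓞 M) δ} = ∏ u ∈ A, (u.1.asIdeal.map (algebraMap (𝓞 L) (𝓞 M))) ^ K := by
      rw [← Set.image_singleton, ← Ideal.map_span, hspan]
      have h4 := map_prod (Ideal.mapHom (algebraMap (𝓞 L) (𝓞 M))) (fun u : OQ L => u.1.asIdeal ^ K) A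
      simp only [Ideal.mapHom_apply, Ideal.map_pow] at h4
      exact h4
    rw [h3]
    have h5 : SM = A.biUnion fun u => SM.filter fun P => a7a_pi (L := L) P = u.1 := by
      ext P
      rw [Finset.mem_biUnion]
      constructor
      · intro hP
        obtain ⟨u, hu, hPu⟩ := (hSM P).1 hP
        exact ⟨u, hu, Finset.mem_filter.2 ⟨hP, hPu⟩⟩
      · rintro ⟨u, -, hP⟩
        exact (Finset.mem_filter.1 hP).1
    rw [h5, Finset.prod_biUnion]
    · refine Finset.prod_congr rfl fun u hu => ?_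
      rw [ra_map D (ra_c7 u) (SM.filter fun P => a7a_pi (L := L) P = u.1), Finset.prod_pow]
      intro P
      rw [Finset.mem_filter]
      exact ⟨fun h => h.2, fun h => ⟨(hSM P).2 ⟨u, hu, h⟩, h⟩⟩
    · intro u _ w _ huw
      rw [Function.onFun, Finset.disjoint_left]
      intro P hP hP'
      exact huw (Subtype.ext ((Finset.mem_filter.1 hP).2.symm.trans (Finset.mem_filter.1 hP').2))
  obtain ⟨t, c, htc, hδtc⟩ := hdy
  rw [Units.val_one, one_mul] at hδtc
  set t' : 𝓞 M := algebraMap (𝓞 L) (𝓞 M) t with ht'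
  set c' : 𝓞 M := algebraMap (𝓞 L) (𝓞 M) c with hc'
  have hδ' : algebraMap (𝓞 L) (𝓞 M) δ = t' ^ 2 + 4 * c' := by
    rw [hδtc, map_add, map_pow, map_mul, map_ofNat]
  have hcop : IsCoprime (t' ^ 2 + 4 * c') 2 := by
    have h3 : IsCoprime t' 2 := by
      obtain ⟨a, b, hab⟩ := htc
      refine ⟨algebraMap (𝓞 L) (𝓞 M) a, algebraMap (𝓞 L) (𝓞 M) b, ?_⟩
      have h4 := congrArg (algebraMap (𝓞 L) (𝓞 M)) hab
      rw [map_add, map_mul, map_mul, map_ofNat, map_one] at h4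
      exact h4
    have h4 : IsCoprime (t' ^ 2) 2 := h3.pow_left
    have h5 : t' ^ 2 + 4 * c' = t' ^ 2 + 2 * (2 * c') := by ring
    rw [h5, IsCoprime.add_mul_left_left_iff]
    exact h4
  rw [hδ'] at hmap
  let G : 𝓞 M →* ℤ :=
    { toFun := fun x => ∏ P ∈ SM, TT.qr P x
      map_one' := Finset.prod_eq_one fun P _ => x_qr_one P
      map_mul' := fun a b => by
        rw [← Finset.prod_mul_distrib]
        exact Finset.prod_congr rfl fun P hP => TT.qr_mul P (h2 P hP) a b }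
  have hG : ∀ x, G x = ∏ P ∈ SM, TT.qr P x := fun _ => rfl
  have hu : ∀ u : (𝓞 M)ˣ, G u = 1 := by
    intro u
    have h1 := rec_unit D.hodd u (a := t' ^ 2 + 4 * c') rfl hcop
    rw [hmap, x_sy_prod, r1_pow_odd (x_prod_cases SM _) hK] at h1
    exact h1
  obtain ⟨lam, h1', hval⟩ := x_ext D G hu (x_prod_cases SM)
  have h1 : ∀ x : 𝓞 M, lam (span {x}) = ∏ P ∈ SM, TT.qr P x := by
    intro x
    by_cases hx : x = 0
    · obtain ⟨P, hP⟩ := hSne
      rw [hx, Ideal.span_singleton_zero, ← Ideal.zero_eq_bot, map_zero, Finset.prod_eq_zero hP]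
      rw [TT.qr_eq_zero]
      exact P.asIdeal.zero_mem
    · exact h1' x hx
  -- the values at the primes
  have hin : ∀ P ∈ SM, lam P.asIdeal = 0 := by
    intro P hP
    obtain ⟨α, hα⟩ := r2_class_gen P.asIdeal
    have h3 : lam P.asIdeal ^ classNumber M = 0 := by
      rw [← map_pow, hα, h1, Finset.prod_eq_zero hP]
      rw [TT.qr_eq_zero, ← Ideal.span_singleton_le_iff_mem, ← hα]
      exact Ideal.pow_le_self (classNumber_pos M).ne'
    exact pow_eq_zero_iff (classNumber_pos M).ne' |>.1 h3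
  have hout : ∀ P : HeightOneSpectrum (𝓞 M), (2 : 𝓞 M) ∉ P.asIdeal → algebraMap (𝓞 L) (𝓞 M) δ ∉ P.asIdeal →
      lam P.asIdeal = TT.qr P (algebraMap (𝓞 L) (𝓞 M) δ) := by
    intro P hP hδP
    obtain ⟨α, hα⟩ := r2_class_gen P.asIdeal
    rw [hδ'] at hδP ⊢
    have h3 := TRC.recC D.hodd hK hmap h2 P hδP D.hodd hα.symm
    rw [← h1, ← hα, map_pow, r1_pow_odd (hval _) D.hodd] at h3
    rw [h3, r2_chd_qr hP hδP]
  have hδv : ∀ v : OQ L, v ∉ A → δ ∉ v.1.asIdeal := by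
    intro v hv h3
    rw [← Ideal.span_singleton_le_iff_mem, hspan] at h3
    obtain ⟨u, hu, h4⟩ := (Ideal.IsPrime.prod_le v.1.isPrime).1 h3
    have h5 := u.1.isMaximal.eq_of_le v.1.isPrime.ne_top (v.1.isPrime.le_of_pow_le h4)
    have h6 : u = v := Subtype.ext (HeightOneSpectrum.ext h5)
    exact hv (h6 ▸ hu)
  refine ⟨lam, fun P v hPv hv hkv => ?_, fun P v hPv hv => hin P ((hSM P).2 ⟨v, hv, hPv⟩),
    fun P v hPv hkv => ?_, ⟨hm0, fun J => ra_abs_le (hval J), fun x z => ?_, ?_⟩⟩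
  · rw [hout P (two_above hPv v.2.1) (by rw [alg_mem hPv]; exact hδv v hv),
      qr_split_alg D hPv v.2.1 (ra_kL.1.1 hkv), hδ, ra_qr_prod v.2.1]
    have h3 : ∏ u ∈ A, TT.qr v.1 (n u.1 ^ (K / k u)) = TRQ.sy3_sg (∑ u ∈ A, wL n v u) := by
      rw [TRQ.sy3_sg_sum]
      refine Finset.prod_congr rfl fun u hu => ?_
      rw [ra_qr_pow v.2.1, r1_pow_odd (TT.qr_cases v.1 _) (hl u hu), ra_sg hn]
      rintro rfl
      exact hv hu
    rw [h3]
    rfl
  · by_cases hv : v ∈ A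
    · rw [hin P ((hSM P).2 ⟨v, hv, hPv⟩)]
    · rw [hout P (two_above hPv v.2.1) (by rw [alg_mem hPv]; exact hδv v hv),
        qr_inert_alg D hPv v.2.1 (ra_kL.2.1 hkv) (hδv v hv)]
      norm_num
  · rw [h1, h1]
    refine Finset.prod_congr rfl fun P hP => TT.qr_congr P ?_
    rw [add_sub_cancel_left]
    exact P.asIdeal.mul_mem_right _ (hmP P ((hSM P).1 hP))
  · obtain ⟨P₀, hP₀⟩ := hSne
    obtain ⟨g, h, hgh, hgP, hgR⟩ := ra_g (h2 P₀ hP₀) hmM
    refine ⟨g, h, hgh, ?_⟩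
    rw [h1, ← Finset.mul_prod_erase SM _ hP₀, hgP, Finset.prod_eq_one, mul_one]
    intro P hP
    have h3 : g - 1 ∈ P.asIdeal := by
      apply hgR _ ((Ideal.span_singleton_le_iff_mem _).2 (hmP P ((hSM P).1 (Finset.mem_of_mem_erase hP))))
      by_contra hcon
      have h3 := P.isMaximal.eq_of_le hcon le_sup_left
      have h4 : P₀.asIdeal ≤ P.asIdeal := by
        rw [h3]
        exact le_sup_right
      exact (Finset.mem_erase.1 hP).1 (HeightOneSpectrum.ext (P₀.isMaximal.eq_of_le P.isPrime.ne_top h4).symm)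
    rw [TT.qr_congr P h3, x_qr_one]

/-- [RA2a] the field `chrS` -/
theorem chrS_L {n : HeightOneSpectrum (𝓞 L) → 𝓞 L} (hn : ∀ v : OQ L, NL v.1 (n v.1)) : ∃ C : ℝ, 0 < C ∧
    ∀ A : Finset (OQ L), A.Nonempty → ∀ y : ℝ, 1 ≤ y →
    ∑ v ∈ ((BOQ L).pb y \ A).filter (fun v => kL v = 0), (if ∑ u ∈ A, wL n v u = 0 then (1 : ℝ) else -1) / (BOQ L).N v ≤
      Real.log (Real.log ((BOQ L).nS A + 3)) + C := by
  obtain ⟨C, hC, h⟩ := TRQ.sum_char_le M
  have h14 : (14 : 𝓞 M) ≠ 0 := by norm_num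
  set B14 : Finset (HeightOneSpectrum (𝓞 M)) := (TRN.n7_fin M h14).toFinset with hB14
  refine ⟨C + B14.card, by positivity, fun A hA y hy => ?_⟩
  obtain ⟨X, h1, h2, h3, h4⟩ := exists_charS hD hn A hA
  have hy0 : (0 : ℝ) ≤ y := by linarith
  have hmain := h _ X h4 y hy
  set T := TRN.prb M ⌊y⌋₊ with hT
  set f : HeightOneSpectrum (𝓞 M) → ℝ := fun P => (X P.asIdeal : ℝ) / absNorm P.asIdeal with hf
  set V := ((BOQ L).pb y \ A).filter (fun v => kL v = 0) with hV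
  set S : ℝ := ∑ v ∈ V, (if ∑ u ∈ A, wL n v u = 0 then (1 : ℝ) else -1) / (BOQ L).N v with hS
  have hXle : ∀ P : HeightOneSpectrum (𝓞 M), |(X P.asIdeal : ℝ)| ≤ 1 := fun P => by exact_mod_cast h4.le P.asIdeal
  have hN1 : ∀ P : HeightOneSpectrum (𝓞 M), (1 : ℝ) ≤ absNorm P.asIdeal := by
    intro P
    have h5 : absNorm P.asIdeal ≠ 0 := fun h => P.ne_bot (Ideal.absNorm_eq_zero_iff.1 h)
    exact_mod_cast Nat.one_le_iff_ne_zero.2 h5
  -- the split primes
  have hsplit : ∀ v ∈ V, ∑ P ∈ T.filter (fun P => a7a_pi (L := L) P = v.1), f P =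
      2 * ((if ∑ u ∈ A, wL n v u = 0 then (1 : ℝ) else -1) / (BOQ L).N v) := by
    intro v hv
    rw [hV, Finset.mem_filter, Finset.mem_sdiff, TRQ.Base.mem_pb] at hv
    obtain ⟨P, Q, hPQ, -, hR, hNP, hNQ⟩ := D.split v.1 v.2.2 (ra_kL.1.1 hv.2)
    have hP := a7a_pi_eq.2 ((hR P).2 (Or.inl rfl))
    have hQ := a7a_pi_eq.2 ((hR Q).2 (Or.inr rfl))
    have hNv : ((BOQ L).N v : ℝ) = absNorm v.1.asIdeal := rfl
    have hFe : T.filter (fun P => a7a_pi (L := L) P = v.1) = {P, Q} := by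
      ext R
      rw [Finset.mem_filter, a7a_pi_eq, hR, Finset.mem_insert, Finset.mem_singleton, hT, TRN.mem_prb]
      refine ⟨fun h => h.2, fun h => ⟨?_, h⟩⟩
      have h5 : absNorm R.asIdeal = absNorm v.1.asIdeal := by
        rcases h with rfl | rfl
        · exact hNP
        · exact hNQ
      rw [h5]
      exact Nat.le_floor hv.1.1
    rw [hFe, Finset.sum_pair hPQ, hf]
    dsimp only
    rw [h1 P v hP hv.1.2 hv.2, h1 Q v hQ hv.1.2 hv.2, hNP, hNQ, hNv]
    split_ifs <;> push_cast <;> ring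
  have hV2 : ∑ P ∈ V.biUnion (fun v => T.filter (fun P => a7a_pi (L := L) P = v.1)), f P = 2 * S := by
    rw [Finset.sum_biUnion, hS, Finset.mul_sum]
    · exact Finset.sum_congr rfl hsplit
    · intro u _ w _ huw
      rw [Function.onFun, Finset.disjoint_left]
      intro P hP hP'
      exact huw (Subtype.ext ((Finset.mem_filter.1 hP).2.symm.trans (Finset.mem_filter.1 hP').2))
  have hsub : V.biUnion (fun v => T.filter (fun P => a7a_pi (L := L) P = v.1)) ⊆ T := by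
    intro P hP
    obtain ⟨v, -, hv⟩ := Finset.mem_biUnion.1 hP
    exact (Finset.mem_filter.1 hv).1
  -- the other primes
  have hrest : ∀ P ∈ T \ V.biUnion (fun v => T.filter (fun P => a7a_pi (L := L) P = v.1)),
      -(if P ∈ B14 then (1 : ℝ) else 0) ≤ f P := by
    intro P hP
    rw [Finset.mem_sdiff] at hP
    have hNP := hN1 P
    by_cases hPB : P ∈ B14
    · rw [if_pos hPB]
      have h5 := (abs_le.1 (hXle P)).1
      rw [hf]
      dsimp only
      rw [le_div_iff₀ (by linarith)]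
      linarith
    · rw [if_neg hPB, neg_zero]
      have h14' : (14 : 𝓞 M) ∉ P.asIdeal := by
        intro h
        apply hPB
        rw [hB14, Set.Finite.mem_toFinset]
        exact h
      obtain ⟨v, hv⟩ := ra_below (L := L) h14'
      have h6 : 0 ≤ X P.asIdeal := by
        by_cases hvA : v ∈ A
        · rw [h2 P v hv hvA]
        · by_cases hkv : kL v = 0
          · exfalso
            apply hP.2
            rw [Finset.mem_biUnion]
            refine ⟨v, ?_, Finset.mem_filter.2 ⟨hP.1, hv⟩⟩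
            rw [hV, Finset.mem_filter, Finset.mem_sdiff, TRQ.Base.mem_pb]
            have h9 : absNorm P.asIdeal ≤ ⌊y⌋₊ := (TRN.mem_prb M).1 hP.1
            rw [Nat.le_floor_iff hy0, ra_norm_above D hkv hv] at h9
            exact ⟨⟨h9, hvA⟩, hkv⟩
          · exact h3 P v hv hkv
      exact div_nonneg (by exact_mod_cast h6) (by linarith)
  have hsum : -(B14.card : ℝ) ≤ ∑ P ∈ T \ V.biUnion (fun v => T.filter (fun P => a7a_pi (L := L) P = v.1)), f P := by
    refine le_trans ?_ (Finset.sum_le_sum hrest)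
    rw [Finset.sum_neg_distrib, neg_le_neg_iff, Finset.sum_ite_mem, Finset.sum_const, nsmul_eq_mul, mul_one]
    exact_mod_cast Finset.card_le_card Finset.inter_subset_right
  have htot := Finset.sum_sdiff (f := f) hsub
  have hll : 0 ≤ Real.log (Real.log ((BOQ L).nS A + 3)) := by
    apply Real.log_nonneg
    rw [Real.le_log_iff_exp_le (by positivity)]
    have h5 := Real.exp_one_lt_d9
    have h6 : (0 : ℝ) ≤ ((BOQ L).nS A : ℝ) := Nat.cast_nonneg _
    linarith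
  have e5 : (∏ u ∈ A, absNorm u.1.asIdeal : ℕ) = (BOQ L).nS A := rfl
  rw [e5] at hmain
  have hBc : (0 : ℝ) ≤ B14.card := Nat.cast_nonneg _
  linarith

end

end TRP
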