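import Pool.Agent.TRP.NF
import Pool.Agent.TRP.FamD
import Pool.Agent.TRP.Defs3
import Pool.Agent.TRQ.Defs

/-! # [ALLP] all curves with `j = -3375` over a number field of odd class number -/

set_option autoImplicit false

open NumberField Ideal IsDedekindDomain
open scoped Real Classical
open TR TRG TTS TU TT XTB

namespace TRP

section
variable {F : Type} [Field F] [NumberField F]

/-- elements with even valuations: finitely many classes -/
theorem le_fin0 (hodd : Odd (classNumber F)) : ∃ R : Finset F, ∀ e : F, e ≠ 0 →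
    (∀ v : HeightOneSpectrum (𝓞 F), IsSquare (v.valuation F e)) → ∃ r ∈ R, ∃ y : F, y ≠ 0 ∧ e = y ^ 2 * r := by
  have hcard := card_units_quot F
  have hfin : Finite ((𝓞 F)ˣ ⧸ (powMonoidHom 2 : (𝓞 F)ˣ →* (𝓞 F)ˣ).range) := by
    refine Nat.finite_of_card_ne_zero ?_
    rw [hcard]
    positivity
  have := Fintype.ofFinite ((𝓞 F)ˣ ⧸ (powMonoidHom 2 : (𝓞 F)ˣ →* (𝓞 F)ˣ).range)
  refine ⟨(Finset.univ : Finset ((𝓞 F)ˣ ⧸ (powMonoidHom 2 : (𝓞 F)ˣ →* (𝓞 F)ˣ).range)).image
    fun q => (((Quotient.out q : (𝓞 F)ˣ) : 𝓞 F) : F), fun e he h => ?_⟩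
  obtain ⟨u, s, hs, hus⟩ := b3_even hodd e he h
  refine ⟨_, Finset.mem_image_of_mem _ (Finset.mem_univ (QuotientGroup.mk u)), ?_⟩
  obtain ⟨w, hw⟩ : ∃ w : (𝓞 F)ˣ, u = Quotient.out (QuotientGroup.mk u :
      (𝓞 F)ˣ ⧸ (powMonoidHom 2 : (𝓞 F)ˣ →* (𝓞 F)ˣ).range) * w ^ 2 := by
    have h1 : (QuotientGroup.mk (Quotient.out (QuotientGroup.mk u :
        (𝓞 F)ˣ ⧸ (powMonoidHom 2 : (𝓞 F)ˣ →* (𝓞 F)ˣ).range)) :
          (𝓞 F)ˣ ⧸ (powMonoidHom 2 : (𝓞 F)ˣ →* (𝓞 F)ˣ).range) = QuotientGroup.mk u := Quotient.out_eq _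
    rw [QuotientGroup.eq] at h1
    obtain ⟨w, hw⟩ := h1
    refine ⟨w, ?_⟩
    have hw' : w ^ 2 = (Quotient.out (QuotientGroup.mk u :
        (𝓞 F)ˣ ⧸ (powMonoidHom 2 : (𝓞 F)ˣ →* (𝓞 F)ˣ).range))⁻¹ * u := hw
    rw [hw', mul_inv_cancel_left]
  refine ⟨((w : 𝓞 F) : F) * s, mul_ne_zero ?_ hs, ?_⟩
  · rw [Ne, RingOfIntegers.coe_eq_zero_iff]
    exact w.ne_zero
  · have h2 : ((u : 𝓞 F) : F) = (((Quotient.out (QuotientGroup.mk u :
        (𝓞 F)ˣ ⧸ (powMonoidHom 2 : (𝓞 F)ˣ →* (𝓞 F)ˣ).range) : (𝓞 F)ˣ) : 𝓞 F) : F) * ((w : 𝓞 F) : F) ^ 2 := by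
      conv_lhs => rw [hw]
      push_cast
      rfl
    rw [hus, h2]
    ring

/-- the product of two elements of odd valuation -/
theorem le_odd_mul {x y : WithZero (Multiplicative ℤ)} (hx0 : x ≠ 0) (hy0 : y ≠ 0) (hx : ¬ IsSquare x) (hy : ¬ IsSquare y) :
    IsSquare (x * y) := by
  rw [s8d_sq_iff hx0, Int.not_even_iff_odd] at hx
  rw [s8d_sq_iff hy0, Int.not_even_iff_odd] at hy
  rw [s8d_sq_iff (mul_ne_zero hx0 hy0), WithZero.log_mul hx0 hy0]
  exact hx.add_odd hy

/-- elements with even valuations outside a finite set -/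
theorem le_fin (hodd : Odd (classNumber F)) (U : Finset (HeightOneSpectrum (𝓞 F))) : ∃ R : Finset F, ∀ e : F, e ≠ 0 →
    (∀ v : HeightOneSpectrum (𝓞 F), v ∉ U → IsSquare (v.valuation F e)) → ∃ r ∈ R, ∃ y : F, y ≠ 0 ∧ e = y ^ 2 * r := by
  obtain ⟨R0, hR0⟩ := le_fin0 hodd
  set Q : Finset (HeightOneSpectrum (𝓞 F)) → F → Prop := fun T a => a ≠ 0 ∧ ∀ v : HeightOneSpectrum (𝓞 F),
    IsSquare (v.valuation F a) ↔ v ∉ T with hQ
  set A : Finset (HeightOneSpectrum (𝓞 F)) → F := fun T => if h : ∃ a, Q T a then h.choose else 1 with hA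
  refine ⟨(U.powerset ×ˢ R0).image fun p => p.2 * A p.1, fun e he h => ?_⟩
  set T := U.filter fun v => ¬ IsSquare (v.valuation F e) with hT
  have hex : ∃ a, Q T a := by
    refine ⟨e, he, fun v => ?_⟩
    rw [hT, Finset.mem_filter]
    constructor
    · rintro h1 ⟨-, h2⟩
      exact h2 h1
    · intro h1
      by_contra h2
      exact h1 ⟨by_contra fun h3 => h2 (h v h3), h2⟩
  have hAT : Q T (A T) := by
    rw [hA]
    dsimp only
    rw [dif_pos hex]
    exact hex.choose_spec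
  obtain ⟨r, hr, y, hy, hey⟩ := hR0 (e * A T) (mul_ne_zero he hAT.1) (fun v => by
    rw [map_mul]
    by_cases hv : v ∈ T
    · refine le_odd_mul ((map_ne_zero _).2 he) ((map_ne_zero _).2 hAT.1) ?_ ?_
      · exact (Finset.mem_filter.1 hv).2
      · exact fun h1 => (hAT.2 v).1 h1 hv
    · refine IsSquare.mul ?_ ((hAT.2 v).2 hv)
      by_contra h1
      apply hv
      rw [hT, Finset.mem_filter]
      exact ⟨by_contra fun h3 => h1 (h v h3), h1⟩)
  refine ⟨r * A T, Finset.mem_image_of_mem (fun p : Finset (HeightOneSpectrum (𝓞 F)) × F => p.2 * A p.1) (a := (T, r))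
    (Finset.mem_product.2 ⟨Finset.mem_powerset.2 (Finset.filter_subset _ _), hr⟩), y / A T,
    div_ne_zero hy hAT.1, ?_⟩
  have h0 := hAT.1
  field_simp
  linear_combination hey

theorem le_good_iff {d : F} (hd : d ≠ 0) (C : WeierstrassCurve.VariableChange F) {v : HeightOneSpectrum (𝓞 F)}
    (h2 : (2 : 𝓞 F) ∉ v.asIdeal) (h7 : (7 : 𝓞 F) ∉ v.asIdeal) :
    XTS.GoodReduction (C • Ws d) v ↔ IsSquare (v.valuation F d) := by
  constructor
  · intro hg
    obtain ⟨C1, hC1⟩ := Wd_eq_Ws d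
    have e : C • Ws d = (C * C1⁻¹) • Wd d := by
      rw [hC1, mul_smul, inv_smul_smul]
    rw [e] at hg
    exact (ur_of_good h7 hd hg).val
  · intro h
    exact TRH.h2_good h7 ((ur_iff_val h2 hd).2 h) C

/-- the bad primes are finite in number -/
theorem le_bad_fin {d : F} (hd : d ≠ 0) (C : WeierstrassCurve.VariableChange F) :
    {v : HeightOneSpectrum (𝓞 F) | ¬ XTS.GoodReduction (C • Ws d) v}.Finite := by
  have h14 : ((14 : 𝓞 F) : F) ≠ 0 := by
    rw [Ne, RingOfIntegers.coe_eq_zero_iff]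
    norm_num
  refine ((TRH.h2_finite hd).union (TRH.h2_finite h14)).subset fun v hv => ?_
  by_contra hcon
  rw [Set.mem_union, not_or] at hcon
  obtain ⟨hc1, hc2⟩ := hcon
  have h1 : v.valuation F d = 1 := not_not.1 hc1
  have h3 : v.valuation F ((14 : 𝓞 F) : F) = 1 := not_not.1 hc2
  have h4 : (14 : 𝓞 F) ∉ v.asIdeal := by
    intro h5
    have h6 := (HeightOneSpectrum.valuation_lt_one_iff_mem (K := F) v (14 : 𝓞 F)).2 h5
    exact absurd h3 (ne_of_lt h6)
  have h2 : (2 : 𝓞 F) ∉ v.asIdeal := fun h => h4 (by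
    have e : (14 : 𝓞 F) = 7 * 2 := by norm_num
    rw [e]
    exact Ideal.mul_mem_left _ _ h)
  have h7 : (7 : 𝓞 F) ∉ v.asIdeal := fun h => h4 (by
    have e : (14 : 𝓞 F) = 2 * 7 := by norm_num
    rw [e]
    exact Ideal.mul_mem_left _ _ h)
  exact hv ((le_good_iff hd C h2 h7).2 (by rw [h1]; exact ⟨1, by rw [mul_one]⟩))

/-- **all curves** -/
theorem all_le_F (hodd : Odd (classNumber F)) : ∃ K : ℕ, ∀ (X : ℕ) (SB : Finset (Finset (OQ F))),
    (∀ S : Finset (OQ F), ∏ v ∈ S, absNorm v.1.asIdeal ≤ X → S ∈ SB) →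
    (cmFamily F X fun _ => True).Finite ∧ (cmFamily F X fun _ => True).ncard ≤ K * SB.card := by
  have h14 : ((14 : 𝓞 F) : F) ≠ 0 := by
    rw [Ne, RingOfIntegers.coe_eq_zero_iff]
    norm_num
  obtain ⟨R, hR⟩ := le_fin hodd (TRH.h2_finite h14).toFinset
  -- a base element for each set
  set Q : Finset (OQ F) → F → Prop := fun S a => a ≠ 0 ∧ ∀ v : OQ F, v ∈ S ↔ ¬ IsSquare (v.1.valuation F a) with hQ
  set A : Finset (OQ F) → F := fun S => if h : ∃ a, Q S a then h.choose else 1 with hA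
  refine ⟨R.card, fun X SB hSB => ?_⟩
  set f : Finset (OQ F) × F → MulAction.orbitRel.Quotient (WeierstrassCurve.VariableChange F) (WeierstrassCurve F) :=
    fun p => Quotient.mk _ (Ws (p.2 * A p.1)) with hf
  have hsub : (cmFamily F X fun _ => True) ⊆ ((SB ×ˢ R).image f : Finset _) := by
    rintro c ⟨E, rfl, ⟨hell, hj⟩, hX, -⟩
    obtain ⟨d, C, C', hd, hC, -⟩ := exists_Ws E hj
    have hbad := le_bad_fin hd C
    rw [← hC] at hbad
    -- the set of the bad primes not above `14`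
    have hSfin : {v : OQ F | ¬ IsSquare (v.1.valuation F d)}.Finite := by
      refine (hbad.preimage (f := Subtype.val) Subtype.val_injective.injOn).subset fun v hv => ?_
      show ¬ XTS.GoodReduction E v.1
      rw [hC, le_good_iff hd C v.2.1 v.2.2]
      exact hv
    set S : Finset (OQ F) := hSfin.toFinset with hS
    have hmem : ∀ v : OQ F, v ∈ S ↔ ¬ IsSquare (v.1.valuation F d) := fun v => by
      rw [hS, Set.Finite.mem_toFinset]
      rfl
    have hprod : ∏ v ∈ S, absNorm v.1.asIdeal ≤ X := by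
      refine le_trans ?_ hX
      unfold badProd
      have e1 : (∏ᶠ P : {P : HeightOneSpectrum (𝓞 F) // ¬ XTS.GoodReduction E P}, absNorm P.1.asIdeal) =
          ∏ P ∈ hbad.toFinset, absNorm P.asIdeal := by
        rw [← finprod_mem_eq_finite_toFinset_prod (fun P : HeightOneSpectrum (𝓞 F) => absNorm P.asIdeal) hbad]
        exact finprod_set_coe_eq_finprod_mem (f := fun P : HeightOneSpectrum (𝓞 F) => absNorm P.asIdeal)
          {P : HeightOneSpectrum (𝓞 F) | ¬ XTS.GoodReduction E P}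
      rw [e1]
      have e2 : ∏ v ∈ S, absNorm v.1.asIdeal = ∏ P ∈ S.map ⟨Subtype.val, Subtype.val_injective⟩, absNorm P.asIdeal := by
        rw [Finset.prod_map]
        rfl
      rw [e2]
      refine Finset.prod_le_prod_of_subset_of_one_le' ?_ fun P _ _ => ?_
      · intro P hP
        obtain ⟨v, hv, rfl⟩ := Finset.mem_map.1 hP
        rw [Set.Finite.mem_toFinset]
        show ¬ XTS.GoodReduction E v.1
        rw [hC, le_good_iff hd C v.2.1 v.2.2]
        exact (hmem v).1 hv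
      · exact Nat.one_le_iff_ne_zero.2 (absNorm_pos P.ne_bot).ne'
    have hex : ∃ a, Q S a := ⟨d, hd, hmem⟩
    have hAS : Q S (A S) := by
      rw [hA]
      dsimp only
      rw [dif_pos hex]
      exact hex.choose_spec
    obtain ⟨r, hr, y, hy, hey⟩ := hR (d * A S) (mul_ne_zero hd hAS.1) (fun v hv => by
      have h3 : v.valuation F ((14 : 𝓞 F) : F) = 1 := by
        by_contra h
        apply hv
        rw [Set.Finite.mem_toFinset]
        exact h
      have h4 : (14 : 𝓞 F) ∉ v.asIdeal := by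
        intro h5
        have h6 := (HeightOneSpectrum.valuation_lt_one_iff_mem (K := F) v (14 : 𝓞 F)).2 h5
        exact absurd h3 (ne_of_lt h6)
      have h2 : (2 : 𝓞 F) ∉ v.asIdeal := fun h => h4 (by
        have e : (14 : 𝓞 F) = 7 * 2 := by norm_num
        rw [e]
        exact Ideal.mul_mem_left _ _ h)
      have h7 : (7 : 𝓞 F) ∉ v.asIdeal := fun h => h4 (by
        have e : (14 : 𝓞 F) = 2 * 7 := by norm_num
        rw [e]
        exact Ideal.mul_mem_left _ _ h)
      rw [map_mul]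
      have k1 := hmem ⟨v, h2, h7⟩
      have k2 := hAS.2 ⟨v, h2, h7⟩
      by_cases hvS : (⟨v, h2, h7⟩ : OQ F) ∈ S
      · exact le_odd_mul ((map_ne_zero _).2 hd) ((map_ne_zero _).2 hAS.1) (k1.1 hvS) (k2.1 hvS)
      · exact (not_not.1 fun h => hvS (k1.2 h)).mul (not_not.1 fun h => hvS (k2.2 h)))
    rw [Finset.mem_coe, Finset.mem_image]
    refine ⟨(S, r), Finset.mem_product.2 ⟨hSB S hprod, hr⟩, ?_⟩
    show Quotient.mk _ (Ws (r * A S)) = Quotient.mk _ E
    have hrA : r * A S ≠ 0 := by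
      refine mul_ne_zero ?_ hAS.1
      rintro rfl
      rw [mul_zero] at hey
      exact mul_ne_zero hd hAS.1 hey
    obtain ⟨C2, hC2⟩ := (ws_iso_iff (d := r * A S) hd).2 ⟨y / A S, div_ne_zero hy hAS.1, by
      have h0 := hAS.1
      field_simp
      linear_combination hey⟩
    refine Eq.symm (Quotient.sound ?_)
    show MulAction.orbitRel (WeierstrassCurve.VariableChange F) (WeierstrassCurve F) E (Ws (r * A S))
    rw [MulAction.orbitRel_apply]
    exact ⟨C * C2, by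
      show (C * C2) • Ws (r * A S) = E
      rw [mul_smul, ← hC2, ← hC]⟩
  have hfin : (cmFamily F X fun _ => True).Finite := (Finset.finite_toSet _).subset hsub
  refine ⟨hfin, (Set.ncard_le_ncard hsub (Finset.finite_toSet _)).trans ?_⟩
  rw [Set.ncard_coe_finset]
  refine Finset.card_image_le.trans ?_
  rw [Finset.card_product, mul_comm]

end

section
variable {L M : Type} [Field L] [NumberField L] [Field M] [NumberField M] [Algebra L M]
  [IsTotallyReal L] {D : Dat L M}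

/-- [RA3b] all curves over `L` -/
theorem all_le_L (_hD : Od2 D) {B : TRQ.Base (OQ L)} (hB : B.N = fun v => absNorm v.1.asIdeal) :
    ∃ K : ℕ, ∀ X : ℕ, (cmFamily L X fun _ => True).Finite ∧
      (cmFamily L X fun _ => True).ncard ≤ K * (B.sb (X : ℝ)).card := by
  obtain ⟨K, hK⟩ := all_le_F (F := L) D.odd_classNumber
  refine ⟨K, fun X => hK X (B.sb (X : ℝ)) fun S hS => ?_⟩
  rw [B.mem_sb]
  have e : B.nS S = ∏ v ∈ S, absNorm v.1.asIdeal := by
    unfold TRQ.Base.nS
    rw [hB]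
  rw [e]
  exact_mod_cast hS

omit [IsTotallyReal L] in
/-- [P1] all curves over `M` -/
theorem all_le' (_hD : Od2 D) {B : TRQ.Base (OP M)} (hB : B.N = fun v => absNorm v.1.asIdeal) :
    ∃ K : ℕ, ∀ X : ℕ, (cmFamily M X fun _ => True).Finite ∧
      (cmFamily M X fun _ => True).ncard ≤ K * (B.sb (X : ℝ)).card := by
  obtain ⟨K, hK⟩ := all_le_F (F := M) D.hodd
  refine ⟨K, fun X => ?_⟩
  let em : OQ M ↪ OP M := ⟨fun v => ⟨v.1, v.2.1⟩, fun v w h => Subtype.ext (congrArg (fun x : OP M => x.1) h)⟩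
  obtain ⟨h1, h2⟩ := hK X ((B.sb (X : ℝ)).image fun T => T.preimage em em.injective.injOn) fun S hS => by
    rw [Finset.mem_image]
    refine ⟨S.map em, ?_, ?_⟩
    · rw [B.mem_sb]
      have e : B.nS (S.map em) = ∏ v ∈ S, absNorm v.1.asIdeal := by
        unfold TRQ.Base.nS
        rw [hB, Finset.prod_map]
        rfl
      rw [e]
      exact_mod_cast hS
    · ext v
      rw [Finset.mem_preimage, Finset.mem_map' em]
  exact ⟨h1, h2.trans (Nat.mul_le_mul_left _ Finset.card_image_le)⟩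

end

end TRP
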