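import Pool.Agent.TRP.RDefs
import Pool.Agent.TRP.Defs3
import Pool.Agent.TRG.U4
import Pool.Agent.TRG.AS6

/-! # [ALLP-RA1b] reciprocity over the totally real field for generators which are squares modulo `4`, with signs -/

set_option autoImplicit false

open NumberField Ideal IsDedekindDomain Filter Topology
open scoped Real Classical ComplexConjugate
open TR TRG TTS TU TT TRPR

namespace TRP

/-- products of signs -/
theorem rb_theta {ι : Type} (s : Finset ι) (f : ι → ℤ) (h : ∀ i ∈ s, f i = 1 ∨ f i = -1) :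
    (∏ i ∈ s, f i = 1 ∨ ∏ i ∈ s, f i = -1) ∧
      (if ∏ i ∈ s, f i = -1 then (1 : ZMod 2) else 0) = ∑ i ∈ s, if f i = -1 then (1 : ZMod 2) else 0 := by
  induction s using Finset.induction_on with
  | empty => simp
  | insert i s hi ih =>
    obtain ⟨h1, h2⟩ := ih fun j hj => h j (Finset.mem_insert_of_mem hj)
    rw [Finset.prod_insert hi, Finset.sum_insert hi, ← h2]
    rcases h i (Finset.mem_insert_self i s) with h3 | h3 <;> rcases h1 with h4 | h4 <;> rw [h3, h4]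
    · simp
    · simp
    · simp
    · refine ⟨Or.inl (by norm_num), ?_⟩
      norm_num
      decide

section
variable {L M : Type} [Field L] [NumberField L] [Field M] [NumberField M] [Algebra L M]
  [IsTotallyReal L] (D : Dat L M)

include D

/-- a unit which is negative exactly at one place -/
theorem rb_unit (j₀ : L →+* ℝ) : ∃ e : (𝓞 L)ˣ, j₀ ((e : 𝓞 L) : L) < 0 ∧
    ∀ j : L →+* ℝ, j ≠ j₀ → 0 < j ((e : 𝓞 L) : L) := by
  obtain ⟨e, he⟩ := u4_surj D (fun j => if j = j₀ then -1 else 1)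
  refine ⟨e, ?_, fun j hj => ?_⟩
  · have h1 : u4_sgn (j₀ ((e : 𝓞 L) : L)) = -1 := by
      have h2 : u4_hom L e j₀ = -1 := by rw [he]; exact if_pos rfl
      exact h2
    rcases lt_or_gt_of_ne (u4_ne j₀ e.ne_zero) with h | h
    · exact h
    · rw [u4_sgn_pos h] at h1
      exact absurd h1 (by decide)
  · have h1 : u4_sgn (j ((e : 𝓞 L) : L)) = 1 := by
      have h2 : u4_hom L e j = 1 := by rw [he]; exact if_neg hj
      exact h2
    exact u4_pos_of_sgn h1

/-- the product of the signs of `e` at the places where `d` is negative -/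
noncomputable def rho {g : ℕ} (r : Fin g ≃ (L →+* ℝ)) (d e : 𝓞 L) : ℤ :=
  ∏ i : Fin g, if r i (d : L) < 0 then (u4_sgn (r i (e : L)) : ℤ) else 1

omit D [NumberField L] [IsTotallyReal L] in
theorem rho_mul {g : ℕ} (r : Fin g ≃ (L →+* ℝ)) (d : 𝓞 L) {e f : 𝓞 L} (he : e ≠ 0) (hf : f ≠ 0) :
    rho r d (e * f) = rho r d e * rho r d f := by
  unfold rho
  rw [← Finset.prod_mul_distrib]
  refine Finset.prod_congr rfl fun i _ => ?_
  split_ifs with h
  · rw [show ((e * f : 𝓞 L) : L) = (e : L) * (f : L) from rfl, map_mul, u4_sgn_mul (u4_ne _ he) (u4_ne _ hf)]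
    rfl
  · rw [one_mul]

omit D [NumberField L] [IsTotallyReal L] in
theorem rho_sq {g : ℕ} (r : Fin g ≃ (L →+* ℝ)) (d e : 𝓞 L) : rho r d e * rho r d e = 1 := by
  unfold rho
  rw [← Finset.prod_mul_distrib]
  refine Finset.prod_eq_one fun i _ => ?_
  split_ifs with h
  · rw [← Units.val_mul, Int.units_mul_self]
    rfl
  · rw [one_mul]

/-- the unit law for the units which are negative at one place -/
theorem rb_law_one {g : ℕ} (r : Fin g ≃ (L →+* ℝ)) {k : ℕ} {t c : 𝓞 L} {S : Finset (HeightOneSpectrum (𝓞 L))}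
    (hA : TRB.AdmG k t c S) (j₀ : L →+* ℝ) (e : (𝓞 L)ˣ) (he : j₀ ((e : 𝓞 L) : L) < 0)
    (he' : ∀ j : L →+* ℝ, j ≠ j₀ → 0 < j ((e : 𝓞 L) : L)) :
    ∏ w ∈ S, qr w (e : 𝓞 L) = rho r (t ^ 2 + 4 * c) (e : 𝓞 L) := by
  have hd0 := hA.ne
  have hN : 4 * (t ^ 2 + 4 * c) ≠ 0 := mul_ne_zero (by norm_num) hd0
  obtain ⟨F, hF⟩ := exists_frame_flip D.odd_classNumber hN
  obtain ⟨κ, hκ, hflip⟩ := hF j₀
  have h1 := as2_core hA rfl F e
  have hκ0 : κ ≠ 0 := by
    rintro rfl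
    norm_num at hκ
  have hone : ∀ j : L →+* ℝ, j ((1 : 𝓞 L) : L) = 1 := fun j => by
    rw [show ((1 : 𝓞 L) : L) = 1 from rfl, map_one]
  have h2 : F.U (e : 𝓞 L) = κ * F.U 1 := by
    refine hflip 1 e (fun j hj => ?_) ?_ he
    · rw [hone, one_mul]
      exact he' j hj
    · rw [hone]
      exact one_pos
  have hU1 := F.U_ne 1 one_ne_zero
  have hde0 : (t ^ 2 + 4 * c) * (e : 𝓞 L) ≠ 0 := mul_ne_zero hd0 e.ne_zero
  have hUde := F.U_ne _ hde0
  have hUd := F.U_ne _ hd0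
  have hmul : ∀ j : L →+* ℝ, j (((t ^ 2 + 4 * c) * (e : 𝓞 L) : 𝓞 L) : L) =
      j ((t ^ 2 + 4 * c : 𝓞 L) : L) * j ((e : 𝓞 L) : L) := fun j => by
    rw [show (((t ^ 2 + 4 * c) * (e : 𝓞 L) : 𝓞 L) : L) = ((t ^ 2 + 4 * c : 𝓞 L) : L) * ((e : 𝓞 L) : L) from rfl,
      map_mul]
  have hdj : ∀ j : L →+* ℝ, j ((t ^ 2 + 4 * c : 𝓞 L) : L) ≠ 0 := fun j => u4_ne j hd0
  -- the right hand side
  have hrho : rho r (t ^ 2 + 4 * c) (e : 𝓞 L) = if j₀ ((t ^ 2 + 4 * c : 𝓞 L) : L) < 0 then -1 else 1 := by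
    unfold rho
    rw [Finset.prod_eq_single (r.symm j₀)]
    · rw [r.apply_symm_apply, u4_sgn_neg he]
      rfl
    · intro i _ hi
      have h3 : r i ≠ j₀ := by
        intro h
        apply hi
        rw [← h, r.symm_apply_apply]
      rw [u4_sgn_pos (he' _ h3)]
      split_ifs <;> rfl
    · intro h
      exact absurd (Finset.mem_univ _) h
  rw [hrho]
  rcases lt_or_gt_of_ne (hdj j₀) with hneg | hpos
  · rw [if_pos hneg]
    have h3 : F.U (t ^ 2 + 4 * c) = κ * F.U ((t ^ 2 + 4 * c) * (e : 𝓞 L)) := by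
      refine hflip _ _ (fun j hj => ?_) ?_ hneg
      · rw [hmul, mul_right_comm]
        exact mul_pos (mul_self_pos.2 (hdj j)) (he' j hj)
      · rw [hmul]
        exact mul_pos_of_neg_of_neg hneg he
    rw [h2, h3] at h1
    have h4 : (((∏ w ∈ S, qr w (e : 𝓞 L) : ℤ) : ℂ) + 1) * (F.U ((t ^ 2 + 4 * c) * (e : 𝓞 L)) * F.U 1) = 0 := by
      linear_combination h1 + (((∏ w ∈ S, qr w (e : 𝓞 L) : ℤ) : ℂ)) *
        (F.U ((t ^ 2 + 4 * c) * (e : 𝓞 L)) * F.U 1) * hκ
    have h5 := (mul_eq_zero.1 h4).resolve_right (mul_ne_zero hUde hU1)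
    have h6 : ((∏ w ∈ S, qr w (e : 𝓞 L) : ℤ) : ℂ) = ((-1 : ℤ) : ℂ) := by
      push_cast at h5 ⊢
      linear_combination h5
    exact_mod_cast h6
  · rw [if_neg (not_lt.2 hpos.le)]
    have h3 : F.U ((t ^ 2 + 4 * c) * (e : 𝓞 L)) = κ * F.U (t ^ 2 + 4 * c) := by
      refine hflip _ _ (fun j hj => ?_) hpos ?_
      · rw [hmul, ← mul_assoc]
        exact mul_pos (mul_self_pos.2 (hdj j)) (he' j hj)
      · rw [hmul]
        exact mul_neg_of_pos_of_neg hpos he
    rw [h2, h3] at h1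
    have h4 : (1 - ((∏ w ∈ S, qr w (e : 𝓞 L) : ℤ) : ℂ)) * (κ * (F.U (t ^ 2 + 4 * c) * F.U 1)) = 0 := by
      linear_combination h1
    have h5 := (mul_eq_zero.1 h4).resolve_right (mul_ne_zero hκ0 (mul_ne_zero hUd hU1))
    have h6 : ((∏ w ∈ S, qr w (e : 𝓞 L) : ℤ) : ℂ) = ((1 : ℤ) : ℂ) := by
      push_cast at h5 ⊢
      linear_combination -h5
    exact_mod_cast h6

/-- the unit law -/
theorem rb_law {g : ℕ} (r : Fin g ≃ (L →+* ℝ)) {k : ℕ} {t c : 𝓞 L} {S : Finset (HeightOneSpectrum (𝓞 L))}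
    (hA : TRB.AdmG k t c S) (e : (𝓞 L)ˣ) :
    ∏ w ∈ S, qr w (e : 𝓞 L) = rho r (t ^ 2 + 4 * c) (e : 𝓞 L) := by
  have hmain : ∀ (n : ℕ) (e : (𝓞 L)ˣ), (Finset.univ.filter fun i : Fin g => r i ((e : 𝓞 L) : L) < 0).card = n →
      ∏ w ∈ S, qr w (e : 𝓞 L) = rho r (t ^ 2 + 4 * c) (e : 𝓞 L) := by
    intro n
    induction n with
    | zero =>
      intro e he
      have hpos : ∀ j : L →+* ℝ, 0 < j ((e : 𝓞 L) : L) := by
        intro j
        by_contra hj
        have h1 : j ((e : 𝓞 L) : L) < 0 := lt_of_le_of_ne (not_lt.1 hj) (u4_ne j e.ne_zero)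
        have h2 : r.symm j ∈ Finset.univ.filter fun i : Fin g => r i ((e : 𝓞 L) : L) < 0 := by
          rw [Finset.mem_filter, r.apply_symm_apply]
          exact ⟨Finset.mem_univ _, h1⟩
        rw [Finset.card_eq_zero.1 he] at h2
        exact absurd h2 (Finset.notMem_empty _)
      obtain ⟨v, rfl⟩ := unit_tp D e hpos
      have e1 : ((v ^ 2 : (𝓞 L)ˣ) : 𝓞 L) = (v : 𝓞 L) * (v : 𝓞 L) := by rw [Units.val_pow_eq_pow_val, sq]
      rw [e1, rho_mul r _ v.ne_zero v.ne_zero, rho_sq]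
      have e2 : ∏ w ∈ S, qr w ((v : 𝓞 L) * (v : 𝓞 L)) = (∏ w ∈ S, qr w (v : 𝓞 L)) * ∏ w ∈ S, qr w (v : 𝓞 L) := by
        rw [← Finset.prod_mul_distrib]
        exact Finset.prod_congr rfl fun w hw => qr_mul w (hA.two w hw) _ _
      rw [e2]
      rcases as2_cases hA.two v with h | h <;> rw [h] <;> norm_num
    | succ n ih =>
      intro e he
      have hne : (Finset.univ.filter fun i : Fin g => r i ((e : 𝓞 L) : L) < 0).Nonempty := by
        rw [← Finset.card_pos, he]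
        omega
      obtain ⟨i₀, hi₀⟩ := hne
      have hi₁ := (Finset.mem_filter.1 hi₀).2
      obtain ⟨e₀, h0, h0'⟩ := rb_unit D (r i₀)
      have hmul : ∀ j : L →+* ℝ, j (((e₀ * e : (𝓞 L)ˣ) : 𝓞 L) : L) =
          j ((e₀ : 𝓞 L) : L) * j ((e : 𝓞 L) : L) := fun j => by
        rw [show (((e₀ * e : (𝓞 L)ˣ) : 𝓞 L) : L) = ((e₀ : 𝓞 L) : L) * ((e : 𝓞 L) : L) from by
          rw [Units.val_mul]; rfl, map_mul]
      have hcard : (Finset.univ.filter fun i : Fin g => r i (((e₀ * e : (𝓞 L)ˣ) : 𝓞 L) : L) < 0).card = n := by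
        have h1 : (Finset.univ.filter fun i : Fin g => r i (((e₀ * e : (𝓞 L)ˣ) : 𝓞 L) : L) < 0) =
            (Finset.univ.filter fun i : Fin g => r i ((e : 𝓞 L) : L) < 0).erase i₀ := by
          ext i
          rw [Finset.mem_erase, Finset.mem_filter, Finset.mem_filter, hmul]
          by_cases hi : i = i₀
          · subst hi
            constructor
            · intro h
              exact absurd h.2 (not_lt.2 (mul_pos_of_neg_of_neg h0 hi₁).le)
            · intro h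
              exact absurd rfl h.1
          · have h2 := h0' (r i) (fun h => hi (r.injective h))
            constructor
            · intro h
              exact ⟨hi, Finset.mem_univ _, (pos_iff_neg_of_mul_neg h.2).1 h2⟩
            · intro h
              exact ⟨Finset.mem_univ _, mul_neg_of_pos_of_neg h2 h.2.2⟩
        rw [h1, Finset.card_erase_of_mem hi₀, he]
        omega
      have h3 := ih (e₀ * e) hcard
      have h4 := rb_law_one D r hA (r i₀) e₀ h0 h0'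
      rw [Units.val_mul] at h3
      rw [rho_mul r _ e₀.ne_zero e.ne_zero] at h3
      have h5 : ∏ w ∈ S, qr w ((e₀ : 𝓞 L) * (e : 𝓞 L)) = (∏ w ∈ S, qr w (e₀ : 𝓞 L)) * ∏ w ∈ S, qr w (e : 𝓞 L) := by
        rw [← Finset.prod_mul_distrib]
        exact Finset.prod_congr rfl fun w hw => qr_mul w (hA.two w hw) _ _
      rw [h5, h4] at h3
      have h6 : rho r (t ^ 2 + 4 * c) (e₀ : 𝓞 L) ≠ 0 := by
        intro h
        have := rho_sq r (t ^ 2 + 4 * c) (e₀ : 𝓞 L)
        rw [h] at this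
        norm_num at this
      exact mul_left_cancel₀ h6 h3
  exact hmain _ e rfl

end

section
variable {L M : Type} [Field L] [NumberField L] [Field M] [NumberField M] [Algebra L M]
  [IsTotallyReal L] {D : Dat L M}

omit [NumberField M] [Algebra L M] [Field M] [IsTotallyReal L] in
theorem rb_adm {n : HeightOneSpectrum (𝓞 L) → 𝓞 L} {v : OQ L} (hn : NL v.1 (n v.1)) :
    ∃ (k : ℕ) (t c : 𝓞 L), n v.1 = t ^ 2 + 4 * c ∧ TRB.AdmG k t c {v.1} := by
  obtain ⟨⟨k, hk, hs⟩, t, c, -, h⟩ := hn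
  rw [Units.val_one, one_mul] at h
  refine ⟨k, t, c, h, ⟨hk, ?_, ?_, ?_⟩⟩
  · rw [← h, Finset.prod_singleton, hs]
  · intro w hw
    rw [Finset.mem_singleton.1 hw]
    exact v.2.1
  · intro w hw
    rw [Finset.mem_singleton.1 hw]
    exact v.2.2

omit [NumberField M] [Algebra L M] [Field M] [IsTotallyReal L] in
theorem rb_not_mem {n : HeightOneSpectrum (𝓞 L) → 𝓞 L} {u v : OQ L} (hn : NL v.1 (n v.1)) (huv : u ≠ v) :
    n v.1 ∉ u.1.asIdeal := by
  intro hm
  obtain ⟨⟨k, hk, hs⟩, -⟩ := hn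
  have h1 : v.1.asIdeal ^ k ≤ u.1.asIdeal := by
    rw [← hs, Ideal.span_singleton_le_iff_mem]
    exact hm
  have h2 : v.1.asIdeal ≤ u.1.asIdeal := u.1.isPrime.le_of_pow_le h1
  exact huv (Subtype.ext (HeightOneSpectrum.ext (v.1.isMaximal.eq_of_le u.1.isPrime.ne_top h2).symm))

omit [NumberField L] [NumberField M] [Algebra L M] [Field M] [IsTotallyReal L] in
theorem rb_qr_pm {P : HeightOneSpectrum (𝓞 L)} {x : 𝓞 L} (hx : x ∉ P.asIdeal) : qr P x = 1 ∨ qr P x = -1 := by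
  unfold TT.qr
  rw [if_neg hx]
  split_ifs
  · exact Or.inl rfl
  · exact Or.inr rfl

include D

theorem rb_rcp {g : ℕ} (r : Fin g ≃ (L →+* ℝ)) {n : HeightOneSpectrum (𝓞 L) → 𝓞 L} (hn : ∀ v : OQ L, NL v.1 (n v.1))
    {u v : OQ L} (huv : u ≠ v) : wL n u v + wL n v u = ∑ i, sgL r n u i * sgL r n v i := by
  obtain ⟨k, t, c, hu, hA⟩ := rb_adm (hn u)
  have hu0 : n u.1 ≠ 0 := by
    rw [hu]
    exact hA.ne
  obtain ⟨k', t', c', hv, hA'⟩ := rb_adm (hn v)
  have hv0 : n v.1 ≠ 0 := by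
    rw [hv]
    exact hA'.ne
  obtain ⟨h, hh, hs⟩ := (hn v).1
  obtain ⟨η, hη⟩ := exists_sign D (n v.1) hv0
  have hmem : t ^ 2 + 4 * c ∉ v.1.asIdeal := by
    rw [← hu]
    exact rb_not_mem (hn u) huv.symm
  have hα : span {(η : 𝓞 L) * n v.1} = v.1.asIdeal ^ h := by
    rw [Ideal.span_singleton_mul_left_unit η.isUnit, hs]
  have h1 := reciprocityG D.odd_classNumber hA v.1 hmem hη hh hα
  rw [Finset.prod_singleton, chd_eq_qr v.2.1 hmem, qr_mul u.1 u.2.1, ← hu] at h1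
  have h2 := rb_law D r hA η
  rw [Finset.prod_singleton, ← hu] at h2
  rw [h2] at h1
  have h3 : ∀ i ∈ (Finset.univ : Finset (Fin g)),
      (if r i (n u.1 : L) < 0 then (u4_sgn (r i ((η : 𝓞 L) : L)) : ℤ) else 1) = 1 ∨
      (if r i (n u.1 : L) < 0 then (u4_sgn (r i ((η : 𝓞 L) : L)) : ℤ) else 1) = -1 := by
    intro i _
    split_ifs
    · rcases Int.units_eq_one_or (u4_sgn (r i ((η : 𝓞 L) : L))) with h | h <;> rw [h]
      · exact Or.inl rfl
      · exact Or.inr rfl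
    · exact Or.inl rfl
  obtain ⟨h4, h5⟩ := rb_theta Finset.univ _ h3
  have h6 : ∀ i, (if (if r i (n u.1 : L) < 0 then (u4_sgn (r i ((η : 𝓞 L) : L)) : ℤ) else 1) = -1 then (1 : ZMod 2)
      else 0) = sgL r n u i * sgL r n v i := by
    intro i
    have h7 := hη (r i)
    rw [show (((η : 𝓞 L) * n v.1 : 𝓞 L) : L) = ((η : 𝓞 L) : L) * (n v.1 : L) from rfl, map_mul] at h7
    unfold sgL
    by_cases h8 : r i (n u.1 : L) < 0
    · rw [if_pos h8, if_pos h8, one_mul]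
      rcases lt_or_gt_of_ne (u4_ne (r i) hv0) with h9 | h9
      · have h10 : r i ((η : 𝓞 L) : L) < 0 := by
          by_contra h11
          exact absurd h7 (not_lt.2 (mul_nonpos_of_nonneg_of_nonpos (not_lt.1 h11) h9.le))
        rw [if_pos h9, u4_sgn_neg h10, if_pos (by rfl)]
      · have h10 : 0 < r i ((η : 𝓞 L) : L) := (pos_iff_pos_of_mul_pos h7).2 h9
        rw [if_neg (not_lt.2 h9.le), u4_sgn_pos h10, if_neg (by decide)]
    · rw [if_neg h8, if_neg h8, zero_mul, if_neg (by decide)]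
  rw [← Finset.sum_congr rfl fun i _ => h6 i, ← h5]
  change rho r (n u.1) (η : 𝓞 L) * qr u.1 (n v.1) = qr v.1 (n u.1) at h1
  change wL n u v + wL n v u = if rho r (n u.1) (η : 𝓞 L) = -1 then 1 else 0
  unfold wL
  change rho r (n u.1) (η : 𝓞 L) = 1 ∨ rho r (n u.1) (η : 𝓞 L) = -1 at h4
  have h7 := rb_qr_pm (rb_not_mem (hn v) huv)
  rw [← h1]
  rcases h4 with h4 | h4 <;> rcases h7 with h7 | h7 <;> rw [h4, h7]
  · norm_num
  · norm_num
    decide
  · norm_num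
  · norm_num

theorem rb_x {g : ℕ} (r : Fin g ≃ (L →+* ℝ)) {n : HeightOneSpectrum (𝓞 L) → 𝓞 L} (hn : ∀ v : OQ L, NL v.1 (n v.1))
    (v : OQ L) : xL v = ∑ i, sgL r n v i := by
  obtain ⟨k, t, c, hv, hA⟩ := rb_adm (hn v)
  have h2 := rb_law D r hA (-1)
  rw [Finset.prod_singleton, ← hv, Units.val_neg, Units.val_one] at h2
  have hm1 : ∀ i, r i ((-1 : 𝓞 L) : L) < 0 := by
    intro i
    rw [show ((-1 : 𝓞 L) : L) = -1 from rfl, map_neg, map_one]
    norm_num
  have h3 : ∀ i ∈ (Finset.univ : Finset (Fin g)),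
      (if r i (n v.1 : L) < 0 then (u4_sgn (r i ((-1 : 𝓞 L) : L)) : ℤ) else 1) = 1 ∨
      (if r i (n v.1 : L) < 0 then (u4_sgn (r i ((-1 : 𝓞 L) : L)) : ℤ) else 1) = -1 := by
    intro i _
    rw [u4_sgn_neg (hm1 i)]
    split_ifs
    · exact Or.inr rfl
    · exact Or.inl rfl
  obtain ⟨h4, h5⟩ := rb_theta Finset.univ _ h3
  have h6 : ∀ i, (if (if r i (n v.1 : L) < 0 then (u4_sgn (r i ((-1 : 𝓞 L) : L)) : ℤ) else 1) = -1 then (1 : ZMod 2)
      else 0) = sgL r n v i := by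
    intro i
    rw [u4_sgn_neg (hm1 i)]
    unfold sgL
    by_cases h8 : r i (n v.1 : L) < 0
    · rw [if_pos h8, if_pos h8, if_pos (by rfl)]
    · rw [if_neg h8, if_neg h8, if_neg (by decide)]
  rw [← Finset.sum_congr rfl fun i _ => h6 i, ← h5]
  change xL v = if rho r (n v.1) (-1) = -1 then 1 else 0
  rw [← h2]
  unfold xL
  rcases norm_odd v.2.1 with h | h
  · rw [if_neg (by omega), TT.qr_neg_one v.1 h, if_neg (by decide)]
  · rw [if_pos h, qr_neg_one_three v.2.1 h, if_pos rfl]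

end

section
variable {L M : Type} [Field L] [NumberField L] [Field M] [NumberField M] [Algebra L M]
  [IsTotallyReal L] {D : Dat L M} (hD : Od2 D)
include hD

/-- [RA1a] reciprocity over `L` for normalised generators -/
theorem wL_rcp {g : ℕ} (r : Fin g ≃ (L →+* ℝ)) {n : HeightOneSpectrum (𝓞 L) → 𝓞 L} (hn : ∀ v : OQ L, NL v.1 (n v.1))
    {u v : OQ L} (huv : u ≠ v) : wL n u v + wL n v u = ∑ i, sgL r n u i * sgL r n v i := by
  have := hD.odd
  exact rb_rcp (D := D) r hn huv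

/-- [RA1b] norm `3` modulo `4` iff an odd number of signs -/
theorem xL_eq {g : ℕ} (r : Fin g ≃ (L →+* ℝ)) {n : HeightOneSpectrum (𝓞 L) → 𝓞 L} (hn : ∀ v : OQ L, NL v.1 (n v.1))
    (v : OQ L) : xL v = ∑ i, sgL r n v i := by
  have := hD.odd
  exact rb_x (D := D) r hn v

end

end TRP
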