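import Pool.Agent.TRP.RDefs
import Pool.Agent.TRP.Defs3
import Pool.Agent.TRP.U
import Pool.Agent.TR.A5

/-! # [ALLP-RA1a] primes of `M` above primes of `L`, normalised generators -/

set_option autoImplicit false

open NumberField Ideal IsDedekindDomain Filter Topology
open scoped Real Classical ComplexConjugate
open TR TRG TTS TU TT TRPR

namespace TRP

section
variable {L M : Type} [Field L] [NumberField L] [Field M] [NumberField M] [Algebra L M]

/-- a prime of `M` above a prime of `L` -/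
theorem exists_above (v : HeightOneSpectrum (𝓞 L)) : ∃ P : HeightOneSpectrum (𝓞 M), a7a_pi (L := L) P = v := by
  have hinj : Function.Injective (algebraMap (𝓞 L) (𝓞 M)) := FaithfulSMul.algebraMap_injective (𝓞 L) (𝓞 M)
  have hp := v.isPrime
  obtain ⟨Q, -, hQ, hQv⟩ := Ideal.exists_ideal_over_prime_of_isIntegral v.asIdeal (⊥ : Ideal (𝓞 M)) (by
    rw [show (⊥ : Ideal (𝓞 M)).comap (algebraMap (𝓞 L) (𝓞 M)) = ⊥ from Ideal.comap_bot_of_injective _ hinj]
    exact bot_le)
  refine ⟨⟨Q, hQ, ?_⟩, ?_⟩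
  · rintro rfl
    apply v.ne_bot
    rw [← hQv]
    exact Ideal.comap_bot_of_injective _ hinj
  · exact HeightOneSpectrum.ext hQv

theorem exists_Pv (D : Dat L M) : ∃ Pv : OQ L → HeightOneSpectrum (𝓞 M), Above Pv := by
  choose f hf using exists_above (L := L) (M := M)
  exact ⟨fun v => f v.1, fun v => hf v.1⟩

variable [IsTotallyReal L] {D : Dat L M} (hD : Od2 D)
include hD

theorem exists_NL {v : HeightOneSpectrum (𝓞 L)} (h2 : (2 : 𝓞 L) ∉ v.asIdeal) : ∃ q, NL v q := by
  obtain ⟨y, hy⟩ := r2_class_gen v.asIdeal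
  have h1 : y ∉ span {(2 : 𝓞 L)} := by
    intro h
    have h3 : v.asIdeal ≤ span {(2 : 𝓞 L)} := by
      apply hD.two.le_of_pow_le (n := classNumber L)
      rw [hy]
      exact (Ideal.span_singleton_le_iff_mem _).2 h
    have h4 : v.asIdeal = span {(2 : 𝓞 L)} := v.isMaximal.eq_of_le hD.two.ne_top h3
    exact h2 (h4 ▸ Ideal.mem_span_singleton_self _)
  obtain ⟨u, hu⟩ := exists_dy hD h1
  refine ⟨(u : 𝓞 L) * y, ⟨classNumber L, D.odd_classNumber, ?_⟩, ?_⟩
  · rw [hy]
    exact Ideal.span_singleton_mul_left_unit u.isUnit y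
  · rw [dy_smul_iff, one_mul]
    exact hu

end

end TRP
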