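import Pool.Agent.TRP.RA2b

/-! # [ALLP-RA1e] the symbols of `M` at the primes above different primes of `L` -/

set_option autoImplicit false
set_option linter.unusedSectionVars false

open NumberField Ideal IsDedekindDomain Filter Topology
open scoped Real Classical ComplexConjugate
open TR TRG TTS TU TT

namespace TRP

section
variable {L M : Type} [Field L] [NumberField L] [Field M] [NumberField M] [Algebra L M]

theorem kL_ne {v : OQ L} (h : kL v ≠ 0) : c7 (absNorm v.1.asIdeal) = -1 := by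
  have h1 : c7 (absNorm v.1.asIdeal) ≠ 1 := by
    intro h1
    apply h
    unfold kL
    rw [if_pos h1]
  have h2 := qr_neg_seven v.2.1 v.2.2
  rcases qr_sgn (v := v.1) (x := -7) (fun h3 => v.2.2 (by
    have h4 := v.1.asIdeal.neg_mem h3
    rwa [neg_neg] at h4)) with h3 | h3
  · rw [h3] at h2
    exact absurd h2.symm h1
  · rw [← h2, h3]

variable [IsTotallyReal L]

theorem inert_map (D : Dat L M) {v : HeightOneSpectrum (𝓞 L)} (hv : c7 (absNorm v.asIdeal) = -1)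
    {Q : HeightOneSpectrum (𝓞 M)} (hQ : a7a_pi (L := L) Q = v) :
    v.asIdeal.map (algebraMap (𝓞 L) (𝓞 M)) = Q.asIdeal := by
  obtain ⟨P, hP, hIP⟩ := TT.h1_inert D v hv
  rw [hIP, (hP Q).1 (a7a_pi_eq.1 hQ)]

/-- the symbol of an element of `L` -/
theorem qr_alg (D : Dat L M) {u : OQ L} {x : 𝓞 L} (hx : x ∉ u.1.asIdeal) {P : HeightOneSpectrum (𝓞 M)}
    (hP : a7a_pi (L := L) P = u.1) :
    TT.qr P (algebraMap (𝓞 L) (𝓞 M) x) = if kL u = 0 then TT.qr u.1 x else 1 := by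
  by_cases hu : kL u = 0
  · rw [if_pos hu]
    exact qr_split_alg D hP u.2.1 (kL_zero hu) x
  · rw [if_neg hu]
    exact qr_inert_alg D hP u.2.1 (kL_ne hu) hx

variable {D : Dat L M} (hD : Od2 D)
include hD

/-- the class character at the ideal `v 𝓞_M` -/
theorem lamE_map {s : Bool} {P : HeightOneSpectrum (𝓞 M)} {X : Ideal (𝓞 M) →*₀ ℤ} (hX : LamE D s P X)
    {v : HeightOneSpectrum (𝓞 L)} {x : 𝓞 L} (hx : NL v x) :
    X (v.asIdeal.map (algebraMap (𝓞 L) (𝓞 M))) = TT.qr P (algebraMap (𝓞 L) (𝓞 M) x) := by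
  obtain ⟨⟨k, hk, hkx⟩, hdy⟩ := hx
  rw [← r1_pow_odd (hX.val _) hk, ← map_pow, ← Ideal.map_pow, ← hkx, Ideal.map_span, Set.image_singleton,
    hX.span_eq _ (et_real D s hdy)]

omit hD in
theorem n_notMem {n : HeightOneSpectrum (𝓞 L) → 𝓞 L} (hn : ∀ v : OQ L, NL v.1 (n v.1)) {u v : OQ L} (huv : u ≠ v) :
    n v.1 ∉ u.1.asIdeal := by
  intro h
  obtain ⟨⟨k, -, hkq⟩, -⟩ := hn v
  have h1 : v.1.asIdeal ^ k ≤ u.1.asIdeal := by
    rw [← hkq]
    exact (Ideal.span_singleton_le_iff_mem _).2 h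
  have h2 := v.1.isMaximal.eq_of_le u.1.isPrime.ne_top (u.1.isPrime.le_of_pow_le h1)
  exact huv (Subtype.ext (HeightOneSpectrum.ext h2.symm))

omit hD in
theorem w_eq (D : Dat L M) {n : HeightOneSpectrum (𝓞 L) → 𝓞 L} (hn : ∀ v : OQ L, NL v.1 (n v.1)) {u v : OQ L} (huv : u ≠ v)
    {P : HeightOneSpectrum (𝓞 M)} (hP : a7a_pi (L := L) P = u.1) :
    (if TT.qr P (algebraMap (𝓞 L) (𝓞 M) (n v.1)) = -1 then (1 : ZMod 2) else 0) = if kL u = 0 then wL n u v else 0 := by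
  rw [qr_alg D (n_notMem hn huv) hP]
  unfold wL
  by_cases hu : kL u = 0
  · rw [if_pos hu, if_pos hu]
  · rw [if_neg hu, if_neg hu, if_neg (by norm_num)]

/-- `v` split -/
theorem ra1_pair_s {s : Bool} {z : HeightOneSpectrum (𝓞 M) → 𝓞 M} (hz : ∀ P, (2 : 𝓞 M) ∉ P.asIdeal → NG D s P (z P))
    {n : HeightOneSpectrum (𝓞 L) → 𝓞 L} (hn : ∀ v : OQ L, NL v.1 (n v.1)) {u v : OQ L} (huv : u ≠ v) (hv : kL v = 0)
    {P Q : HeightOneSpectrum (𝓞 M)} (hP : a7a_pi (L := L) P = u.1) (hQ : a7a_pi (L := L) Q = v.1) :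
    TRG.aM z P Q + TRG.aM z P (u6_conj D Q) = if kL u = 0 then wL n u v else 0 := by
  obtain ⟨X, hX⟩ := exists_lamE hD s (two_above hP u.2.1)
  have hQ' : a7a_pi (L := L) (u6_conj D Q) = v.1 := (pi_conj D Q).trans hQ
  have hne : u.1 ≠ v.1 := fun h => huv (Subtype.ext h)
  have h1 := lamE_map hD hX (hn v)
  rw [split_map D (kL_zero hv) hQ, map_mul, nb_val hX (hz Q (two_above hQ v.2.1)),
    nb_val hX (hz _ (two_above hQ' v.2.1))] at h1
  have h2 := ra_z_not s hz (P := P) (Q := Q) (two_above hQ v.2.1) fun h => hne (by rw [← hP, h, hQ])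
  have h3 := ra_z_not s hz (P := P) (Q := u6_conj D Q) (two_above hQ' v.2.1) fun h => hne (by rw [← hP, h, hQ'])
  rw [← w_eq D hn huv hP, ← h1]
  unfold TRG.aM
  rcases h2 with h2 | h2 <;> rcases h3 with h3 | h3 <;> rw [h2, h3] <;> norm_num
  decide

/-- `v` inert -/
theorem ra1_pair_i {s : Bool} {z : HeightOneSpectrum (𝓞 M) → 𝓞 M} (hz : ∀ P, (2 : 𝓞 M) ∉ P.asIdeal → NG D s P (z P))
    {n : HeightOneSpectrum (𝓞 L) → 𝓞 L} (hn : ∀ v : OQ L, NL v.1 (n v.1)) {u v : OQ L} (huv : u ≠ v) (hv : kL v ≠ 0)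
    {P Q : HeightOneSpectrum (𝓞 M)} (hP : a7a_pi (L := L) P = u.1) (hQ : a7a_pi (L := L) Q = v.1) :
    TRG.aM z P Q = if kL u = 0 then wL n u v else 0 := by
  obtain ⟨X, hX⟩ := exists_lamE hD s (two_above hP u.2.1)
  have h1 := lamE_map hD hX (hn v)
  rw [inert_map D (kL_ne hv) hQ, nb_val hX (hz Q (two_above hQ v.2.1))] at h1
  rw [← w_eq D hn huv hP, ← h1]
  rfl

end

end TRP
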