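import Pool.Agent.TRP.RA1c0
import Pool.Agent.TRP.RA1e
import Pool.Agent.TRP.RA1a

/-! # [ALLP-RA1c] the diagonal symbols, the symmetry of `m` -/

set_option autoImplicit false
set_option linter.unusedSectionVars false

open NumberField Ideal IsDedekindDomain Filter Topology
open scoped Real Classical ComplexConjugate
open TR TRG TTS TU TT

namespace TRP

section
variable {L M : Type} [Field L] [NumberField L] [Field M] [NumberField M] [Algebra L M]
  [IsTotallyReal L] {D : Dat L M} (hD : Od2 D)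
include hD

/-- `z P` and `z P'` have the same class -/
theorem ra1_cl {s : Bool} {v : HeightOneSpectrum (𝓞 L)} (hv : c7 (absNorm v.asIdeal) = 1)
    {x : 𝓞 L} (hx : NL v x) {P : HeightOneSpectrum (𝓞 M)} (hP : a7a_pi (L := L) P = v)
    {z w : 𝓞 M} (hz : NG D s P z) (hw : NG D s (u6_conj D P) w) :
    ∃ l k j : ℕ, Odd l ∧ Odd k ∧ Odd j ∧ Cl (0 : 𝓞 M) ((z ^ l * w ^ k) ^ j) := by
  obtain ⟨⟨j, hj, hjx⟩, hdy⟩ := hx
  obtain ⟨a, ha, hPa⟩ := hz.gen
  obtain ⟨b, hb, hQb⟩ := hw.gen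
  refine ⟨b, a, j, hb, ha, hj, ?_⟩
  have hE := et_real D s hdy
  have hspan : span {(z ^ b * w ^ a) ^ j} = span {algebraMap (𝓞 L) (𝓞 M) x ^ (a * b)} := by
    rw [← Ideal.span_singleton_pow, ← Ideal.span_singleton_mul_span_singleton, ← Ideal.span_singleton_pow,
      ← Ideal.span_singleton_pow, ← Ideal.span_singleton_pow, hPa, hQb]
    have e : span {algebraMap (𝓞 L) (𝓞 M) x} = (P.asIdeal * (u6_conj D P).asIdeal) ^ j := by
      rw [← split_map D hv hP, ← Ideal.map_pow, ← hjx, Ideal.map_span, Set.image_singleton]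
    rw [e, ← pow_mul, ← pow_mul, ← pow_mul, mul_comm b a, mul_pow, mul_pow, ← pow_mul, ← pow_mul]
    ring
  rw [Ideal.span_singleton_eq_span_singleton] at hspan
  obtain ⟨t, ht⟩ := hspan.symm
  have hEz : Et D s ((z ^ b * w ^ a) ^ j) := bl_et_pow (bl_et_mul (bl_et_pow hz.et _) (bl_et_pow hw.et _)) _
  have hEx : Et D s (algebraMap (𝓞 L) (𝓞 M) x ^ (a * b)) := bl_et_pow hE _
  have ht1 : Et D s (t : 𝓞 M) := by
    refine bl_et_div (y := algebraMap (𝓞 L) (𝓞 M) x ^ (a * b)) ?_ hEx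
    rw [mul_comm, ht]
    exact hEz
  have h1 := bl_unit t ht1
  obtain ⟨c, f, hc, hcf⟩ := hdy
  rw [Units.val_one, one_mul] at hcf
  have h2 : Cl (0 : 𝓞 M) (algebraMap (𝓞 L) (𝓞 M) x) := by
    refine ⟨algebraMap (𝓞 L) (𝓞 M) c, algebraMap (𝓞 L) (𝓞 M) f, ?_, ?_⟩
    · have h3 := hc.map (algebraMap (𝓞 L) (𝓞 M))
      rwa [map_ofNat] at h3
    · rw [hcf, map_add, map_pow, map_mul, map_ofNat]
      ring
  have h3 := cl_mul (bl_cl_pow h2 (ha.mul hb)) h1
  rw [ht, add_zero] at h3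
  exact h3

/-- the diagonal, `v` split -/
theorem ra1_diag {s : Bool} {z : HeightOneSpectrum (𝓞 M) → 𝓞 M} (hz : ∀ P, (2 : 𝓞 M) ∉ P.asIdeal → NG D s P (z P))
    {v : OQ L} (hv : kL v = 0) {P : HeightOneSpectrum (𝓞 M)} (hP : a7a_pi (L := L) P = v.1) :
    TRG.aM z P (u6_conj D P) + TRG.aM z (u6_conj D P) P = xL v := by
  obtain ⟨x, hx⟩ := exists_NL hD v.2.1
  have hv1 := kL_zero hv
  have h2P := two_above hP v.2.1
  have h2Q := ra1_two_conj D h2P
  have hne : P ≠ u6_conj D P := fun h => split_conj_ne D hv1 hP h.symm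
  have h1 := ra1_bb hD hne h2P h2Q (hz P h2P) (hz _ h2Q) (ra1_cl hD hv1 hx hP (hz P h2P) (hz _ h2Q))
  rw [ra1_neg_one hD h2P, split_norm D hv1 hP, ZMod.χ₄_nat_eq_if_mod_four] at h1
  have h2 := ra_z_not s hz (P := u6_conj D P) (Q := P) h2P hne.symm
  have h3 := ra_z_not s hz (P := P) (Q := u6_conj D P) h2Q hne
  unfold TRG.aM xL
  by_cases h6 : absNorm v.1.asIdeal % 4 = 3
  · rw [if_neg (by omega), if_neg (by omega)] at h1
    rw [if_pos h6]
    rcases h2 with h2 | h2 <;> rcases h3 with h3 | h3 <;> rw [h2, h3] at h1 ⊢ <;>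
      first | (exfalso; revert h1; norm_num; done) | norm_num
  · rw [if_neg h6]
    by_cases h4 : absNorm v.1.asIdeal % 2 = 0
    · rw [if_pos h4] at h1
      rcases h2 with h2 | h2 <;> rcases h3 with h3 | h3 <;> rw [h2, h3] at h1 <;> norm_num at h1
    · rw [if_neg h4, if_pos (by omega)] at h1
      rcases h2 with h2 | h2 <;> rcases h3 with h3 | h3 <;> rw [h2, h3] at h1 ⊢ <;>
        first | (exfalso; revert h1; norm_num; done) | (norm_num; done) | (norm_num; decide)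

theorem mL_symm {s : Bool} {z : HeightOneSpectrum (𝓞 M) → 𝓞 M} (hz : ∀ P, (2 : 𝓞 M) ∉ P.asIdeal → NG D s P (z P))
    {Pv : OQ L → HeightOneSpectrum (𝓞 M)} (hP : Above Pv) {u v : OQ L} (hu : kL u = 0) (hv : kL v = 0) :
    mL D z Pv u v = mL D z Pv v u := by
  by_cases huv : u = v
  · rw [huv]
  have hPu : a7a_pi (L := L) (u6_conj D (Pv u)) = u.1 := (pi_conj D _).trans (hP u)
  have hne : Pv v ≠ u6_conj D (Pv u) := by
    intro h
    apply huv
    apply Subtype.ext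
    rw [← hPu, ← h, hP v]
  have h1 := ra1_T hD hz (two_above (hP v) v.2.1) (two_above hPu u.2.1) hne
  rw [u6_conj_conj] at h1
  exact h1

end

end TRP
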