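import Pool.Agent.TRP.PD
import Pool.Agent.TRP.RDefs
import Pool.Agent.TRP.Defs3

/-! # [ALLP-RA1f] the root: `bQ` at the primes above split and inert primes -/

set_option autoImplicit false

open NumberField Ideal IsDedekindDomain Filter Topology
open scoped Real Classical ComplexConjugate
open TR TRG TTS TU TT TRPR

namespace TRP

section
variable {L M : Type} [Field L] [NumberField L] [Field M] [NumberField M] [Algebra L M]
variable [IsTotallyReal L] {D : Dat L M}

/-- conjugation and the symbols -/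
theorem ra1f_conj (P : HeightOneSpectrum (𝓞 M)) (x : 𝓞 M) : TT.qr P x = TT.qr (u6_conj D P) (D.cjO x) := by
  rw [z1a_split D (P := P) (Q := u6_conj D P) rfl (D.cjO x), a6_cj_cj]

theorem ra1f_cj (s : Bool) : D.cjO (rs7 D s) = -rs7 D s := by
  have h1 : D.cjO (p2 D s) = p1 D s := by
    rw [← bl_cj, a6_cj_cj]
  unfold rs7
  rw [map_sub, bl_cj, h1]
  ring

/-- the conjugate prime is above the same prime -/
theorem ra1f_above {P : HeightOneSpectrum (𝓞 M)} {v : OQ L} (hP : a7a_pi (L := L) P = v.1) :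
    a7a_pi (L := L) (u6_conj D P) = v.1 := by
  rw [← hP]
  refine HeightOneSpectrum.ext ?_
  ext x
  change algebraMap (𝓞 L) (𝓞 M) x ∈ P.asIdeal.map D.cjO ↔ algebraMap (𝓞 L) (𝓞 M) x ∈ P.asIdeal
  rw [u6_map_eq_comap, Ideal.mem_comap, D.a2_cjO_algebraMap]

/-- [RA1f] `v` split -/
theorem ra1_root_s (s : Bool) {v : OQ L} (hv : kL v = 0) {P : HeightOneSpectrum (𝓞 M)} (hP : a7a_pi (L := L) P = v.1) :
    bQ D s P = xL v + bQ D s (u6_conj D P) := by
  have hc := ra_kL.1.1 hv
  have hP' : a7a_pi (L := L) (u6_conj D P) = v.1 := ra1f_above hP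
  have h2 : (2 : 𝓞 M) ∉ (u6_conj D P).asIdeal := two_above hP' v.2.1
  have h1 : TT.qr P (rs7 D s) = TT.qr v.1 (-1) * TT.qr (u6_conj D P) (rs7 D s) := by
    rw [ra1f_conj (L := L) (D := D) P, ra1f_cj, neg_eq_neg_one_mul, TT.qr_mul _ h2]
    congr 1
    have h3 := qr_split_alg D hP' v.2.1 hc (-1)
    rwa [map_neg, map_one] at h3
  unfold bQ xL
  rw [h1]
  have h4 : TT.qr (u6_conj D P) (rs7 D s) = 1 ∨ TT.qr (u6_conj D P) (rs7 D s) = -1 := by
    refine qr_sgn ?_
    have h5 := rr_above D hP' v.2.2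
    cases s
    · rw [bl_rs7_false]
      intro h
      exact h5 (by simpa using (u6_conj D P).asIdeal.neg_mem h)
    · rw [bl_rs7_true]
      exact h5
  rcases norm_odd v.2.1 with h | h
  · rw [TT.qr_neg_one _ h, one_mul, if_neg (by omega : ¬ absNorm v.1.asIdeal % 4 = 3), zero_add]
  · rw [qr_neg_one_three v.2.1 h, if_pos h]
    rcases h4 with h4 | h4 <;> rw [h4] <;> decide

/-- [RA1f] `v` inert -/
theorem ra1_root_i (s : Bool) {v : OQ L} (hv : kL v ≠ 0) {P : HeightOneSpectrum (𝓞 M)} (hP : a7a_pi (L := L) P = v.1) :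
    bQ D s P = 1 + xL v := by
  have hc := ra_kL.2.1 hv
  have h2 : (2 : 𝓞 M) ∉ P.asIdeal := two_above hP v.2.1
  have h1 : TT.qr P (rs7 D s) = TT.qr P D.rr := by
    cases s
    · rw [bl_rs7_false, neg_eq_neg_one_mul, TT.qr_mul _ h2]
      have h3 := qr_inert_alg D hP v.2.1 hc (x := -1) (fun h => one_not_mem (v := v.1) (by simpa using v.1.asIdeal.neg_mem h))
      rw [map_neg, map_one] at h3
      rw [h3, one_mul]
    · rw [bl_rs7_true]
  obtain ⟨h3, h4⟩ := qr_inert_rr D hP v.2.1 hc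
  unfold bQ xL
  rw [h1]
  rcases norm_odd v.2.1 with h | h
  · rw [h3 h, if_neg (by omega : ¬ absNorm v.1.asIdeal % 4 = 3)]
    decide
  · rw [h4 h, if_pos h]
    decide

end

end TRP
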