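import Pool.Agent.TRP.RA1a
import Pool.Agent.TRP.RA1b
import Pool.Agent.TRP.RA1c
import Pool.Agent.TRP.RA1d
import Pool.Agent.TRP.RA1f

/-! # [ALLP-RA1] the link: the reduced Laplacian over `M` and the form `HR` over `L` -/

set_option autoImplicit false
set_option linter.unusedSectionVars false

open NumberField Ideal IsDedekindDomain Filter Topology
open scoped Real Classical ComplexConjugate
open TR TRG TTS TU TT TRPR

namespace TRP

section
variable {L M : Type} [Field L] [NumberField L] [Field M] [NumberField M] [Algebra L M]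
  [IsTotallyReal L] {D : Dat L M}

/-- `v` inert: the prime above `v` is its own conjugate -/
theorem ra1_inert (D : Dat L M) {v : OQ L} (hv : kL v ≠ 0) {P : HeightOneSpectrum (𝓞 M)}
    (hP : a7a_pi (L := L) P = v.1) : u6_conj D P = P := by
  have h1 := inert_map D (kL_ne hv) hP
  have h2 := inert_map D (kL_ne hv) ((pi_conj D P).trans hP)
  exact HeightOneSpectrum.ext (h2.symm.trans h1)

/-- the primes above `v` -/
theorem ra1_fib (D : Dat L M) {v : OQ L} {P Q : HeightOneSpectrum (𝓞 M)}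
    (hP : a7a_pi (L := L) P = v.1) (hQ : a7a_pi (L := L) Q = v.1) : Q = P ∨ Q = u6_conj D P := by
  by_cases hv : kL v = 0
  · obtain ⟨R, -, hR, hall, -⟩ := split_at D (kL_zero hv) hP
    rcases (hall Q).1 hQ with h | h
    · exact Or.inl h
    · right
      rw [h]
      exact HeightOneSpectrum.ext hR
  · left
    exact HeightOneSpectrum.ext ((inert_map D (kL_ne hv) hQ).symm.trans (inert_map D (kL_ne hv) hP))

variable (hD : Od2 D)
include hD

theorem link_R {s : Bool} {z : HeightOneSpectrum (𝓞 M) → 𝓞 M} (hz : ∀ P, (2 : 𝓞 M) ∉ P.asIdeal → NG D s P (z P))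
    {n : HeightOneSpectrum (𝓞 L) → 𝓞 L} (hn : ∀ v : OQ L, NL v.1 (n v.1)) {Pv : OQ L → HeightOneSpectrum (𝓞 M)} (hP : Above Pv)
    (B : RSys (OQ L)) (hk : B.k = kL) (hx : B.x = xL) (hrt : ∀ v, kL v = 0 → B.rt v = rtL D s Pv v) (hw : B.w = wL n)
    (hm : ∀ u v, kL u = 0 → kL v = 0 → B.m u v = mL D z Pv u v)
    {S : Finset (OQ L)} {SM : Finset (HeightOneSpectrum (𝓞 M))} (hSM : ∀ P, P ∈ SM ↔ ∃ v ∈ S, a7a_pi (L := L) P = v.1) :
    HR B S ↔ Pool.Agent.TRG.f (TRG.aM z) (bQ D s) SM ≠ 0 := by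
  have hPc : ∀ v : OQ L, a7a_pi (L := L) (u6_conj D (Pv v)) = v.1 := fun v => (pi_conj D _).trans (hP v)
  have hab : ∀ (v : OQ L) (P : HeightOneSpectrum (𝓞 M)), P = Pv v ∨ P = u6_conj D (Pv v) → a7a_pi (L := L) P = v.1 := by
    rintro v P (rfl | rfl)
    · exact hP v
    · exact hPc v
  refine link_core B S SM Pv (u6_conj D) (TRG.aM z) (bQ D s) (u6_conj_conj D) ?_ ?_ ?_ ?_ ?_ ?_ ?_ ?_ ?_ ?_ ?_ ?_
  · intro v _ hv
    rw [hk] at hv
    exact split_conj_ne D (kL_zero hv) (hP v)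
  · intro v _ hv
    rw [hk] at hv
    exact ra1_inert D hv (hP v)
  · intro u _ v _ huv
    constructor
    · intro h
      exact huv (Subtype.ext (by rw [← hP u, h, hP v]))
    · intro h
      exact huv (Subtype.ext (by rw [← hP u, h, hPc v]))
  · intro Q
    rw [hSM]
    constructor
    · rintro ⟨v, hv, hQ⟩
      exact ⟨v, hv, ra1_fib D (hP v) hQ⟩
    · rintro ⟨v, hv, hQ⟩
      exact ⟨v, hv, hab v Q hQ⟩
  · intro u _ v _ huv hv P hPu
    rw [hk] at hv
    rw [hk, hw]
    exact ra1_pair_s hD hz hn huv hv (hab u P hPu) (hP v)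
  · intro u _ v _ huv hv P hPu
    rw [hk] at hv
    rw [hk, hw]
    exact ra1_pair_i hD hz hn huv hv (hab u P hPu) (hP v)
  · intro u _ v _ P R hPu hRv hPR
    exact ra1_T hD hz (two_above (hab u P hPu) u.2.1) (two_above (hab v R hRv) v.2.1) hPR
  · intro v _ hv
    rw [hk] at hv
    rw [hx]
    exact ra1_diag hD hz hv (hP v)
  · intro v _ hv
    rw [hk] at hv
    rw [hx, hrt v hv]
    exact ra1_root_s s hv (hP v)
  · intro v _ hv
    rw [hk] at hv
    rw [hrt v hv]
    rfl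
  · intro v _ hv
    rw [hk] at hv
    rw [hx]
    exact ra1_root_i s hv (hP v)
  · intro u _ v _ hu hv
    rw [hk] at hu hv
    exact hm u v hu hv

end

end TRP
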