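import Pool.Agent.TRP.RA2b0

/-! # [ALLP-RA2b] the bilinear sums of `m` and `m + w` on the split primes of `L` -/

set_option autoImplicit false
set_option linter.unusedSectionVars false

open NumberField Ideal IsDedekindDomain Filter Topology
open scoped Real Classical ComplexConjugate
open TR TRG TTS TU TT

namespace TRP

section
variable {L M : Type} [Field L] [NumberField L] [Field M] [NumberField M] [Algebra L M]

theorem kL_zero {v : OQ L} (h : kL v = 0) : c7 (absNorm v.1.asIdeal) = 1 := by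
  by_contra h1
  unfold kL at h
  rw [if_neg h1] at h
  exact one_ne_zero h

variable [IsTotallyReal L]

theorem pi_conj (D : Dat L M) (P : HeightOneSpectrum (𝓞 M)) : a7a_pi (L := L) (u6_conj D P) = a7a_pi (L := L) P := by
  apply HeightOneSpectrum.ext
  change (P.asIdeal.map D.cjO).comap (algebraMap (𝓞 L) (𝓞 M)) = P.asIdeal.comap (algebraMap (𝓞 L) (𝓞 M))
  rw [u6_map_eq_comap, Ideal.comap_comap]
  have e : D.cjO.comp (algebraMap (𝓞 L) (𝓞 M)) = algebraMap (𝓞 L) (𝓞 M) :=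
    RingHom.ext fun y => D.a2_cjO_algebraMap y
  rw [e]

/-- the primes above a split prime: norms, the conjugate, the product -/
theorem split_norm (D : Dat L M) {v : HeightOneSpectrum (𝓞 L)} (hv : c7 (absNorm v.asIdeal) = 1)
    {P : HeightOneSpectrum (𝓞 M)} (hP : a7a_pi (L := L) P = v) : absNorm P.asIdeal = absNorm v.asIdeal := by
  obtain ⟨Q, -, -, -, h⟩ := split_at D hv hP
  exact h

theorem split_conj_ne (D : Dat L M) {v : HeightOneSpectrum (𝓞 L)} (hv : c7 (absNorm v.asIdeal) = 1)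
    {P : HeightOneSpectrum (𝓞 M)} (hP : a7a_pi (L := L) P = v) : u6_conj D P ≠ P := by
  obtain ⟨Q, hPQ, hQ, -, -⟩ := split_at D hv hP
  intro h
  apply hPQ
  rw [← h]
  exact HeightOneSpectrum.ext hQ.symm

theorem split_map (D : Dat L M) {v : HeightOneSpectrum (𝓞 L)} (hv : c7 (absNorm v.asIdeal) = 1)
    {P : HeightOneSpectrum (𝓞 M)} (hP : a7a_pi (L := L) P = v) :
    v.asIdeal.map (algebraMap (𝓞 L) (𝓞 M)) = P.asIdeal * (u6_conj D P).asIdeal := by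
  have hne := split_conj_ne D hv hP
  have hP' : a7a_pi (L := L) (u6_conj D P) = v := (pi_conj D P).trans hP
  have hle : ∀ R : HeightOneSpectrum (𝓞 M), a7a_pi (L := L) R = v → v.asIdeal.map (algebraMap (𝓞 L) (𝓞 M)) ≤ R.asIdeal := by
    intro R hR
    rw [Ideal.map_le_iff_le_comap, a7a_pi_eq.1 hR]
  have hcop : IsCoprime P.asIdeal (u6_conj D P).asIdeal := by
    rw [Ideal.isCoprime_iff_sup_eq]
    by_contra hcon
    have h3 := P.isMaximal.eq_of_le hcon le_sup_left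
    have h4 : (u6_conj D P).asIdeal ≤ P.asIdeal := by
      rw [h3]
      exact le_sup_right
    exact hne (HeightOneSpectrum.ext ((u6_conj D P).isMaximal.eq_of_le P.isPrime.ne_top h4))
  have hdvd : P.asIdeal * (u6_conj D P).asIdeal ∣ v.asIdeal.map (algebraMap (𝓞 L) (𝓞 M)) :=
    hcop.mul_dvd (Ideal.dvd_iff_le.2 (hle P hP)) (Ideal.dvd_iff_le.2 (hle _ hP'))
  obtain ⟨J, hJ⟩ := hdvd
  have hnorm : absNorm (v.asIdeal.map (algebraMap (𝓞 L) (𝓞 M))) = absNorm v.asIdeal ^ 2 := by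
    rw [Ideal.absNorm_algebraMap, ← IsFractionRing.finrank_eq (𝓞 L) L (𝓞 M) M, D.finrank_eq_two]
  have h0 : absNorm v.asIdeal ≠ 0 := by
    rw [Ne, absNorm_eq_zero_iff]
    exact v.ne_bot
  have hJ1 : absNorm J = 1 := by
    rw [hJ, map_mul, map_mul, split_norm D hv hP, split_norm D hv hP', ← sq] at hnorm
    exact Nat.eq_of_mul_eq_mul_left (Nat.pos_of_ne_zero (pow_ne_zero 2 h0)) (by rw [hnorm, mul_one])
  rw [absNorm_eq_one_iff] at hJ1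
  rw [hJ, hJ1, Ideal.mul_top]

theorem et_real (D : Dat L M) (s : Bool) {x : 𝓞 L} (hx : dy x 1) : Et D s (algebraMap (𝓞 L) (𝓞 M) x) := by
  obtain ⟨a, c, ha, hac⟩ := hx
  rw [Units.val_one, one_mul] at hac
  refine ⟨algebraMap (𝓞 L) (𝓞 M) a, p1 D s ^ 2 * algebraMap (𝓞 L) (𝓞 M) c, ?_, ?_⟩
  · have h1 := ha.map (algebraMap (𝓞 L) (𝓞 M))
    rw [map_ofNat, ← x_mul D s] at h1
    exact h1.of_mul_right_right
  · rw [hac, map_add, map_pow, map_mul, map_ofNat, nb_four D s]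
    ring

variable {D : Dat L M} (hD : Od2 D)
include hD

/-- the symbols at the two primes above a split prime -/
theorem qr_pair (s : Bool) {z : HeightOneSpectrum (𝓞 M) → 𝓞 M}
    (hz : ∀ P, (2 : 𝓞 M) ∉ P.asIdeal → NG D s P (z P)) {u v : HeightOneSpectrum (𝓞 L)}
    (hu2 : (2 : 𝓞 L) ∉ u.asIdeal) (hv2 : (2 : 𝓞 L) ∉ v.asIdeal) (hu : c7 (absNorm u.asIdeal) = 1)
    (hv : c7 (absNorm v.asIdeal) = 1) {x : 𝓞 L} (hx : NL v x) {P Q : HeightOneSpectrum (𝓞 M)}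
    (hP : a7a_pi (L := L) P = u) (hQ : a7a_pi (L := L) Q = v) :
    TT.qr P (z Q) * TT.qr P (z (u6_conj D Q)) = TT.qr u x := by
  obtain ⟨X, hX⟩ := exists_lamE hD s (two_above hP hu2)
  have hQ' : a7a_pi (L := L) (u6_conj D Q) = v := (pi_conj D Q).trans hQ
  rw [← nb_val hX (hz Q (two_above hQ hv2)), ← nb_val hX (hz _ (two_above hQ' hv2)), ← map_mul, ← split_map D hv hQ]
  obtain ⟨⟨k, hk, hkx⟩, hdy⟩ := hx
  rw [← r1_pow_odd (hX.val _) hk, ← map_pow, ← Ideal.map_pow, ← hkx, Ideal.map_span, Set.image_singleton,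
    hX.span_eq _ (et_real D s hdy), qr_split_alg D hP hu2 hu]

omit hD in
theorem ra_z_not (s : Bool) {z : HeightOneSpectrum (𝓞 M) → 𝓞 M}
    (hz : ∀ P, (2 : 𝓞 M) ∉ P.asIdeal → NG D s P (z P)) {P Q : HeightOneSpectrum (𝓞 M)} (hQ : (2 : 𝓞 M) ∉ Q.asIdeal)
    (h : P ≠ Q) : TT.qr P (z Q) = 1 ∨ TT.qr P (z Q) = -1 := by
  have h0 : TT.qr P (z Q) ≠ 0 := by
    intro h'
    rw [TT.qr_eq_zero] at h'
    obtain ⟨k, -, hkq⟩ := (hz Q hQ).gen
    have h1 : Q.asIdeal ^ k ≤ P.asIdeal := by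
      rw [← hkq]
      exact (Ideal.span_singleton_le_iff_mem _).2 h'
    have h2 := Q.isMaximal.eq_of_le P.isPrime.ne_top (P.isPrime.le_of_pow_le h1)
    exact h (HeightOneSpectrum.ext h2.symm)
  rcases TT.qr_cases P (z Q) with h1 | h1
  · exact absurd h1 h0
  · exact h1

/-- `m + w` -/
theorem mw_eq {s : Bool} {z : HeightOneSpectrum (𝓞 M) → 𝓞 M}
    (hz : ∀ P, (2 : 𝓞 M) ∉ P.asIdeal → NG D s P (z P)) {n : HeightOneSpectrum (𝓞 L) → 𝓞 L}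
    (hn : ∀ v : OQ L, NL v.1 (n v.1)) {Pv : OQ L → HeightOneSpectrum (𝓞 M)} (hP : Above Pv) {u v : OQ L}
    (hu : kL u = 0) (hv : kL v = 0) (huv : u ≠ v) :
    mL D z Pv u v + wL n u v = TRG.aM z (u6_conj D (Pv u)) (u6_conj D (Pv v)) := by
  have hPu : a7a_pi (L := L) (u6_conj D (Pv u)) = u.1 := (pi_conj D _).trans (hP u)
  have hPv' : a7a_pi (L := L) (u6_conj D (Pv v)) = v.1 := (pi_conj D _).trans (hP v)
  have h1 := qr_pair hD s hz u.2.1 v.2.1 (kL_zero hu) (kL_zero hv) (hn v) hPu (hP v)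
  have hne : u.1 ≠ v.1 := fun h => huv (Subtype.ext h)
  have h2 := ra_z_not s hz (P := u6_conj D (Pv u)) (Q := Pv v) (two_above (hP v) v.2.1) fun h => hne (by rw [← hPu, h, hP v])
  have h3 := ra_z_not s hz (P := u6_conj D (Pv u)) (Q := u6_conj D (Pv v)) (two_above hPv' v.2.1)
    fun h => hne (by rw [← hPu, h, hPv'])
  unfold mL wL TRG.aM
  rcases h2 with h2 | h2 <;> rcases h3 with h3 | h3 <;> rw [h2, h3] at h1 <;> rw [h2, h3, ← h1] <;> norm_num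
  decide

/-- bilinear sums for `aM` at primes of `M` above the primes of `L` -/
theorem bil_push {s : Bool} {z : HeightOneSpectrum (𝓞 M) → 𝓞 M}
    (hz : ∀ P, (2 : 𝓞 M) ∉ P.asIdeal → NG D s P (z P)) : ∃ C δ : ℝ, 0 < C ∧ 0 < δ ∧ δ ≤ 1 ∧
    ∀ φ ψ : OQ L → HeightOneSpectrum (𝓞 M), Above φ → Above ψ →
    ∀ Y₁ Y₂ : ℝ, 1 ≤ Y₁ → Y₁ ≤ Y₂ → ∀ U V : Finset (OQ L), (∀ u ∈ U, kL u = 0) → (∀ v ∈ V, kL v = 0) →
    (∀ u ∈ U, (absNorm u.1.asIdeal : ℝ) ≤ Y₁) →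
    (∀ v ∈ V, (absNorm v.1.asIdeal : ℝ) ≤ Y₂) → ∀ a b : OQ L → ℝ, (∀ u, |a u| ≤ 1) → (∀ v, |b v| ≤ 1) →
    |∑ u ∈ U, ∑ v ∈ V, a u * b v * (if φ u = ψ v then 0 else if TRG.aM z (φ u) (ψ v) = 0 then 1 else -1)| ≤
      C * Y₁ ^ (1 - δ) * Y₂ := by
  obtain ⟨C, δ, hC, hδ, hδ1, hbil⟩ := bil_M hD s hz
  refine ⟨C, δ, hC, hδ, hδ1, fun φ ψ hφ hψ Y₁ Y₂ hY1 hY12 U V hkU hkV hU hV a b ha hb => ?_⟩
  let Φ : ∀ χ : OQ L → HeightOneSpectrum (𝓞 M), Above χ → (OQ L ↪ OP M) := fun χ hχ =>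
    ⟨fun u => ⟨χ u, two_above (hχ u) u.2.1⟩, fun u v huv => Subtype.ext (by
      have h1 : χ u = χ v := congrArg Subtype.val huv
      rw [← hχ u, ← hχ v, h1])⟩
  let α : (OQ L → ℝ) → OP M → ℝ := fun a P =>
    if h : (2 : 𝓞 L) ∉ (a7a_pi (L := L) P.1).asIdeal ∧ (7 : 𝓞 L) ∉ (a7a_pi (L := L) P.1).asIdeal then
      a ⟨a7a_pi (L := L) P.1, h⟩ else 0
  have hα1 : ∀ (a : OQ L → ℝ) (χ : OQ L → HeightOneSpectrum (𝓞 M)) (hχ : Above χ) (v : OQ L), α a (Φ χ hχ v) = a v := by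
    intro a χ hχ v
    have h1 : a7a_pi (L := L) (Φ χ hχ v).1 = v.1 := hχ v
    change (if h : (2 : 𝓞 L) ∉ (a7a_pi (L := L) (Φ χ hχ v).1).asIdeal ∧ (7 : 𝓞 L) ∉ (a7a_pi (L := L) (Φ χ hχ v).1).asIdeal then
      a ⟨a7a_pi (L := L) (Φ χ hχ v).1, h⟩ else 0) = a v
    rw [dif_pos (by rw [h1]; exact v.2)]
    congr 1
    exact Subtype.ext h1
  have hα : ∀ a : OQ L → ℝ, (∀ u, |a u| ≤ 1) → ∀ P, |α a P| ≤ 1 := by
    intro a ha P
    change |if h : (2 : 𝓞 L) ∉ (a7a_pi (L := L) P.1).asIdeal ∧ (7 : 𝓞 L) ∉ (a7a_pi (L := L) P.1).asIdeal then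
      a ⟨a7a_pi (L := L) P.1, h⟩ else 0| ≤ 1
    split_ifs with h
    · exact ha _
    · rw [abs_zero]
      exact zero_le_one
  have hmain := hbil Y₁ Y₂ hY1 hY12 (U.map (Φ φ hφ)) (V.map (Φ ψ hψ))
    (fun P hP => by
      obtain ⟨u, hu, rfl⟩ := Finset.mem_map.1 hP
      have h1 : absNorm (φ u).asIdeal = absNorm u.1.asIdeal := split_norm D (kL_zero (hkU u hu)) (hφ u)
      change ((absNorm (φ u).asIdeal : ℕ) : ℝ) ≤ Y₁
      rw [h1]
      exact hU u hu)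
    (fun P hP => by
      obtain ⟨v, hv, rfl⟩ := Finset.mem_map.1 hP
      have h1 : absNorm (ψ v).asIdeal = absNorm v.1.asIdeal := split_norm D (kL_zero (hkV v hv)) (hψ v)
      change ((absNorm (ψ v).asIdeal : ℕ) : ℝ) ≤ Y₂
      rw [h1]
      exact hV v hv) (α a) (α b) (hα a ha) (hα b hb)
  rw [Finset.sum_map] at hmain
  have e : ∑ u ∈ U, ∑ v ∈ V, a u * b v * (if φ u = ψ v then 0 else if TRG.aM z (φ u) (ψ v) = 0 then (1 : ℝ) else -1) =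
      ∑ u ∈ U, ∑ Q ∈ V.map (Φ ψ hψ), α a (Φ φ hφ u) * α b Q *
        (if Φ φ hφ u = Q then 0 else if TRG.aM z (Φ φ hφ u).1 Q.1 = 0 then (1 : ℝ) else -1) := by
    refine Finset.sum_congr rfl fun u _ => ?_
    rw [Finset.sum_map]
    refine Finset.sum_congr rfl fun v _ => ?_
    rw [hα1 a φ hφ, hα1 b ψ hψ]
    congr 1
    by_cases h : φ u = ψ v
    · rw [if_pos h, if_pos (Subtype.ext h)]
    · rw [if_neg h, if_neg fun h' => h (congrArg Subtype.val h')]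
      rfl
  rw [e]
  exact hmain

/-- [RA2b] bilinear sums for `m` and `m + w` on the split primes -/
theorem bilm_L {s : Bool} {z : HeightOneSpectrum (𝓞 M) → 𝓞 M}
    (hz : ∀ P, (2 : 𝓞 M) ∉ P.asIdeal → NG D s P (z P)) {n : HeightOneSpectrum (𝓞 L) → 𝓞 L}
    (hn : ∀ v : OQ L, NL v.1 (n v.1)) {Pv : OQ L → HeightOneSpectrum (𝓞 M)} (hP : Above Pv) :
    ∃ C δ : ℝ, 0 < C ∧ 0 < δ ∧ δ ≤ 1 ∧
    ∀ e : ZMod 2, ∀ Y₁ Y₂ : ℝ, 1 ≤ Y₁ → Y₁ ≤ Y₂ → ∀ U V : Finset (OQ L), (∀ u ∈ U, kL u = 0) → (∀ v ∈ V, kL v = 0) →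
    (∀ u ∈ U, (absNorm u.1.asIdeal : ℝ) ≤ Y₁) →
    (∀ v ∈ V, (absNorm v.1.asIdeal : ℝ) ≤ Y₂) → ∀ a b : OQ L → ℝ, (∀ u, |a u| ≤ 1) → (∀ v, |b v| ≤ 1) →
    |∑ u ∈ U, ∑ v ∈ V, a u * b v * (if u = v then 0 else if mL D z Pv u v + e * wL n u v = 0 then 1 else -1)| ≤
      C * Y₁ ^ (1 - δ) * Y₂ := by
  obtain ⟨C0, hC0, hcard⟩ := TRN.card_prb_le L
  obtain ⟨C, δ, hC, hδ, hδ1, hbil⟩ := bil_push hD hz
  have hPc : Above fun u : OQ L => u6_conj D (Pv u) := fun u => (pi_conj D _).trans (hP u)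
  refine ⟨C + C0, δ, by positivity, hδ, hδ1, fun e Y₁ Y₂ hY1 hY12 U V hkU hkV hU hV a b ha hb => ?_⟩
  have hY0 : 0 < Y₁ := by linarith
  have hpos : 0 ≤ Y₁ ^ (1 - δ) * Y₂ := mul_nonneg (Real.rpow_nonneg hY0.le _) (by linarith)
  have he : e = 0 ∨ e = 1 := by
    revert e
    decide
  rcases he with rfl | rfl
  · -- `m`
    have hmain := hbil (fun u : OQ L => u6_conj D (Pv u)) Pv hPc hP Y₁ Y₂ hY1 hY12 U V hkU hkV hU hV a b ha hb
    have hUc : (U.card : ℝ) ≤ C0 * Y₁ := by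
      have h1 : (U.card : ℝ) ≤ C0 * (⌊Y₁⌋₊ : ℝ) := by
        refine le_trans ?_ (hcard ⌊Y₁⌋₊)
        rw [← Finset.card_map (Function.Embedding.subtype _)]
        exact_mod_cast Finset.card_le_card fun P hP => by
          obtain ⟨u, hu, rfl⟩ := Finset.mem_map.1 hP
          exact (TRN.mem_prb L).2 (Nat.le_floor (hU u hu))
      exact h1.trans (mul_le_mul_of_nonneg_left (Nat.floor_le (by linarith)) hC0.le)
    have hYY : Y₁ ≤ Y₁ ^ (1 - δ) * Y₂ := by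
      have h1 : Y₁ = Y₁ ^ (1 - δ) * Y₁ ^ δ := by
        rw [← Real.rpow_add hY0, sub_add_cancel, Real.rpow_one]
      have h2 : Y₁ ^ δ ≤ Y₂ := by
        refine le_trans ?_ hY12
        calc Y₁ ^ δ ≤ Y₁ ^ (1 : ℝ) := Real.rpow_le_rpow_of_exponent_le hY1 hδ1
          _ = Y₁ := Real.rpow_one _
      calc Y₁ = Y₁ ^ (1 - δ) * Y₁ ^ δ := h1
        _ ≤ _ := mul_le_mul_of_nonneg_left h2 (Real.rpow_nonneg hY0.le _)
    -- the difference of the two sums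
    have hdiff : ∑ u ∈ U, ∑ v ∈ V, a u * b v *
          (if u6_conj D (Pv u) = Pv v then 0 else if TRG.aM z (u6_conj D (Pv u)) (Pv v) = 0 then (1 : ℝ) else -1) =
        ∑ u ∈ U, ∑ v ∈ V, a u * b v * (if u = v then 0 else if mL D z Pv u v + 0 * wL n u v = 0 then (1 : ℝ) else -1) +
        ∑ u ∈ U, (if u ∈ V then a u * b u * (if TRG.aM z (u6_conj D (Pv u)) (Pv u) = 0 then (1 : ℝ) else -1) else 0) := by
      rw [← Finset.sum_add_distrib]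
      refine Finset.sum_congr rfl fun u hu => ?_
      have h1 : ∀ v ∈ V, a u * b v *
          (if u6_conj D (Pv u) = Pv v then 0 else if TRG.aM z (u6_conj D (Pv u)) (Pv v) = 0 then (1 : ℝ) else -1) =
        a u * b v * (if u = v then 0 else if mL D z Pv u v + 0 * wL n u v = 0 then (1 : ℝ) else -1) +
          (if u = v then a u * b u * (if TRG.aM z (u6_conj D (Pv u)) (Pv u) = 0 then (1 : ℝ) else -1) else 0) := by
        intro v hv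
        have h2 : u6_conj D (Pv u) ≠ Pv v := by
          intro h
          have h3 : u = v := Subtype.ext (by rw [← hP v, ← h, pi_conj, hP u])
          rw [← h3] at h
          exact split_conj_ne D (kL_zero (hkU u hu)) (hP u) h
        rw [if_neg h2]
        by_cases huv : u = v
        · rw [if_pos huv, if_pos huv, mul_zero, zero_add, huv]
        · rw [if_neg huv, if_neg huv, add_zero, zero_mul, add_zero]
          rfl
      rw [Finset.sum_congr rfl h1, Finset.sum_add_distrib, Finset.sum_ite_eq]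
    have hd2 : |∑ u ∈ U, (if u ∈ V then a u * b u * (if TRG.aM z (u6_conj D (Pv u)) (Pv u) = 0 then (1 : ℝ) else -1) else 0)| ≤
        C0 * Y₁ := by
      refine (Finset.abs_sum_le_sum_abs _ _).trans (le_trans ?_ hUc)
      rw [Finset.card_eq_sum_ones, Nat.cast_sum]
      refine Finset.sum_le_sum fun u _ => ?_
      rw [Nat.cast_one]
      split_ifs
      · rw [mul_one, abs_mul]
        exact mul_le_one₀ (ha u) (abs_nonneg _) (hb u)
      · rw [mul_neg, mul_one, abs_neg, abs_mul]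
        exact mul_le_one₀ (ha u) (abs_nonneg _) (hb u)
      · rw [abs_zero]
        exact zero_le_one
    rw [hdiff] at hmain
    have h3 := abs_le.1 hmain
    have h4 := abs_le.1 hd2
    have h5 : C0 * Y₁ ≤ C0 * (Y₁ ^ (1 - δ) * Y₂) := mul_le_mul_of_nonneg_left hYY hC0.le
    rw [abs_le]
    constructor
    · linarith [h3.1, h4.2]
    · linarith [h3.2, h4.1]
  · -- `m + w`
    have hmain := hbil (fun u : OQ L => u6_conj D (Pv u)) (fun u : OQ L => u6_conj D (Pv u)) hPc hPc Y₁ Y₂ hY1 hY12 U V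
      hkU hkV hU hV a b ha hb
    have e1 : ∑ u ∈ U, ∑ v ∈ V, a u * b v * (if u = v then 0 else if mL D z Pv u v + 1 * wL n u v = 0 then (1 : ℝ) else -1) =
        ∑ u ∈ U, ∑ v ∈ V, a u * b v * (if u6_conj D (Pv u) = u6_conj D (Pv v) then 0 else
          if TRG.aM z (u6_conj D (Pv u)) (u6_conj D (Pv v)) = 0 then (1 : ℝ) else -1) := by
      refine Finset.sum_congr rfl fun u hu => Finset.sum_congr rfl fun v hv => ?_
      congr 1
      by_cases huv : u = v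
      · rw [if_pos huv, if_pos (by rw [huv])]
      · have h2 : u6_conj D (Pv u) ≠ u6_conj D (Pv v) := by
          intro h
          exact huv (Subtype.ext (by rw [← hP v, ← hP u, ← pi_conj D (Pv u), h, pi_conj]))
        rw [if_neg huv, if_neg h2, one_mul, mw_eq hD hz hn hP (hkU u hu) (hkV v hv) huv]
    rw [e1]
    refine hmain.trans ?_
    rw [mul_assoc, mul_assoc]
    exact mul_le_mul_of_nonneg_right (by linarith) hpos

/-- both bilinear sums with common constants (the form of `RSys`) -/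
theorem bil_both {s : Bool} {z : HeightOneSpectrum (𝓞 M) → 𝓞 M}
    (hz : ∀ P, (2 : 𝓞 M) ∉ P.asIdeal → NG D s P (z P)) {n : HeightOneSpectrum (𝓞 L) → 𝓞 L}
    (hn : ∀ v : OQ L, NL v.1 (n v.1)) {Pv : OQ L → HeightOneSpectrum (𝓞 M)} (hP : Above Pv) :
    ∃ C δ : ℝ, 0 < C ∧ 0 < δ ∧ δ ≤ 1 ∧ ∀ C' : ℝ, C ≤ C' →
    (∀ Y₁ Y₂ : ℝ, 1 ≤ Y₁ → Y₁ ≤ Y₂ → ∀ U V : Finset (OQ L), (∀ u ∈ U, (absNorm u.1.asIdeal : ℝ) ≤ Y₁) →
    (∀ v ∈ V, (absNorm v.1.asIdeal : ℝ) ≤ Y₂) → ∀ a b : OQ L → ℝ, (∀ u, |a u| ≤ 1) → (∀ v, |b v| ≤ 1) →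
    |∑ u ∈ U, ∑ v ∈ V, a u * b v * (if u = v then 0 else if wL n u v = 0 then 1 else -1)| ≤ C' * Y₁ ^ (1 - δ) * Y₂) ∧
    (∀ e : ZMod 2, ∀ Y₁ Y₂ : ℝ, 1 ≤ Y₁ → Y₁ ≤ Y₂ → ∀ U V : Finset (OQ L), (∀ u ∈ U, kL u = 0) → (∀ v ∈ V, kL v = 0) →
    (∀ u ∈ U, (absNorm u.1.asIdeal : ℝ) ≤ Y₁) →
    (∀ v ∈ V, (absNorm v.1.asIdeal : ℝ) ≤ Y₂) → ∀ a b : OQ L → ℝ, (∀ u, |a u| ≤ 1) → (∀ v, |b v| ≤ 1) →
    |∑ u ∈ U, ∑ v ∈ V, a u * b v * (if u = v then 0 else if mL D z Pv u v + e * wL n u v = 0 then 1 else -1)| ≤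
      C' * Y₁ ^ (1 - δ) * Y₂) := by
  obtain ⟨C1, δ1, hC1, hδ1, hδ11, h1⟩ := bil_L hD hn
  obtain ⟨C2, δ2, hC2, hδ2, hδ21, h2⟩ := bilm_L hD hz hn hP
  have key : ∀ C δ' C' : ℝ, 0 < C → C ≤ C' → min δ1 δ2 ≤ δ' → ∀ Y₁ Y₂ : ℝ, 1 ≤ Y₁ → Y₁ ≤ Y₂ →
      C * Y₁ ^ (1 - δ') * Y₂ ≤ C' * Y₁ ^ (1 - min δ1 δ2) * Y₂ := by
    intro C δ' C' hC hCC hδ Y₁ Y₂ hY1 hY12
    have h3 : Y₁ ^ (1 - δ') ≤ Y₁ ^ (1 - min δ1 δ2) := Real.rpow_le_rpow_of_exponent_le hY1 (by linarith)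
    have h4 : 0 ≤ Y₁ ^ (1 - δ') := Real.rpow_nonneg (by linarith) _
    exact mul_le_mul_of_nonneg_right (mul_le_mul hCC h3 h4 (by linarith)) (by linarith)
  refine ⟨max C1 C2, min δ1 δ2, lt_max_of_lt_left hC1, lt_min hδ1 hδ2, (min_le_left _ _).trans hδ11, fun C' hC' => ⟨?_, ?_⟩⟩
  · intro Y₁ Y₂ hY1 hY12 U V hU hV a b ha hb
    exact (h1 Y₁ Y₂ hY1 hY12 U V hU hV a b ha hb).trans
      (key C1 δ1 C' hC1 ((le_max_left _ _).trans hC') (min_le_left _ _) Y₁ Y₂ hY1 hY12)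
  · intro e Y₁ Y₂ hY1 hY12 U V hkU hkV hU hV a b ha hb
    exact (h2 e Y₁ Y₂ hY1 hY12 U V hkU hkV hU hV a b ha hb).trans
      (key C2 δ2 C' hC2 ((le_max_right _ _).trans hC') (min_le_right _ _) Y₁ Y₂ hY1 hY12)

end

end TRP
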