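import Pool.Agent.TRP.RA2s
import Pool.Agent.TRP.RA2b
import Pool.Agent.TRP.RA1

/-! [ALLP-RA2] the system of the primes of `L` -/

set_option autoImplicit false

open NumberField Ideal IsDedekindDomain Filter Topology
open scoped Real Classical ComplexConjugate
open TR TRG TTS TU TT TRPR

namespace TRP

section
variable {L M : Type} [Field L] [NumberField L] [Field M] [NumberField M] [Algebra L M]
  [IsTotallyReal L] {D : Dat L M} (hD : Od2 D)

include hD

/-- [RA2] **the system** -/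
theorem exists_rsys {s : Bool} {z : HeightOneSpectrum (𝓞 M) → 𝓞 M} (hz : ∀ P, (2 : 𝓞 M) ∉ P.asIdeal → NG D s P (z P))
    {n : HeightOneSpectrum (𝓞 L) → 𝓞 L} (hn : ∀ v : OQ L, NL v.1 (n v.1)) {Pv : OQ L → HeightOneSpectrum (𝓞 M)} (hP : Above Pv) :
    ∃ B : RSys (OQ L), B.N = (fun v => absNorm v.1.asIdeal) ∧ B.k = kL ∧ B.x = xL ∧ B.τ = tauL ∧
      (∀ v, kL v = 0 → B.rt v = rtL D s Pv v) ∧ B.w = wL n ∧ ∀ u v, kL u = 0 → kL v = 0 → B.m u v = mL D z Pv u v := by
  obtain ⟨C₁, hC₁, hsame, hcheb, hmert⟩ := TRPA.nm_all (rm_fin L) (BOQ L) fun _ => rfl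
  obtain ⟨C₂, hC₂, hmert4⟩ := rm_mert4 (D := D) (BOQ L) fun _ => rfl
  obtain ⟨C₃, δ₃, hC₃, hδ₃, hδ₃1, hbil⟩ := bil_L hD hn
  obtain ⟨C₄, δ₄, hC₄, hδ₄, hδ₄1, hbilm⟩ := bilm_L hD hz hn hP
  obtain ⟨C₅, hC₅, hchrS⟩ := chrS_L hD hn
  obtain ⟨C₆, hC₆, hchrE⟩ := chrE_L hD hn
  let r : Fin (Fintype.card (L →+* ℝ)) ≃ (L →+* ℝ) := (Fintype.equivFin (L →+* ℝ)).symm
  have hmono : ∀ {C' Y₁ Y₂ δ' : ℝ}, 0 ≤ C' → C' ≤ C₁ + C₂ + C₃ + C₄ + C₅ + C₆ → min δ₃ δ₄ ≤ δ' → 1 ≤ Y₁ → Y₁ ≤ Y₂ →
      C' * Y₁ ^ (1 - δ') * Y₂ ≤ (C₁ + C₂ + C₃ + C₄ + C₅ + C₆) * Y₁ ^ (1 - min δ₃ δ₄) * Y₂ := by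
    intro C' Y₁ Y₂ δ' h0 h1 h2 h3 h4
    refine mul_le_mul_of_nonneg_right ?_ (by linarith)
    refine mul_le_mul h1 (Real.rpow_le_rpow_of_exponent_le h3 (by linarith))
      (Real.rpow_nonneg (by linarith) _) (by linarith)
  let B : RSys (OQ L) :=
    { BOQ L with
      β := 1
      C := C₁ + C₂ + C₃ + C₄ + C₅ + C₆
      hβ := one_pos
      hβ1 := le_rfl
      hC := by linarith
      same := fun k S hS => (hsame k S hS).trans (by linarith)
      cheb := fun x hx => (hcheb x hx).trans (mul_le_mul_of_nonneg_right (by linarith) hx)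
      mert := fun x hx => (hmert x hx).trans (by linarith)
      k := kL
      x := xL
      τ := tauL
      rt := rtL D s Pv
      g := Fintype.card (L →+* ℝ)
      sg := sgL r n
      w := wL n
      m := mL D z Pv
      δ := min δ₃ δ₄
      hδ := lt_min hδ₃ hδ₄
      hδ1 := (min_le_left _ _).trans hδ₃1
      rcp := fun u v huv => wL_rcp hD r hn huv
      xs := fun v => xL_eq hD r hn v
      m_symm := fun u v hu hv => mL_symm hD hz hP hu hv
      mert4 := fun i j y hy => (hmert4 i j y hy).trans (by linarith)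
      typ := fun i j => rm_typ hD (BOQ L) (fun _ => rfl) i j
      bil := fun Y₁ Y₂ h1 h2 U V hU hV a b ha hb => by
        refine le_trans (le_of_eq ?_) ((hbil Y₁ Y₂ h1 h2 U V hU hV a b ha hb).trans
          (hmono hC₃.le (by linarith) (min_le_left _ _) h1 h2))
        congr 1
        refine Finset.sum_congr rfl fun u _ => Finset.sum_congr rfl fun v _ => ?_
        congr 1
        by_cases huv : u = v
        · rw [if_pos huv, if_pos huv]
        · rw [if_neg huv, if_neg huv]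
      bilm := fun e Y₁ Y₂ h1 h2 U V hku hkv hU hV a b ha hb => by
        refine le_trans (le_of_eq ?_) ((hbilm e Y₁ Y₂ h1 h2 U V hku hkv hU hV a b ha hb).trans
          (hmono hC₄.le (by linarith) (min_le_right _ _) h1 h2))
        congr 1
        refine Finset.sum_congr rfl fun u _ => Finset.sum_congr rfl fun v _ => ?_
        congr 1
        by_cases huv : u = v
        · rw [if_pos huv, if_pos huv]
        · rw [if_neg huv, if_neg huv]
      chrS := fun A hA x hx => by
        have h0 := hchrS A hA x hx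
        refine le_trans (le_of_eq (Finset.sum_congr ?_ fun _ _ => rfl)) (le_trans h0 (add_le_add le_rfl (by linarith)))
        ext v
        simp only [Finset.mem_sdiff, Finset.mem_filter]
      chrE := fun A e hA x hx => by
        have h0 := hchrE A e hA x hx
        refine le_trans (le_of_eq (Finset.sum_congr ?_ fun _ _ => rfl)) (le_trans h0 (add_le_add le_rfl (by linarith)))
        ext v
        simp only [Finset.mem_sdiff] }
  exact ⟨B, rfl, rfl, rfl, rfl, fun _ _ => rfl, rfl, fun _ _ _ _ => rfl⟩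

end

end TRP
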