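import Pool.Agent.TRP.Defs3
import Pool.Agent.TRP.NF3
import Pool.Agent.TRG.AS1

/-! # [ALLP-RA3a] the curves over `L` attached to the sets of primes -/

set_option autoImplicit false
set_option linter.unusedSectionVars false

open NumberField Ideal IsDedekindDomain
open scoped Real Classical ComplexConjugate
open TR TRG TTS TU TT XTB

namespace TRP

section
variable {F : Type} [Field F] [NumberField F]

/-- a twist of `X₀(49)` by a local square is isomorphic to `X₀(49)` -/
theorem ra3_loc {d : F} (hd : d ≠ 0) {P : HeightOneSpectrum (𝓞 F)}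
    (h : IsSquare (algebraMap F (P.adicCompletion F) d)) :
    ∃ C1 : WeierstrassCurve.VariableChange (P.adicCompletion F),
      C1 • (Ws d).map (algebraMap F (P.adicCompletion F)) = ⟨1, -1, 0, -2, -1⟩ := by
  have : CharZero (P.adicCompletion F) :=
    charZero_of_injective_algebraMap (algebraMap F (P.adicCompletion F)).injective
  obtain ⟨s, hs⟩ := h
  have hs0 : s ≠ 0 := by
    rintro rfl
    rw [mul_zero, map_eq_zero] at hs
    exact hd hs
  obtain ⟨C3, hC3, -⟩ := Ws_scale (d := (1 : P.adicCompletion F)) hs0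
  obtain ⟨C4, hC4, -⟩ := Wc_eq_Ws (1 : P.adicCompletion F) 0
  have e1 : s ^ 2 * (1 : P.adicCompletion F) = algebraMap F (P.adicCompletion F) d := by
    rw [hs]; ring
  have e2 : (1 : P.adicCompletion F) ^ 2 + 4 * 0 = 1 := by ring
  rw [e1] at hC3
  rw [e2] at hC4
  refine ⟨C4 * C3⁻¹, ?_⟩
  have h1 : (C4 * C3⁻¹) • (Ws d).map (algebraMap F (P.adicCompletion F)) = TT.Wc 1 0 := by
    rw [Ws_map, hC3, hC4, mul_smul, inv_smul_smul]
  rw [h1]
  ext <;> simp [TT.Wc]

/-- bad reduction at an unramified prime above `7` -/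
theorem ra3_bad {d : F} (hd : d ≠ 0) {v : HeightOneSpectrum (𝓞 F)}
    (h7 : v.valuation F (7 : F) = WithZero.exp (-1 : ℤ)) (h2 : v.valuation F (2 : F) = 1) : ¬ GoodAt v (Ws d) := by
  rintro ⟨C, -, -, -, -, -, hΔ⟩
  have hd1 : v.valuation F d ≠ 0 := (map_ne_zero _).2 hd
  have hΔ' := WeierstrassCurve.variableChange_Δ (Ws d) C
  rw [Ws_Δ] at hΔ'
  have hw0 : ((C.u⁻¹ : Fˣ) : F) ≠ 0 := Units.ne_zero _
  generalize ((C.u⁻¹ : Fˣ) : F) = w at hΔ' hw0
  rw [hΔ'] at hΔ
  have e1 : w ^ 12 * (-1404928 * d ^ 6) = -(2 ^ 12 * 7 ^ 3 * (w ^ 12 * d ^ 6)) := by ring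
  have hw1 : v.valuation F w ≠ 0 := (map_ne_zero _).2 hw0
  rw [e1, Valuation.map_neg, map_mul, map_mul, map_mul, map_pow, map_pow, map_pow, map_pow, h2, one_pow,
    h7, one_mul] at hΔ
  have h3 := congrArg WithZero.log hΔ
  rw [WithZero.log_one, WithZero.log_mul (pow_ne_zero _ WithZero.exp_ne_zero)
      (mul_ne_zero (pow_ne_zero _ hw1) (pow_ne_zero _ hd1)),
    WithZero.log_mul (pow_ne_zero _ hw1) (pow_ne_zero _ hd1), WithZero.log_pow, WithZero.log_pow,
    WithZero.log_pow, WithZero.log_exp] at h3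
  simp only [nsmul_eq_mul] at h3
  push_cast at h3
  omega

/-- good reduction away from `7` -/
theorem ra3_good {d : F} (hd : d ≠ 0) {v : HeightOneSpectrum (𝓞 F)} (h7 : (7 : 𝓞 F) ∉ v.asIdeal) :
    GoodAt v (Ws d) ↔ Ur v d := by
  constructor
  · intro hg
    obtain ⟨C1, hC1⟩ := Wd_eq_Ws d
    have e : Ws d = C1⁻¹ • Wd d := by
      rw [hC1, inv_smul_smul]
    rw [e] at hg
    exact ur_of_good h7 hd hg
  · intro h
    have h1 := TRH.h2_good h7 h 1
    rwa [one_smul] at h1

/-- products of elements which are squares modulo `4` -/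
theorem ra3_prod {v : HeightOneSpectrum (𝓞 F)} {ι : Type} (S : Finset ι) (q : ι → F) (h : ∀ u ∈ S, Ur v (q u)) :
    Ur v (∏ u ∈ S, q u) ∧ sg v (∏ u ∈ S, q u) = ∏ u ∈ S, sg v (q u) := by
  induction S using Finset.induction_on with
  | empty =>
    rw [Finset.prod_empty, Finset.prod_empty]
    exact ⟨ur_one, sg_one⟩
  | insert u S huS ih =>
    obtain ⟨h1, h2⟩ := ih fun u hu => h u (Finset.mem_insert_of_mem hu)
    have h3 : Ur v (q u) := h u (Finset.mem_insert_self u S)
    rw [Finset.prod_insert huS, Finset.prod_insert huS]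
    exact ⟨h3.mul h1, by rw [sg_mul h3 h1, h2]⟩

end

section
variable {L M : Type} [Field L] [NumberField L] [Field M] [NumberField M] [Algebra L M]
  [IsTotallyReal L] {D : Dat L M} (hD : Od2 D)
include hD

/-- [RA3a] a set `S` of primes with `∏ (2 / v) = 1` is the set of the bad primes not above `7` of a curve which is isomorphic to `X₀(49)` at `2`:
`d = ∏ π_v` is a square modulo `4` and, by reciprocity `(2 / d)`, modulo `8`. (It has also bad reduction at `7`.) -/
theorem exists_curve_L {n : HeightOneSpectrum (𝓞 L) → 𝓞 L} (hn : ∀ v : OQ L, NL v.1 (n v.1)) (S : Finset (OQ L))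
    (hS : ∑ v ∈ S, tauL v = 0) : ∃ E : WeierstrassCurve L, TwoCurve E ∧
      ∀ v : HeightOneSpectrum (𝓞 L), ¬ XTS.GoodReduction E v ↔ (7 : 𝓞 L) ∈ v.asIdeal ∨ ∃ u ∈ S, v = u.1 := by
  -- the generators
  have hne : ∀ u : OQ L, n u.1 ≠ 0 := by
    intro u h0
    obtain ⟨⟨k, hk, hq⟩, -⟩ := hn u
    rw [h0, Ideal.span_singleton_eq_bot.2 rfl] at hq
    exact pow_ne_zero k u.1.ne_bot hq.symm
  have hnotmem : ∀ (u : OQ L) (v : HeightOneSpectrum (𝓞 L)), v ≠ u.1 → n u.1 ∉ v.asIdeal := by
    intro u v hv hq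
    obtain ⟨⟨k, hk, hk2⟩, -⟩ := hn u
    have h1 : u.1.asIdeal ^ k ≤ v.asIdeal := by
      rw [← hk2, Ideal.span_singleton_le_iff_mem]
      exact hq
    have h2 : u.1.asIdeal ≤ v.asIdeal := v.isPrime.le_of_pow_le h1
    exact hv (HeightOneSpectrum.ext (u.1.isMaximal.eq_of_le v.isPrime.ne_top h2)).symm
  have hform : ∀ u : OQ L, ∃ t c : 𝓞 L, n u.1 = t ^ 2 + 4 * c := by
    intro u
    obtain ⟨-, t, c, -, h⟩ := hn u
    exact ⟨t, c, by rw [Units.val_one, one_mul] at h; exact h⟩
  have hur : ∀ (u : OQ L) (v : HeightOneSpectrum (𝓞 L)), v ≠ u.1 → Ur v ((n u.1 : 𝓞 L) : L) := by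
    intro u v hv
    obtain ⟨t, c, h⟩ := hform u
    exact ⟨1, t, c, one_ne_zero, by rw [one_pow, one_mul, h], by rw [← h]; exact hnotmem u v hv⟩
  set d : L := ∏ u ∈ S, ((n u.1 : 𝓞 L) : L) with hd
  have hd0 : d ≠ 0 := Finset.prod_ne_zero_iff.2 fun u _ => RingOfIntegers.coe_ne_zero_iff.2 (hne u)
  -- the primes above `2`
  have htwo : ∀ v : HeightOneSpectrum (𝓞 L), (2 : 𝓞 L) ∈ v.asIdeal →
      IsSquare (algebraMap L (v.adicCompletion L) d) := by
    intro v hv
    have hvu : ∀ u : OQ L, v ≠ u.1 := by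
      rintro u rfl
      exact u.2.1 hv
    have hv2 : v.asIdeal = span {(2 : 𝓞 L)} := by
      have h1 : span {(2 : 𝓞 L)} ≤ v.asIdeal := (Ideal.span_singleton_le_iff_mem _).2 hv
      have h2 : (span {(2 : 𝓞 L)}).IsMaximal := Ring.DimensionLEOne.maximalOfPrime (by
        rw [Ne, Ideal.span_singleton_eq_bot]
        exact two_ne_zero) hD.two
      exact (h2.eq_of_le v.isPrime.ne_top h1).symm
    have hsg : ∀ u ∈ S, sg v ((n u.1 : 𝓞 L) : L) = TT.qr u.1 2 := by
      intro u _
      obtain ⟨⟨k, hk, hq⟩, -⟩ := hn u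
      obtain ⟨t, c, h⟩ := hform u
      have hmem : t ^ 2 + 4 * c ∉ v.asIdeal := by
        rw [← h]
        exact hnotmem u v (hvu u)
      rw [h, sg_int hmem]
      have hA : TRB.AdmG k t c {u.1} := by
        refine ⟨hk, ?_, ?_, ?_⟩
        · rw [Finset.prod_singleton, ← h, hq]
        · intro w hw
          rw [Finset.mem_singleton] at hw
          rw [hw]
          exact u.2.1
        · intro w hw
          rw [Finset.mem_singleton] at hw
          rw [hw]
          exact u.2.2
      have h1 := reciprocityG D.odd_classNumber hA v hmem (α := 2) (fun j => by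
        rw [show ((2 : 𝓞 L) : L) = 2 from map_ofNat (algebraMap (𝓞 L) L) 2, map_ofNat]
        norm_num) odd_one (by rw [pow_one, hv2])
      rw [Finset.prod_singleton] at h1
      exact h1.symm
    have h1 := (ra3_prod S (fun u : OQ L => ((n u.1 : 𝓞 L) : L)) (v := v) fun u _ => hur u v (hvu u)).2
    rw [Finset.prod_congr rfl hsg] at h1
    have h2 : ∀ u : OQ L, TT.qr u.1 2 = (-1) ^ (tauL u).val := by
      intro u
      unfold tauL
      rcases TT.qr_cases u.1 2 with h | h | h
      · exact absurd ((TT.qr_eq_zero u.1).1 h) u.2.1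
      · rw [h, if_neg (by norm_num)]
        simp
      · rw [h, if_pos rfl]
        simp [ZMod.val_one]
    have h3 : ∏ u ∈ S, TT.qr u.1 2 = 1 := by
      rw [Finset.prod_congr rfl fun u _ => h2 u, Finset.prod_pow_eq_pow_sum]
      have h4 : Even (∑ u ∈ S, (tauL u).val) := by
        rw [← ZMod.natCast_eq_zero_iff_even, Nat.cast_sum]
        rw [← hS]
        refine Finset.sum_congr rfl fun u _ => ?_
        exact ZMod.natCast_zmod_val _
      exact h4.neg_one_pow
    rw [h3] at h1
    exact TRX.isSquare_of_Sq v (sg_eq_one_iff.1 h1)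
  refine ⟨Ws d, ⟨?_, fun P hP => ra3_loc hd0 (htwo P hP)⟩, fun v => ?_⟩
  · have h1 := nf3_j hd0 1
    rwa [one_smul] at h1
  · show ¬ GoodAt v (Ws d) ↔ _
    by_cases h7 : (7 : 𝓞 L) ∈ v.asIdeal
    · refine ⟨fun _ => Or.inl h7, fun _ => ?_⟩
      have hvs : v.asIdeal = span {(7 : 𝓞 L)} := (D.above_seven.1 v).1 h7
      have h70 : (7 : 𝓞 L) ≠ 0 := by norm_num
      apply ra3_bad hd0
      · have h1 : ((7 : 𝓞 L) : L) = 7 := map_ofNat (algebraMap (𝓞 L) L) 7
        rw [← h1, HeightOneSpectrum.valuation_of_algebraMap]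
        exact HeightOneSpectrum.intValuation_singleton v h70 hvs
      · have h3 : (2 : 𝓞 L) ∉ v.asIdeal := by
          intro h4
          apply v.isPrime.ne_top
          rw [Ideal.eq_top_iff_one]
          have e : (1 : 𝓞 L) = 7 - 3 * 2 := by norm_num
          rw [e]
          exact Ideal.sub_mem _ h7 (Ideal.mul_mem_left _ _ h4)
        have h5 : ((2 : 𝓞 L) : L) = 2 := map_ofNat (algebraMap (𝓞 L) L) 2
        rw [← h5, HeightOneSpectrum.valuation_of_algebraMap]
        exact HeightOneSpectrum.intValuation_eq_one_iff.2 h3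
    · rw [ra3_good hd0 h7]
      constructor
      · intro h
        right
        by_contra hcon
        push Not at hcon
        apply h
        exact (ra3_prod S (fun u : OQ L => ((n u.1 : 𝓞 L) : L)) fun u hu => hur u v (hcon u hu)).1
      · rintro (h | ⟨u, hu, rfl⟩)
        · exact absurd h h7
        · intro h
          have h1 := h.val
          rw [hd, ← Finset.mul_prod_erase S _ hu, map_mul] at h1
          have h2 : u.1.valuation L (∏ w ∈ S.erase u, ((n w.1 : 𝓞 L) : L)) = 1 := by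
            rw [map_prod]
            refine Finset.prod_eq_one fun w hw => ?_
            refine (u.1.valuation_eq_one_iff_notMem (K := L)).2 (hnotmem w u.1 ?_)
            intro h3
            exact (Finset.mem_erase.1 hw).1 (Subtype.ext h3.symm)
          rw [h2, mul_one] at h1
          obtain ⟨⟨k, hk, hq⟩, -⟩ := hn u
          obtain ⟨h4, h5⟩ := n2_exact (S := {u.1}) (h := k) (δ := n u.1) (by rw [Finset.prod_singleton, hq]) u.1
            (Finset.mem_singleton_self _)
          exact n2_not_sq hk u.1 h4 h5 h1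

end

end TRP
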