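import Pool.Agent.TRP.RL
import Pool.Agent.TRP.FM3a
import Pool.Agent.TRP.RA2
import Pool.Agent.TRP.RA3a
import Pool.Agent.TRP.LE
import Pool.Agent.TRP.RA1
import Pool.Agent.TRP.RP5

/-! # [ALLP-RA4] a positive proportion of all curves with `j = -3375` over `L` -/

set_option autoImplicit false

open NumberField Ideal IsDedekindDomain Filter Topology
open scoped Real Classical ComplexConjugate
open TR TRG TTS TU TT XTB TRPR Pool.Agent.TRG

namespace TRP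

section
variable {K : Type} [Field K] [NumberField K]

/-- the product of the norms of the bad primes -/
theorem ra_badProd {E : WeierstrassCurve K} {S : Finset (HeightOneSpectrum (𝓞 K))}
    (hS : ∀ P, P ∈ S ↔ ¬ XTS.GoodReduction E P) :
    badProd E = ∏ P ∈ S, absNorm P.asIdeal := by
  unfold badProd
  rw [finprod_subtype_eq_finprod_cond (f := fun P : HeightOneSpectrum (𝓞 K) => absNorm P.asIdeal)
    (fun P => ¬ XTS.GoodReduction E P), ← finprod_mem_coe_finset]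
  refine finprod_congr fun P => ?_
  have h1 : (¬ XTS.GoodReduction E P) = (P ∈ (S : Set (HeightOneSpectrum (𝓞 K)))) := by
    rw [Finset.mem_coe]
    exact propext (hS P).symm
  rw [h1]

/-- isomorphic curves have the same bad primes -/
theorem ra_good {E : WeierstrassCurve K} (C : WeierstrassCurve.VariableChange K) {P : HeightOneSpectrum (𝓞 K)}
    (h : XTS.GoodReduction E P) : XTS.GoodReduction (C • E) P := by
  obtain ⟨C', h1⟩ := h
  refine ⟨C' * C⁻¹, ?_⟩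
  have h2 : (C' * C⁻¹) • (C • E) = C' • E := by
    rw [← mul_smul, mul_assoc, inv_mul_cancel, mul_one]
  rw [h2]
  exact h1

theorem ra_good_iff {E : WeierstrassCurve K} (C : WeierstrassCurve.VariableChange K) {P : HeightOneSpectrum (𝓞 K)} :
    XTS.GoodReduction (C • E) P ↔ XTS.GoodReduction E P := by
  refine ⟨fun h => ?_, ra_good C⟩
  have h1 := ra_good C⁻¹ h
  rwa [inv_smul_smul] at h1

end

section
variable {L M : Type} [Field L] [NumberField L] [Field M] [NumberField M] [Algebra L M]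
  [IsTotallyReal L] {D : Dat L M} (hD : Od2 D)
include hD

/-- the Selmer side in terms of the bad primes over `L` -/
theorem ra_iff {s : Bool} {z : HeightOneSpectrum (𝓞 M) → 𝓞 M} (hz : ∀ P, (2 : 𝓞 M) ∉ P.asIdeal → NG D s P (z P))
    {E : WeierstrassCurve L} (hE : TwoCurve E) {S : Finset (OQ L)}
    (hS : ∀ v : HeightOneSpectrum (𝓞 L), ¬ XTS.GoodReduction E v ↔ (7 : 𝓞 L) ∈ v.asIdeal ∨ ∃ u ∈ S, v = u.1) :
    ∃ SM : Finset (HeightOneSpectrum (𝓞 M)), (∀ P, P ∈ SM ↔ ∃ v ∈ S, a7a_pi (L := L) P = v.1) ∧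
      (TRB.FiniteSha E ↔ f (aM z) (bQ D s) SM ≠ 0) := by
  obtain ⟨hell, hj⟩ := hE.j_eq
  obtain ⟨d, k, t, c, S', C, C', hNG, -, hC, hC', hbad⟩ := TRB.exists_NG (TRB.ofTR D) D.hodd E hj (by
    intro v h2
    obtain ⟨d, C, -, hd, hC, -⟩ := exists_Ws E hj
    have h7 : (7 : 𝓞 L) ∉ v.asIdeal := by
      intro h7
      apply v.isPrime.ne_top
      rw [Ideal.eq_top_iff_one]
      have h3 : (1 : 𝓞 L) = 7 - 3 * 2 := by norm_num
      rw [h3]
      exact Ideal.sub_mem _ h7 (Ideal.mul_mem_left _ _ h2)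
    rw [hC]
    exact TRH.h2_good h7 (TRX.Sq_of_isSquare v hd (rl_loc hE hC v h2)).ur C)
  obtain ⟨SM, hSM, H⟩ := rl_ds D hNG (rl_loc hE hC)
  have hSS : ∀ v : HeightOneSpectrum (𝓞 L), v ∈ S' ↔ ∃ u ∈ S, v = u.1 := by
    intro v
    constructor
    · intro hv
      rcases (hS v).1 (hbad v hv) with h | h
      · exact absurd h (hNG.adm.seven v hv)
      · exact h
    · rintro ⟨u, hu, rfl⟩
      by_contra hv
      refine (hS u.1).2 (Or.inr ⟨u, hu, rfl⟩) ?_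
      rw [hC]
      exact TRH.h2_good u.2.2 (hNG.sg.ur u.1 hv u.2.2) C
  refine ⟨SM, fun P => ?_, ?_⟩
  · rw [hSM, hSS]
  · rw [hC, rl_finiteSha (TRB.ofTR D) hNG.ne C 1]
    exact finiteSha_iff_D hD H (fun P hP => hz P (H.two P hP)) _

omit hD in
/-- the prime above `7` and the sets of primes -/
theorem ra_seven (D : Dat L M) : ∃ K : ℕ, 0 < K ∧ ∀ (E : WeierstrassCurve L) (S : Finset (OQ L)),
    (∀ v : HeightOneSpectrum (𝓞 L), ¬ XTS.GoodReduction E v ↔ (7 : 𝓞 L) ∈ v.asIdeal ∨ ∃ u ∈ S, v = u.1) →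
    badProd E = K * ∏ v ∈ S, absNorm v.1.asIdeal := by
  obtain ⟨s, hs7, -, huniq⟩ := TRB.f4_s (TRB.ofTR D)
  refine ⟨absNorm s.asIdeal, absNorm_pos s.ne_bot, fun E S hS => ?_⟩
  have hmap : ∀ P, P ∈ S.map (⟨Subtype.val, Subtype.val_injective⟩ : OQ L ↪ HeightOneSpectrum (𝓞 L)) ↔ ∃ u ∈ S, P = u.1 := by
    intro P
    rw [Finset.mem_map]
    constructor
    · rintro ⟨u, hu, rfl⟩
      exact ⟨u, hu, rfl⟩
    · rintro ⟨u, hu, rfl⟩
      exact ⟨u, hu, rfl⟩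
  have hns : s ∉ S.map (⟨Subtype.val, Subtype.val_injective⟩ : OQ L ↪ HeightOneSpectrum (𝓞 L)) := by
    rw [hmap]
    rintro ⟨u, -, hu⟩
    rw [hu] at hs7
    exact u.2.2 hs7
  rw [ra_badProd (S := insert s (S.map ⟨Subtype.val, Subtype.val_injective⟩)), Finset.prod_insert hns,
    Finset.prod_map]
  · rfl
  · intro P
    rw [Finset.mem_insert, hmap, hS]
    constructor
    · rintro (rfl | h)
      · exact Or.inl hs7
      · exact Or.inr h
    · rintro (h | h)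
      · exact Or.inl (huniq P h)
      · exact Or.inr h

/-- the lower bound -/
theorem ra_lower : ∃ κ X₀ : ℝ, 0 < κ ∧ ∃ B : TRPA.MSys (OQ L), B.N = (fun v => absNorm v.1.asIdeal) ∧ ∀ X : ℕ, X₀ ≤ (X : ℝ) →
    κ * ((B.sb (X : ℝ)).card : ℝ) ≤ ((cmFamily L X fun E => TwoCurve E ∧ TRB.FiniteSha E).ncard : ℝ) := by
  obtain ⟨z, hz⟩ : ∃ z : HeightOneSpectrum (𝓞 M) → 𝓞 M, ∀ P, (2 : 𝓞 M) ∉ P.asIdeal → NG D false P (z P) := by
    have h : ∀ P : HeightOneSpectrum (𝓞 M), (2 : 𝓞 M) ∉ P.asIdeal → ∃ q, NG D false P q :=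
      fun P hP => exists_NG hD false hP
    choose! z hz using h
    exact ⟨z, hz⟩
  obtain ⟨n, hn⟩ : ∃ n : HeightOneSpectrum (𝓞 L) → 𝓞 L, ∀ v : OQ L, NL v.1 (n v.1) := by
    have h : ∀ v : HeightOneSpectrum (𝓞 L), (2 : 𝓞 L) ∉ v.asIdeal → ∃ q, NL v q :=
      fun v hv => exists_NL hD hv
    choose! n hn using h
    exact ⟨n, fun v => hn v.1 v.2.1⟩
  obtain ⟨Pv, hPv⟩ := exists_Pv D
  obtain ⟨B, hN, hk, hx, hτ, hrt, hw, hm⟩ := exists_rsys hD hz hn hPv
  obtain ⟨κ, X₁, hκ, h1⟩ := real_pos B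
  obtain ⟨K, hK, hbp⟩ := ra_seven (L := L) (M := M) D
  have hK1 : (1 : ℝ) ≤ K := by exact_mod_cast hK
  obtain ⟨κ', X₂, hκ', h2⟩ := TRPA.sb_div B.toMSys hK1
  obtain ⟨K', hK'⟩ := all_le_L hD (B := B.toBase) hN
  refine ⟨κ * κ', max X₂ (X₁ * K), by positivity, B.toMSys, hN, fun X hX => ?_⟩
  have hX2 : X₂ ≤ (X : ℝ) := (le_max_left _ _).trans hX
  have hX1 : X₁ ≤ (X : ℝ) / K := by
    rw [le_div_iff₀ (by linarith)]
    exact (le_max_right _ _).trans hX
  have h3 := h1 _ hX1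
  have h4 := h2 _ hX2
  -- the curves
  have hex : ∀ S : Finset (OQ L), ∃ E : WeierstrassCurve L, ∑ v ∈ S, tauL v = 0 → (TwoCurve E ∧
      ∀ v : HeightOneSpectrum (𝓞 L), ¬ XTS.GoodReduction E v ↔ (7 : 𝓞 L) ∈ v.asIdeal ∨ ∃ u ∈ S, v = u.1) := by
    intro S
    by_cases hS : ∑ v ∈ S, tauL v = 0
    · obtain ⟨E, hE⟩ := exists_curve_L hD hn S hS
      exact ⟨E, fun _ => hE⟩
    · exact ⟨⟨0, 0, 0, 0, 0⟩, fun h => absurd h hS⟩
  choose E hE using hex
  obtain ⟨cl, hcl⟩ : ∃ cl : Finset (OQ L) →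
      MulAction.orbitRel.Quotient (WeierstrassCurve.VariableChange L) (WeierstrassCurve L),
      ∀ S, cl S = Quotient.mk _ (E S) := ⟨fun S => Quotient.mk _ (E S), fun _ => rfl⟩
  obtain ⟨G, hG⟩ : ∃ G : Finset (Finset (OQ L)), G = (B.sb ((X : ℝ) / K)).filter fun S => ∑ v ∈ S, B.τ v = 0 ∧ HR B S :=
    ⟨_, rfl⟩
  rw [← hG] at h3
  have hmem : ∀ S ∈ G, (B.nS S : ℝ) ≤ X / K ∧ ∑ v ∈ S, tauL v = 0 ∧ HR B S := by
    intro S hS
    rw [hG, Finset.mem_filter, B.mem_sb, hτ] at hS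
    exact hS
  have hsub : (↑(G.image cl) : Set _) ⊆ cmFamily L X fun E => TwoCurve E ∧ TRB.FiniteSha E := by
    intro c hc
    rw [Finset.mem_coe, Finset.mem_image] at hc
    obtain ⟨S, hS, rfl⟩ := hc
    obtain ⟨hS1, hS2, hS3⟩ := hmem S hS
    obtain ⟨hE1, hE2⟩ := hE S hS2
    refine ⟨E S, (hcl S).symm, hE1.j_eq, ?_, hE1, ?_⟩
    · rw [hbp (E S) S hE2]
      have h5 : (B.nS S : ℝ) = ((∏ v ∈ S, absNorm v.1.asIdeal : ℕ) : ℝ) := by
        unfold TRQ.Base.nS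
        rw [hN]
      rw [h5, le_div_iff₀ (by linarith)] at hS1
      rw [mul_comm]
      exact_mod_cast hS1
    · obtain ⟨SM, hSM, hiff⟩ := ra_iff hD hz hE1 hE2
      rw [hiff]
      exact (link_R hD hz hn hPv B hk hx hrt hw hm hSM).1 hS3
  have hinj : Set.InjOn cl ↑G := by
    intro S hS S' hS' h
    obtain ⟨-, hS2, -⟩ := hmem S hS
    obtain ⟨-, hS2', -⟩ := hmem S' hS'
    obtain ⟨-, hE2⟩ := hE S hS2
    obtain ⟨-, hE2'⟩ := hE S' hS2'
    rw [hcl, hcl] at h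
    have h1 : E S ∈ MulAction.orbit (WeierstrassCurve.VariableChange L) (E S') := Quotient.exact h
    obtain ⟨C, hC⟩ := h1
    have hC' : C • E S' = E S := hC
    have h6 : ∀ v : HeightOneSpectrum (𝓞 L), ((7 : 𝓞 L) ∈ v.asIdeal ∨ ∃ u ∈ S, v = u.1) ↔
        ((7 : 𝓞 L) ∈ v.asIdeal ∨ ∃ u ∈ S', v = u.1) := by
      intro v
      rw [← hE2, ← hE2', ← hC', ra_good_iff]
    ext u
    have h7 := h6 u.1
    constructor
    · intro hu
      rcases h7.1 (Or.inr ⟨u, hu, rfl⟩) with h8 | ⟨u', hu', h8⟩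
      · exact absurd h8 u.2.2
      · rwa [Subtype.ext h8]
    · intro hu
      rcases h7.2 (Or.inr ⟨u, hu, rfl⟩) with h8 | ⟨u', hu', h8⟩
      · exact absurd h8 u.2.2
      · rwa [Subtype.ext h8]
  have hfin : (cmFamily L X fun E => TwoCurve E ∧ TRB.FiniteSha E).Finite := by
    refine (hK' X).1.subset ?_
    rintro c ⟨E, h1, h2, h3, -⟩
    exact ⟨E, h1, h2, h3, trivial⟩
  have h5 : G.card ≤ (cmFamily L X fun E => TwoCurve E ∧ TRB.FiniteSha E).ncard := by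
    rw [← Finset.card_image_of_injOn hinj, ← Set.ncard_coe_finset]
    exact Set.ncard_le_ncard hsub hfin
  calc κ * κ' * ((B.sb (X : ℝ)).card : ℝ) = κ * (κ' * ((B.sb (X : ℝ)).card : ℝ)) := by ring
    _ ≤ κ * ((B.sb ((X : ℝ) / K)).card : ℝ) := mul_le_mul_of_nonneg_left h4 hκ.le
    _ ≤ (G.card : ℝ) := h3
    _ ≤ _ := by exact_mod_cast h5

/-- [RA4] **the final theorem over `L`**: a positive proportion -/
theorem real_density :
    (∀ X : ℕ, (cmFamily L X fun _ => True).Finite) ∧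
    Tendsto (fun X : ℕ => (cmFamily L X fun _ => True).ncard) atTop atTop ∧
    ∃ c : ℝ, 0 < c ∧ ∀ᶠ X : ℕ in atTop, c * (cmFamily L X fun _ => True).ncard ≤
      (cmFamily L X fun E => TwoCurve E ∧ TRB.FiniteSha E).ncard := by
  obtain ⟨κ, X₀, hκ, B, hN, h1⟩ := ra_lower hD
  obtain ⟨K, hK⟩ := all_le_L hD (B := B.toBase) hN
  have hnat : Tendsto (fun X : ℕ => (X : ℝ)) atTop atTop := tendsto_natCast_atTop_atTop
  have hmono : ∀ X : ℕ, (cmFamily L X fun E => TwoCurve E ∧ TRB.FiniteSha E).ncard ≤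
      (cmFamily L X fun _ => True).ncard := by
    intro X
    refine Set.ncard_le_ncard ?_ (hK X).1
    rintro c ⟨E, h1, h2, h3, -⟩
    exact ⟨E, h1, h2, h3, trivial⟩
  refine ⟨fun X => (hK X).1, ?_, κ / (K + 1), by positivity, ?_⟩
  · have h3 : Tendsto (fun X : ℕ => κ * ((B.sb (X : ℝ)).card : ℝ)) atTop atTop :=
      ((tendsto_card_sb B).comp hnat).const_mul_atTop hκ
    have h4 : Tendsto (fun X : ℕ => ((cmFamily L X fun _ => True).ncard : ℝ)) atTop atTop := by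
      refine tendsto_atTop_mono' _ ?_ h3
      filter_upwards [hnat.eventually_ge_atTop X₀] with X hX
      refine (h1 X hX).trans ?_
      exact_mod_cast hmono X
    exact tendsto_natCast_atTop_iff.1 h4
  · filter_upwards [hnat.eventually_ge_atTop X₀] with X hX
    have h3 : ((cmFamily L X fun _ => True).ncard : ℝ) ≤ K * ((B.sb (X : ℝ)).card : ℝ) := by
      exact_mod_cast (hK X).2
    have h4 : (0 : ℝ) ≤ ((B.sb (X : ℝ)).card : ℝ) := Nat.cast_nonneg _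
    have h5 : (0 : ℝ) ≤ K := Nat.cast_nonneg _
    calc κ / (K + 1) * ((cmFamily L X fun _ => True).ncard : ℝ) ≤ κ / (K + 1) * (K * ((B.sb (X : ℝ)).card : ℝ)) :=
          mul_le_mul_of_nonneg_left h3 (by positivity)
      _ = κ * ((B.sb (X : ℝ)).card : ℝ) * (K / (K + 1)) := by ring
      _ ≤ κ * ((B.sb (X : ℝ)).card : ℝ) * 1 := by
          refine mul_le_mul_of_nonneg_left ?_ (by positivity)
          rw [div_le_one (by positivity)]
          linarith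
      _ = κ * ((B.sb (X : ℝ)).card : ℝ) := mul_one _
      _ ≤ _ := h1 X hX

end

end TRP
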