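import Pool.Agent.TRP.RA3a
import Pool.Agent.TRP.RL
import Pool.Agent.TRP.LE

/-! # [ALLP-P5f] the curves over `L` which are isomorphic to `X₀(49)` above `2`: the classes -/

set_option autoImplicit false
set_option linter.unusedSectionVars false

open NumberField Ideal IsDedekindDomain
open scoped Real Classical ComplexConjugate
open TR TRG TTS TU TT XTB

namespace TRP

section
variable {L : Type} [Field L] [NumberField L]

/-- the twists: `∏ π_v` and `-7 ∏ π_v` -/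
noncomputable def lfd (n : HeightOneSpectrum (𝓞 L) → 𝓞 L) (S : Finset (OQ L)) (b : Bool) : L :=
  (if b then -7 else 1) * ∏ u ∈ S, ((n u.1 : 𝓞 L) : L)

variable {n : HeightOneSpectrum (𝓞 L) → 𝓞 L} (hn : ∀ v : OQ L, NL v.1 (n v.1))
include hn

theorem lf_ne (u : OQ L) : n u.1 ≠ 0 := by
  intro h0
  obtain ⟨⟨k, hk, hq⟩, -⟩ := hn u
  rw [h0, Ideal.span_singleton_eq_bot.2 rfl] at hq
  exact pow_ne_zero k u.1.ne_bot hq.symm

theorem lf_notMem (u : OQ L) (v : HeightOneSpectrum (𝓞 L)) (hv : v ≠ u.1) : n u.1 ∉ v.asIdeal := by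
  intro hq
  obtain ⟨⟨k, hk, hk2⟩, -⟩ := hn u
  have h1 : u.1.asIdeal ^ k ≤ v.asIdeal := by
    rw [← hk2, Ideal.span_singleton_le_iff_mem]
    exact hq
  have h2 : u.1.asIdeal ≤ v.asIdeal := v.isPrime.le_of_pow_le h1
  exact hv (HeightOneSpectrum.ext (u.1.isMaximal.eq_of_le v.isPrime.ne_top h2)).symm

theorem lf_form (u : OQ L) : ∃ t c : 𝓞 L, n u.1 = t ^ 2 + 4 * c := by
  obtain ⟨-, t, c, -, h⟩ := hn u
  exact ⟨t, c, by rw [Units.val_one, one_mul] at h; exact h⟩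

theorem lf_ur (u : OQ L) (v : HeightOneSpectrum (𝓞 L)) (hv : v ≠ u.1) : Ur v ((n u.1 : 𝓞 L) : L) := by
  obtain ⟨t, c, h⟩ := lf_form hn u
  exact ⟨1, t, c, one_ne_zero, by rw [one_pow, one_mul, h], by rw [← h]; exact lf_notMem hn u v hv⟩

theorem lf_prod_ne (S : Finset (OQ L)) : ∏ u ∈ S, ((n u.1 : 𝓞 L) : L) ≠ 0 :=
  Finset.prod_ne_zero_iff.2 fun u _ => RingOfIntegers.coe_ne_zero_iff.2 (lf_ne hn u)

theorem lfd_ne (S : Finset (OQ L)) (b : Bool) : lfd n S b ≠ 0 := by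
  refine mul_ne_zero ?_ (lf_prod_ne hn S)
  cases b
  · exact one_ne_zero
  · exact neg_ne_zero.2 (by norm_num)

omit hn in
theorem lfe_ur (b : Bool) {v : HeightOneSpectrum (𝓞 L)} (h7 : (7 : 𝓞 L) ∉ v.asIdeal) :
    Ur v ((if b then -7 else 1 : L)) := by
  cases b
  · exact ur_one
  · exact ur_neg_seven h7

theorem lfd_ur {S : Finset (OQ L)} (b : Bool) {v : HeightOneSpectrum (𝓞 L)} (h7 : (7 : 𝓞 L) ∉ v.asIdeal)
    (hv : ∀ u ∈ S, v ≠ u.1) : Ur v (lfd n S b) :=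
  (lfe_ur b h7).mul (ra3_prod S (fun u : OQ L => ((n u.1 : 𝓞 L) : L)) fun u hu => lf_ur hn u v (hv u hu)).1

theorem lfd_od {S : Finset (OQ L)} (b : Bool) {u : OQ L} (hu : u ∈ S) : ¬ IsSquare (u.1.valuation L (lfd n S b)) := by
  intro h1
  have h7 : u.1.valuation L ((if b then -7 else 1 : L)) = 1 := by
    cases b
    · exact map_one _
    · have h2 : ((7 : 𝓞 L) : L) = 7 := map_ofNat (algebraMap (𝓞 L) L) 7
      change u.1.valuation L (-7) = 1
      rw [Valuation.map_neg, ← h2]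
      exact (u.1.valuation_eq_one_iff_notMem (K := L)).2 u.2.2
  rw [lfd, map_mul, h7, one_mul, ← Finset.mul_prod_erase S _ hu, map_mul] at h1
  have h2 : u.1.valuation L (∏ w ∈ S.erase u, ((n w.1 : 𝓞 L) : L)) = 1 := by
    rw [map_prod]
    refine Finset.prod_eq_one fun w hw => ?_
    refine (u.1.valuation_eq_one_iff_notMem (K := L)).2 (lf_notMem hn w u.1 ?_)
    intro h3
    exact (Finset.mem_erase.1 hw).1 (Subtype.ext h3.symm)
  rw [h2, mul_one] at h1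
  obtain ⟨⟨k, hk, hq⟩, -⟩ := hn u
  obtain ⟨h4, h5⟩ := n2_exact (S := {u.1}) (h := k) (δ := n u.1) (by rw [Finset.prod_singleton, hq]) u.1
    (Finset.mem_singleton_self _)
  exact n2_not_sq hk u.1 h4 h5 h1

omit hn in
theorem lf_tau (S : Finset (OQ L)) : ∏ u ∈ S, TT.qr u.1 (2 : 𝓞 L) = 1 ↔ ∑ v ∈ S, tauL v = 0 := by
  have h2 : ∀ u : OQ L, TT.qr u.1 (2 : 𝓞 L) = (-1) ^ (tauL u).val := by
    intro u
    unfold tauL
    rcases TT.qr_cases u.1 2 with h | h | h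
    · exact absurd ((TT.qr_eq_zero u.1).1 h) u.2.1
    · rw [h, if_neg (by norm_num)]
      simp
    · rw [h, if_pos rfl]
      simp [ZMod.val_one]
  have h3 : ((∑ u ∈ S, (tauL u).val : ℕ) : ZMod 2) = ∑ v ∈ S, tauL v := by
    rw [Nat.cast_sum]
    exact Finset.sum_congr rfl fun u _ => ZMod.natCast_zmod_val _
  rw [Finset.prod_congr rfl fun u _ => h2 u, Finset.prod_pow_eq_pow_sum, ← h3, ZMod.natCast_eq_zero_iff_even]
  constructor
  · intro h
    by_contra hcon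
    rw [Nat.not_even_iff_odd] at hcon
    rw [hcon.neg_one_pow] at h
    norm_num at h
  · exact fun h => h.neg_one_pow

end

section
variable {L M : Type} [Field L] [NumberField L] [Field M] [NumberField M] [Algebra L M]
  [IsTotallyReal L] {D : Dat L M} (hD : Od2 D)
include hD

theorem lf_two {v : HeightOneSpectrum (𝓞 L)} (hv : (2 : 𝓞 L) ∈ v.asIdeal) : v.asIdeal = span {(2 : 𝓞 L)} := by
  have h1 : span {(2 : 𝓞 L)} ≤ v.asIdeal := (Ideal.span_singleton_le_iff_mem _).2 hv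
  have h2 : (span {(2 : 𝓞 L)}).IsMaximal := Ring.DimensionLEOne.maximalOfPrime (by
    rw [Ne, Ideal.span_singleton_eq_bot]
    exact two_ne_zero) hD.two
  exact (h2.eq_of_le v.isPrime.ne_top h1).symm

omit hD in
theorem lf_seven_two {v : HeightOneSpectrum (𝓞 L)} (hv : (2 : 𝓞 L) ∈ v.asIdeal) : (7 : 𝓞 L) ∉ v.asIdeal := by
  intro h7
  apply v.isPrime.ne_top
  rw [Ideal.eq_top_iff_one]
  have e : (1 : 𝓞 L) = 7 - 3 * 2 := by norm_num
  rw [e]
  exact Ideal.sub_mem _ h7 (Ideal.mul_mem_left _ _ hv)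

/-- the sign at `2` -/
theorem lf_sg {n : HeightOneSpectrum (𝓞 L) → 𝓞 L} (hn : ∀ v : OQ L, NL v.1 (n v.1)) (S : Finset (OQ L)) (b : Bool)
    {v : HeightOneSpectrum (𝓞 L)} (hv : (2 : 𝓞 L) ∈ v.asIdeal) :
    sg v (lfd n S b) = ∏ u ∈ S, TT.qr u.1 (2 : 𝓞 L) := by
  have hvu : ∀ u : OQ L, v ≠ u.1 := by
    rintro u rfl
    exact u.2.1 hv
  have hv2 := lf_two hD hv
  have h7 := lf_seven_two hv
  have hsg : ∀ u ∈ S, sg v ((n u.1 : 𝓞 L) : L) = TT.qr u.1 2 := by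
    intro u _
    obtain ⟨⟨k, hk, hq⟩, -⟩ := hn u
    obtain ⟨t, c, h⟩ := lf_form hn u
    have hmem : t ^ 2 + 4 * c ∉ v.asIdeal := by
      rw [← h]
      exact lf_notMem hn u v (hvu u)
    rw [h, sg_int hmem]
    have hA : TRB.AdmG k t c {u.1} := by
      refine ⟨hk, ?_, ?_, ?_⟩
      · rw [Finset.prod_singleton, ← h, hq]
      · intro w hw
        rw [Finset.mem_singleton] at hw
        rw [hw]
        exact u.2.1
      · intro w hw
        rw [Finset.mem_singleton] at hw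
        rw [hw]
        exact u.2.2
    have h1 := reciprocityG D.odd_classNumber hA v hmem (α := 2) (fun j => by
      rw [show ((2 : 𝓞 L) : L) = 2 from map_ofNat (algebraMap (𝓞 L) L) 2, map_ofNat]
      norm_num) odd_one (by rw [pow_one, hv2])
    rw [Finset.prod_singleton] at h1
    exact h1.symm
  have h1 := ra3_prod S (fun u : OQ L => ((n u.1 : 𝓞 L) : L)) (v := v) fun u _ => lf_ur hn u v (hvu u)
  have he : sg v ((if b then -7 else 1 : L)) = 1 := by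
    cases b
    · exact sg_one
    · have hm : (1 : 𝓞 L) ^ 2 + 4 * (-2) ∉ v.asIdeal := by
        intro h
        apply h7
        have h2 := v.asIdeal.neg_mem h
        have h3 : -((1 : 𝓞 L) ^ 2 + 4 * (-2)) = 7 := by norm_num
        rwa [h3] at h2
      have h4 : (((1 : 𝓞 L) ^ 2 + 4 * (-2) : 𝓞 L) : L) = -7 := by
        simp only [g1_add, g1_mul, g1_pow, g1_four, g1_one, g1_neg, g1_two]
        norm_num
      change sg v (-7 : L) = 1
      rw [← h4, sg_int hm]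
      unfold TT.chd
      refine if_pos ⟨0, ?_⟩
      rw [show (0 : 𝓞 L) ^ 2 - 1 * 0 - -2 = 2 by norm_num]
      exact hv
  unfold lfd
  rw [sg_mul (lfe_ur b h7) h1.1, he, one_mul, h1.2, Finset.prod_congr rfl hsg]

/-- the curves -/
theorem lf_curve {n : HeightOneSpectrum (𝓞 L) → 𝓞 L} (hn : ∀ v : OQ L, NL v.1 (n v.1)) (S : Finset (OQ L)) (b : Bool)
    (hS : ∑ v ∈ S, tauL v = 0) : TwoCurve (Ws (lfd n S b)) := by
  have hd0 := lfd_ne hn S b
  refine ⟨?_, fun P hP => ra3_loc hd0 ?_⟩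
  · have h1 := nf3_j hd0 1
    rwa [one_smul] at h1
  · refine TRX.isSquare_of_Sq P (sg_eq_one_iff.1 ?_)
    rw [lf_sg hD hn S b hP, lf_tau]
    exact hS

/-- the bad primes -/
theorem lf_bad {n : HeightOneSpectrum (𝓞 L) → 𝓞 L} (hn : ∀ v : OQ L, NL v.1 (n v.1)) (S : Finset (OQ L)) (b : Bool)
    (v : HeightOneSpectrum (𝓞 L)) :
    ¬ XTS.GoodReduction (Ws (lfd n S b)) v ↔ (7 : 𝓞 L) ∈ v.asIdeal ∨ ∃ u ∈ S, v = u.1 := by
  have hd0 := lfd_ne hn S b
  show ¬ GoodAt v (Ws (lfd n S b)) ↔ _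
  by_cases h7 : (7 : 𝓞 L) ∈ v.asIdeal
  · refine ⟨fun _ => Or.inl h7, fun _ => ?_⟩
    have hvs : v.asIdeal = span {(7 : 𝓞 L)} := (D.above_seven.1 v).1 h7
    have h70 : (7 : 𝓞 L) ≠ 0 := by norm_num
    apply ra3_bad hd0
    · have h1 : ((7 : 𝓞 L) : L) = 7 := map_ofNat (algebraMap (𝓞 L) L) 7
      rw [← h1, HeightOneSpectrum.valuation_of_algebraMap]
      exact HeightOneSpectrum.intValuation_singleton v h70 hvs
    · have h3 : (2 : 𝓞 L) ∉ v.asIdeal := fun h4 => lf_seven_two h4 h7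
      have h5 : ((2 : 𝓞 L) : L) = 2 := map_ofNat (algebraMap (𝓞 L) L) 2
      rw [← h5, HeightOneSpectrum.valuation_of_algebraMap]
      exact HeightOneSpectrum.intValuation_eq_one_iff.2 h3
  · rw [ra3_good hd0 h7]
    constructor
    · intro h
      right
      by_contra hcon
      push Not at hcon
      exact h (lfd_ur hn b h7 hcon)
    · rintro (h | ⟨u, hu, rfl⟩)
      · exact absurd h h7
      · intro h
        exact lfd_od hn b hu h.val

/-- a unit which is locally a square modulo `4` is a square -/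
theorem lf_unit {v : HeightOneSpectrum (𝓞 L)} (hv : (2 : 𝓞 L) ∈ v.asIdeal) {u : (𝓞 L)ˣ}
    (h : Ur v ((u : 𝓞 L) : L)) : ∃ w : (𝓞 L)ˣ, u = w ^ 2 := by
  obtain ⟨x, t, c, hx, hu, hm⟩ := h
  have hval : v.valuation L x = 1 := by
    have h1 : v.valuation L (((u : 𝓞 L)) : L) = 1 := by
      refine (g1_val_one v).2 fun h => v.isPrime.ne_top (Ideal.eq_top_of_isUnit_mem _ h u.isUnit)
    rw [hu, map_mul, (g1_val_one v).2 hm, mul_one, map_pow] at h1
    exact (pow_eq_one_iff_of_nonneg (zero_le) two_ne_zero).1 h1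
  obtain ⟨a, m, hm', ha⟩ := exists_frac v hval.le
  have hu2 : (u : 𝓞 L) * m ^ 2 = a ^ 2 * (t ^ 2 + 4 * c) := by
    apply RingOfIntegers.ext
    rw [g1_mul, g1_pow, g1_mul, g1_pow, hu, ← ha]
    ring
  have hm2 : m ∉ span {(2 : 𝓞 L)} := by
    rw [← lf_two hD hv]
    exact hm'
  obtain ⟨r, s, hrs⟩ := cop_four (cop_two hD.two hm2)
  refine unit_sq D (t := r * a * t) (c := r ^ 2 * a ^ 2 * c + (u : 𝓞 L) * (2 * r * m * s + 4 * s ^ 2)) ?_
  linear_combination r ^ 2 * hu2 + (u : 𝓞 L) * (-(r * m) - 4 * s - 1) * hrs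

/-- every curve is one of these -/
theorem lf_surj {n : HeightOneSpectrum (𝓞 L) → 𝓞 L} (hn : ∀ v : OQ L, NL v.1 (n v.1)) {E : WeierstrassCurve L}
    (hE : TwoCurve E) : ∃ (S : Finset (OQ L)) (b : Bool), ∑ v ∈ S, tauL v = 0 ∧
      ∃ C : WeierstrassCurve.VariableChange L, E = C • Ws (lfd n S b) := by
  obtain ⟨hell, hj⟩ := hE.j_eq
  obtain ⟨d, k, t, c, S', C, C', hNG, -, hC, hC', hbad⟩ := TRB.exists_NG (TRB.ofTR D) D.hodd E hj (by
    intro v h2
    obtain ⟨d, C, -, hd, hC, -⟩ := exists_Ws E hj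
    rw [hC]
    exact TRH.h2_good (lf_seven_two h2) (TRX.Sq_of_isSquare v hd (rl_loc hE hC v h2)).ur C)
  have hloc := rl_loc hE hC
  obtain ⟨v2, hv2⟩ : ∃ v : HeightOneSpectrum (𝓞 L), (2 : 𝓞 L) ∈ v.asIdeal :=
    ⟨⟨span {(2 : 𝓞 L)}, hD.two, by
      rw [Ne, Ideal.span_singleton_eq_bot]
      exact two_ne_zero⟩, Ideal.mem_span_singleton_self _⟩
  set S : Finset (OQ L) := S'.subtype (fun v => (2 : 𝓞 L) ∉ v.asIdeal ∧ (7 : 𝓞 L) ∉ v.asIdeal) with hS
  have hmem : ∀ u : OQ L, u ∈ S ↔ u.1 ∈ S' := fun u => Finset.mem_subtype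
  set a : 𝓞 L := t ^ 2 + 4 * c with ha
  have ha0 : (a : L) ≠ 0 := RingOfIntegers.coe_ne_zero_iff.2 hNG.adm.ne
  set P0 : L := ∏ u ∈ S, ((n u.1 : 𝓞 L) : L) with hP0
  have hP00 : P0 ≠ 0 := lf_prod_ne hn S
  have hPf : lfd n S false = P0 := by
    change (1 : L) * P0 = P0
    rw [one_mul]
  have haS : ∀ v : HeightOneSpectrum (𝓞 L), v ∉ S' → a ∉ v.asIdeal := fun v hv h => hv (x0_mem hNG.adm.spn h)
  have hPS : ∀ v : HeightOneSpectrum (𝓞 L), v ∉ S' → v.valuation L P0 = 1 := by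
    intro v hv
    rw [hP0, map_prod]
    refine Finset.prod_eq_one fun w hw => (g1_val_one v).2 (lf_notMem hn w v ?_)
    rintro rfl
    exact hv ((hmem w).1 hw)
  obtain ⟨u, s, hs, hus⟩ := b3_even D.odd_classNumber ((a : L) * P0) (mul_ne_zero ha0 hP00) (fun v => by
    rw [map_mul]
    by_cases hv : v ∈ S'
    · refine le_odd_mul ((map_ne_zero _).2 ha0) ((map_ne_zero _).2 hP00) ?_ ?_
      · obtain ⟨h4, h5⟩ := n2_exact hNG.adm.spn v hv
        exact n2_not_sq hNG.adm.odd v h4 h5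
      · have h1 := lfd_od hn false ((hmem ⟨v, hNG.adm.two v hv, hNG.adm.seven v hv⟩).2 hv)
        rw [hPf] at h1
        exact h1
    · rw [(g1_val_one v).2 (haS v hv), hPS v hv]
      exact ⟨1, rfl⟩)
  have hv2S : v2 ∉ S' := fun h => hNG.adm.two v2 h hv2
  have hur : Ur v2 (((u : 𝓞 L)) : L) := by
    have h1 : Ur v2 ((a : L) * P0) := by
      refine Ur.mul ?_ ?_
      · exact ⟨1, t, c, one_ne_zero, by rw [one_pow, one_mul], haS v2 hv2S⟩
      · rw [← hPf]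
        exact lfd_ur hn false (lf_seven_two hv2) fun w hw h => hv2S (by rw [h]; exact (hmem w).1 hw)
    rw [hus, mul_comm] at h1
    exact (ur_sq_mul hs).1 h1
  obtain ⟨w, hw⟩ := lf_unit hD hv2 hur
  set y : L := ((w : 𝓞 L) : L) * s with hy
  have hw0 : ((w : 𝓞 L) : L) ≠ 0 := RingOfIntegers.coe_ne_zero_iff.2 w.ne_zero
  have hy0 : y ≠ 0 := mul_ne_zero hw0 hs
  have haP : (a : L) * P0 = y ^ 2 := by
    rw [hus, hw, hy, Units.val_pow_eq_pow_val, g1_pow]
    ring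
  have hkey : ∃ b : Bool, ∃ z : L, z ≠ 0 ∧ d = z ^ 2 * lfd n S b := by
    obtain ⟨x, hx, h1 | h1⟩ := hNG.rep
    · refine ⟨false, x * y / P0, div_ne_zero (mul_ne_zero hx hy0) hP00, ?_⟩
      rw [hPf, h1, ← ha]
      field_simp
      linear_combination haP
    · refine ⟨true, x * y / (7 * P0), div_ne_zero (mul_ne_zero hx hy0) (mul_ne_zero (by norm_num) hP00), ?_⟩
      have h2 : lfd n S true = -7 * P0 := rfl
      rw [h2]
      rw [← ha] at h1
      field_simp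
      linear_combination (-P0) * h1 - x ^ 2 * haP
  obtain ⟨b, z, hz, hdz⟩ := hkey
  refine ⟨S, b, ?_, ?_⟩
  · rw [← lf_tau, ← lf_sg hD hn S b hv2, ← sg_sq_mul hz, ← hdz]
    exact sg_eq_one_iff.2 (TRX.Sq_of_isSquare v2 hNG.ne (hloc v2 hv2))
  · obtain ⟨C2, hC2⟩ := (ws_iso_iff (d := lfd n S b) hNG.ne).2 ⟨z, hz, hdz⟩
    exact ⟨C * C2, by rw [mul_smul, ← hC2, ← hC]⟩

omit [IsTotallyReal L] hD in
theorem lf_sets {n : HeightOneSpectrum (𝓞 L) → 𝓞 L} (hn : ∀ v : OQ L, NL v.1 (n v.1)) {S S' : Finset (OQ L)} {b b' : Bool}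
    {y : L} (hy : y ≠ 0) (h : lfd n S b = y ^ 2 * lfd n S' b') : S ⊆ S' := by
  intro u hu
  by_contra hu'
  apply lfd_od hn b hu
  rw [h]
  refine ((ur_sq_mul hy).2 (lfd_ur hn b' u.2.2 fun w hw hcon => hu' ?_)).val
  rw [Subtype.ext hcon]
  exact hw

omit hD in
/-- different data give different classes -/
theorem lf_inj {n : HeightOneSpectrum (𝓞 L) → 𝓞 L} (hn : ∀ v : OQ L, NL v.1 (n v.1)) {S S' : Finset (OQ L)} {b b' : Bool}
    {C : WeierstrassCurve.VariableChange L} (h : Ws (lfd n S b) = C • Ws (lfd n S' b')) : S = S' ∧ b = b' := by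
  obtain ⟨y, hy, h1⟩ := (ws_iso_iff (lfd_ne hn S b)).1 ⟨C, h⟩
  have hS : S = S' := by
    refine Finset.Subset.antisymm (lf_sets hn hy h1) (lf_sets hn (inv_ne_zero hy) (b := b') (b' := b) ?_)
    rw [h1]
    field_simp
  refine ⟨hS, ?_⟩
  rw [← hS] at h1
  have hP := lf_prod_ne hn S
  unfold lfd at h1
  have h2 : (if b then -7 else 1 : L) = y ^ 2 * (if b' then -7 else 1) := by
    apply mul_right_cancel₀ hP
    rw [h1]
    ring
  obtain ⟨φ⟩ : Nonempty (L →+* ℝ) := inferInstance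
  have h3 := congrArg φ h2
  have hφ : φ y ^ 2 > 0 := by
    have : φ y ≠ 0 := (map_ne_zero φ).2 hy
    positivity
  cases b <;> cases b'
  · rfl
  · exfalso
    simp only [Bool.false_eq_true, if_false, if_true, map_one, map_mul, map_pow, map_neg, map_ofNat] at h3
    nlinarith
  · exfalso
    simp only [Bool.false_eq_true, if_false, if_true, map_one, map_mul, map_pow, map_neg, map_ofNat] at h3
    nlinarith
  · rfl

end

end TRP
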