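import Pool.Agent.TRP.RA4
import Pool.Agent.TRP.LF0

/-! # [ALLP-P5f1] the exact number of the curves over `L` which are isomorphic to `X₀(49)` above `2` -/

set_option autoImplicit false

open NumberField Ideal IsDedekindDomain Filter Topology
open scoped Real Classical ComplexConjugate
open TR TRG TTS TU TT XTB TRPR Pool.Agent.TRG

namespace TRP

section
variable {L M : Type} [Field L] [NumberField L] [Field M] [NumberField M] [Algebra L M]
  [IsTotallyReal L] {D : Dat L M}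

/-- the product of the norms of the bad primes -/
theorem lf_badProd (D : Dat L M) {E : WeierstrassCurve L} {S : Finset (OQ L)}
    (hS : ∀ v : HeightOneSpectrum (𝓞 L), ¬ XTS.GoodReduction E v ↔ (7 : 𝓞 L) ∈ v.asIdeal ∨ ∃ u ∈ S, v = u.1) :
    badProd E = 7 ^ Module.finrank ℚ L * ∏ v ∈ S, absNorm v.1.asIdeal := by
  obtain ⟨s, hs7, -, huniq⟩ := TRB.f4_s (TRB.ofTR D)
  have hnorm : absNorm s.asIdeal = 7 ^ Module.finrank ℚ L := by
    rw [(D.above_seven.1 s).1 hs7]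
    exact D.above_seven.2.2.1
  have hmap : ∀ P, P ∈ S.map (⟨Subtype.val, Subtype.val_injective⟩ : OQ L ↪ HeightOneSpectrum (𝓞 L)) ↔ ∃ u ∈ S, P = u.1 := by
    intro P
    rw [Finset.mem_map]
    constructor
    · rintro ⟨u, hu, rfl⟩
      exact ⟨u, hu, rfl⟩
    · rintro ⟨u, hu, rfl⟩
      exact ⟨u, hu, rfl⟩
  have hns : s ∉ S.map (⟨Subtype.val, Subtype.val_injective⟩ : OQ L ↪ HeightOneSpectrum (𝓞 L)) := by
    rw [hmap]
    rintro ⟨u, -, hu⟩
    rw [hu] at hs7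
    exact u.2.2 hs7
  rw [ra_badProd (S := insert s (S.map ⟨Subtype.val, Subtype.val_injective⟩)), Finset.prod_insert hns,
    Finset.prod_map, hnorm]
  · rfl
  · intro P
    rw [Finset.mem_insert, hmap, hS]
    constructor
    · rintro (rfl | h)
      · exact Or.inl hs7
      · exact Or.inr h
    · rintro (h | h)
      · exact Or.inl (huniq P h)
      · exact Or.inr h

variable (hD : Od2 D)
include hD

/-- **the exact number** of the classes with a property which depends on the set of the bad primes -/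
theorem lf_count {n : HeightOneSpectrum (𝓞 L) → 𝓞 L} (hn : ∀ v : OQ L, NL v.1 (n v.1)) {B : TRQ.Base (OQ L)}
    (hB : B.N = fun v => absNorm v.1.asIdeal) {Q : WeierstrassCurve L → Prop} {H : Finset (OQ L) → Prop}
    (hQ : ∀ (E : WeierstrassCurve L) (S : Finset (OQ L)), TwoCurve E →
      (∀ v : HeightOneSpectrum (𝓞 L), ¬ XTS.GoodReduction E v ↔ (7 : 𝓞 L) ∈ v.asIdeal ∨ ∃ u ∈ S, v = u.1) → (Q E ↔ H S))
    (X : ℕ) : (cmFamily L X fun E => TwoCurve E ∧ Q E).Finite ∧ (cmFamily L X fun E => TwoCurve E ∧ Q E).ncard =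
      2 * ((B.sb ((X : ℝ) / 7 ^ Module.finrank ℚ L)).filter fun S => ∑ v ∈ S, tauL v = 0 ∧ H S).card := by
  obtain ⟨G, hG⟩ : ∃ G : Finset (Finset (OQ L)), G =
      (B.sb ((X : ℝ) / 7 ^ Module.finrank ℚ L)).filter fun S => ∑ v ∈ S, tauL v = 0 ∧ H S := ⟨_, rfl⟩
  rw [← hG]
  have h7 : (0 : ℝ) < 7 ^ Module.finrank ℚ L := by positivity
  have hmem : ∀ S : Finset (OQ L), S ∈ G ↔
      7 ^ Module.finrank ℚ L * ∏ v ∈ S, absNorm v.1.asIdeal ≤ X ∧ ∑ v ∈ S, tauL v = 0 ∧ H S := by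
    intro S
    rw [hG, Finset.mem_filter, B.mem_sb, le_div_iff₀ h7]
    have e : B.nS S = ∏ v ∈ S, absNorm v.1.asIdeal := by
      unfold TRQ.Base.nS
      rw [hB]
    have e2 : ((B.nS S : ℝ) * 7 ^ Module.finrank ℚ L ≤ X) ↔ 7 ^ Module.finrank ℚ L * ∏ v ∈ S, absNorm v.1.asIdeal ≤ X := by
      rw [e, mul_comm]
      exact_mod_cast Iff.rfl
    rw [e2]
  obtain ⟨cl, hcl⟩ : ∃ cl : Finset (OQ L) × Bool →
      MulAction.orbitRel.Quotient (WeierstrassCurve.VariableChange L) (WeierstrassCurve L),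
      ∀ S b, cl (S, b) = Quotient.mk _ (Ws (lfd n S b)) := ⟨fun p => Quotient.mk _ (Ws (lfd n p.1 p.2)), fun _ _ => rfl⟩
  have hinj : Function.Injective cl := by
    rintro ⟨S, b⟩ ⟨S', b'⟩ h
    rw [hcl, hcl] at h
    have h1 : Ws (lfd n S b) ∈ MulAction.orbit (WeierstrassCurve.VariableChange L) (Ws (lfd n S' b')) := Quotient.exact h
    obtain ⟨C, hC⟩ := h1
    have hC' : C • Ws (lfd n S' b') = Ws (lfd n S b) := hC
    obtain ⟨h2, h3⟩ := lf_inj hn hC'.symm
    rw [h2, h3]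
  have hset : (cmFamily L X fun E => TwoCurve E ∧ Q E) = ↑((G ×ˢ (Finset.univ : Finset Bool)).image cl) := by
    ext c
    rw [Finset.mem_coe, Finset.mem_image]
    constructor
    · rintro ⟨E, rfl, -, hX, hE, hQE⟩
      obtain ⟨S, b, hS, C, hC⟩ := lf_surj hD hn hE
      have hbad : ∀ v : HeightOneSpectrum (𝓞 L), ¬ XTS.GoodReduction E v ↔ (7 : 𝓞 L) ∈ v.asIdeal ∨ ∃ u ∈ S, v = u.1 := by
        intro v
        rw [hC, ra_good_iff, lf_bad hD hn S b v]
      refine ⟨(S, b), Finset.mem_product.2 ⟨(hmem S).2 ⟨?_, hS, (hQ E S hE hbad).1 hQE⟩, Finset.mem_univ _⟩, ?_⟩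
      · rw [← lf_badProd D hbad]
        exact hX
      · rw [hcl]
        refine Eq.symm (Quotient.sound ?_)
        show MulAction.orbitRel (WeierstrassCurve.VariableChange L) (WeierstrassCurve L) E (Ws (lfd n S b))
        rw [MulAction.orbitRel_apply]
        exact ⟨C, hC.symm⟩
    · rintro ⟨⟨S, b⟩, hp, rfl⟩
      obtain ⟨hX, hS, hH⟩ := (hmem S).1 (Finset.mem_product.1 hp).1
      have hE := lf_curve hD hn S b hS
      have hbad := lf_bad hD hn S b
      refine ⟨Ws (lfd n S b), (hcl S b).symm, hE.j_eq, ?_, hE, (hQ _ S hE hbad).2 hH⟩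
      rw [lf_badProd D hbad]
      exact hX
  rw [hset]
  refine ⟨Finset.finite_toSet _, ?_⟩
  rw [Set.ncard_coe_finset, Finset.card_image_of_injective _ hinj, Finset.card_product, Finset.card_univ, Fintype.card_bool,
    mul_comm]

/-- [P5f1a] all curves over `L` which are isomorphic to `X₀(49)` above `2` -/
theorem lf_all {n : HeightOneSpectrum (𝓞 L) → 𝓞 L} (hn : ∀ v : OQ L, NL v.1 (n v.1)) {B : TRQ.Base (OQ L)}
    (hB : B.N = fun v => absNorm v.1.asIdeal) (X : ℕ) :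
    (cmFamily L X TwoCurve).Finite ∧ (cmFamily L X TwoCurve).ncard =
      2 * ((B.sb ((X : ℝ) / 7 ^ Module.finrank ℚ L)).filter fun S => ∑ v ∈ S, tauL v = 0).card := by
  have h := lf_count hD hn hB (Q := fun _ => True) (H := fun _ => True) (fun _ _ _ _ => Iff.rfl) X
  simpa only [and_true] using h

/-- [P5f1b] the curves with finite Sha and Mordell-Weil group -/
theorem lf_sha {s : Bool} {z : HeightOneSpectrum (𝓞 M) → 𝓞 M} (hz : ∀ P, (2 : 𝓞 M) ∉ P.asIdeal → NG D s P (z P))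
    {n : HeightOneSpectrum (𝓞 L) → 𝓞 L} (hn : ∀ v : OQ L, NL v.1 (n v.1)) {Pv : OQ L → HeightOneSpectrum (𝓞 M)} (hP : Above Pv)
    (B : RSys (OQ L)) (hN : B.N = fun v => absNorm v.1.asIdeal) (hk : B.k = kL) (hx : B.x = xL) (hτ : B.τ = tauL)
    (hrt : ∀ v, kL v = 0 → B.rt v = rtL D s Pv v) (hw : B.w = wL n)
    (hm : ∀ u v, kL u = 0 → kL v = 0 → B.m u v = mL D z Pv u v) (X : ℕ) :
    (cmFamily L X fun E => TwoCurve E ∧ TRB.FiniteSha E).ncard =
      2 * ((B.sb ((X : ℝ) / 7 ^ Module.finrank ℚ L)).filter fun S => ∑ v ∈ S, B.τ v = 0 ∧ HR B S).card := by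
  rw [hτ]
  refine (lf_count hD hn (B := B.toBase) hN (Q := TRB.FiniteSha) (H := HR B) (fun E S hE hS => ?_) X).2
  obtain ⟨SM, hSM, hiff⟩ := ra_iff hD hz hE hS
  rw [hiff]
  exact (link_R hD hz hn hP B hk hx hrt hw hm hSM).symm

end

end TRP
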