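import Pool.Agent.TRP.BAL
import Pool.Agent.TRP.Defs3

/-! # [ALLP-RA1c] conjugation and transposition of the symbols -/

set_option autoImplicit false
set_option linter.unusedSectionVars false

open NumberField Ideal IsDedekindDomain Filter Topology
open scoped Real Classical ComplexConjugate
open TR TRG TTS TU TT

namespace TRP

section
variable {L M : Type} [Field L] [NumberField L] [Field M] [NumberField M] [Algebra L M]
  [IsTotallyReal L] {D : Dat L M}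

theorem ra1_mem_conj (D : Dat L M) (P : HeightOneSpectrum (𝓞 M)) (x : 𝓞 M) :
    x ∈ (u6_conj D P).asIdeal ↔ D.cjO x ∈ P.asIdeal := by
  change x ∈ P.asIdeal.map D.cjO ↔ _
  rw [u6_map_eq_comap, Ideal.mem_comap]

theorem ra1_qr_conj (D : Dat L M) (P : HeightOneSpectrum (𝓞 M)) (x : 𝓞 M) :
    TT.qr (u6_conj D P) (D.cjO x) = TT.qr P x := by
  unfold TT.qr
  have h1 : D.cjO x ∈ (u6_conj D P).asIdeal ↔ x ∈ P.asIdeal := by
    rw [ra1_mem_conj, u6_cjO_cjO]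
  have h2 : (∃ b : 𝓞 M, b ^ 2 - D.cjO x ∈ (u6_conj D P).asIdeal) ↔ ∃ b : 𝓞 M, b ^ 2 - x ∈ P.asIdeal := by
    constructor
    · rintro ⟨b, hb⟩
      refine ⟨D.cjO b, ?_⟩
      rw [ra1_mem_conj, map_sub, map_pow, u6_cjO_cjO] at hb
      exact hb
    · rintro ⟨b, hb⟩
      refine ⟨D.cjO b, ?_⟩
      rw [ra1_mem_conj, map_sub, map_pow, u6_cjO_cjO, u6_cjO_cjO]
      exact hb
  simp only [h1, h2]

theorem ra1_qr_conj' (D : Dat L M) (P : HeightOneSpectrum (𝓞 M)) (x : 𝓞 M) :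
    TT.qr P (D.cjO x) = TT.qr (u6_conj D P) x := by
  rw [← ra1_qr_conj D (u6_conj D P), u6_conj_conj]

theorem ra1_two_conj (D : Dat L M) {P : HeightOneSpectrum (𝓞 M)} (h : (2 : 𝓞 M) ∉ P.asIdeal) :
    (2 : 𝓞 M) ∉ (u6_conj D P).asIdeal := by
  rw [ra1_mem_conj, map_ofNat]
  exact h

theorem ra1_et_conj {s : Bool} {x : 𝓞 M} (h : Et D s x) : Et D (!s) (D.cjO x) := by
  obtain ⟨a, c, ha, hac⟩ := h
  refine ⟨D.cjO a, D.cjO c, ?_, ?_⟩
  · have h1 := ha.map D.cjO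
    rwa [show p2 D s = p1 D (!s) from rfl, bl_cj] at h1
  · rw [hac, map_add, map_pow, map_mul, map_pow, show p2 D s = p1 D (!s) from rfl, bl_cj]

theorem ra1_NG_conj {s : Bool} {P : HeightOneSpectrum (𝓞 M)} {q : 𝓞 M} (h : NG D s (u6_conj D P) q) :
    NG D (!s) P (D.cjO q) := by
  refine ⟨?_, ra1_et_conj h.et⟩
  obtain ⟨k, hk, hq⟩ := h.gen
  refine ⟨k, hk, ?_⟩
  have h1 := congrArg (Ideal.map D.cjO) hq
  rw [Ideal.map_span, Set.image_singleton, Ideal.map_pow] at h1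
  rw [h1]
  congr 1
  exact u6_map_map D P.asIdeal

variable (hD : Od2 D)
include hD

theorem ra1_T {s : Bool} {z : HeightOneSpectrum (𝓞 M) → 𝓞 M} (hz : ∀ P, (2 : 𝓞 M) ∉ P.asIdeal → NG D s P (z P))
    {P Q : HeightOneSpectrum (𝓞 M)} (h2P : (2 : 𝓞 M) ∉ P.asIdeal) (h2Q : (2 : 𝓞 M) ∉ Q.asIdeal) (hPQ : P ≠ Q) :
    TRG.aM z Q P = TRG.aM z (u6_conj D P) (u6_conj D Q) := by
  have h1 := NG.transpose hD hPQ h2P h2Q (hz P h2P) (ra1_NG_conj (hz _ (ra1_two_conj D h2Q)))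
  rw [ra1_qr_conj'] at h1
  unfold TRG.aM
  rw [h1]

/-- the symbol of `-1` -/
theorem ra1_neg_one {P : HeightOneSpectrum (𝓞 M)} (h2 : (2 : 𝓞 M) ∉ P.asIdeal) :
    TT.qr P (-1) = ZMod.χ₄ (absNorm P.asIdeal : ZMod 4) := by
  have htc : IsTotallyComplex M := D.isTotallyComplex
  have h3 : IsCoprime (span {(2 : 𝓞 M)}) P.asIdeal := by
    have := r2_cop_prime h2 1
    rwa [pow_one] at this
  rw [← r1_sy_prime, sy_neg_one P.ne_bot h3]

/-- the classes of `z P` and of `z P'` agree if `z P * z P'` is a square modulo `4` -/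
theorem ra1_bb {s : Bool} {P Q : HeightOneSpectrum (𝓞 M)} (hPQ : P ≠ Q) (h2P : (2 : 𝓞 M) ∉ P.asIdeal)
    (h2Q : (2 : 𝓞 M) ∉ Q.asIdeal) {z w : 𝓞 M} (hz : NG D s P z) (hw : NG D s Q w)
    (hzw : ∃ l k j : ℕ, Odd l ∧ Odd k ∧ Odd j ∧ Cl (0 : 𝓞 M) ((z ^ l * w ^ k) ^ j)) :
    TT.qr Q z * TT.qr P w = TT.qr P (-1) := by
  have htc : IsTotallyComplex M := D.isTotallyComplex
  obtain ⟨α, hα⟩ := hz.cl hD h2P
  obtain ⟨β, hβ⟩ := hw.cl hD h2Q
  obtain ⟨a, ha, hPa⟩ := hz.gen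
  obtain ⟨b, hb, hQb⟩ := hw.gen
  obtain ⟨l, k, j, hl, hk, hj, h0⟩ := hzw
  have hcl := bl_cl_pow (cl_mul (bl_cl_pow hα hl) (bl_cl_pow hβ hk)) hj
  have h1 : ∀ x : 𝓞 M, bb (α * p2 D s) x = bb (β * p2 D s) x := by
    intro x
    have h2 := bl_uniq D.hodd hcl h0 x
    rw [bb_add_left D.hodd, bb_zero_left D.hodd] at h2
    rcases bb_sgn D.hodd (α * p2 D s) x with h3 | h3 <;> rcases bb_sgn D.hodd (β * p2 D s) x with h4 | h4 <;>
      rw [h3, h4] at h2 ⊢ <;> norm_num at h2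
  have Dy0 := bl_Dy hD s
  rw [bl_recip D.hodd hPQ hα hβ ha hb hPa hQb, bb_comm D.hodd, ← h1, Dy0.bb_val]
  -- `bb (α p2) 1`
  have h5 : bb (α * p2 D s) 1 = chd 1 α (bl_V hD s) := by
    have e : (1 : 𝓞 M) = 1 * p2 D s + p1 D s := by rw [one_mul, add_comm]; exact (bl_add D s).symm
    rw [show bb (α * p2 D s) (1 : 𝓞 M) = bb (α * p2 D s) (1 * p2 D s + p1 D s) by rw [← e]]
    rw [bb_add_right D.hodd, Dy0.bb_mix, mul_one, Dy0.bb_val, mul_one]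
  have h6 : chd 1 (α * α) (bl_V hD s) = chd 1 α (bl_V hD s) := by
    have h7 := chd_one_add Dy0.two (α * α) α
    have h8 : chd 1 (α * α + α) (bl_V hD s) = 1 := by
      unfold chd
      rw [if_pos]
      refine ⟨α, ?_⟩
      have e : α ^ 2 - 1 * α - (α * α + α) = 2 * -α := by ring
      rw [e]
      exact Ideal.mul_mem_right _ _ Dy0.two
    rw [h8] at h7
    rcases chd_one_sgn (bl_V hD s) (α * α) with h9 | h9 <;> rcases chd_one_sgn (bl_V hD s) α with h10 | h10 <;>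
      rw [h9, h10] at h7 ⊢ <;> norm_num at h7
  rw [h6, ← h5]
  have hm1 : Cl (1 : 𝓞 M) (-1) := ⟨1, -1, isCoprime_one_left, by ring⟩
  rw [← bb_eq D.hodd hα hm1 isCoprime_one_right.neg_right]
  unfold rs
  have h4 : Ideal.span {(-1 : 𝓞 M)} = 1 := by
    rw [Ideal.one_eq_top, Ideal.span_singleton_eq_top]
    exact isUnit_one.neg
  rw [h4, r1_sy_one, one_mul, hPa, r1_sy_pow_right _ P.ne_bot, r1_sy_prime, r1_pow_odd (qr_cases _ _) ha]

end

end TRP
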