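import Pool.Agent.TRP.Defs3
import Pool.Agent.TRP.NB4

/-! # [ALLP-RA2b0] the class characters of `L` -/

set_option autoImplicit false
set_option linter.unusedSectionVars false

open NumberField Ideal IsDedekindDomain Filter Topology
open scoped Real Classical ComplexConjugate
open TR TRG TTS TU TT

namespace TRP

section
variable {L : Type} [Field L] [NumberField L]

/-- the class character `X((x)) = (x / v)` if `x` is the square of a unit modulo `4` -/
structure LamL (v : HeightOneSpectrum (𝓞 L)) (X : Ideal (𝓞 L) →*₀ ℤ) : Prop where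
  span_eq : ∀ x : 𝓞 L, dy x 1 → X (span {x}) = TT.qr v x
  val : ∀ J, X J = 0 ∨ X J = 1 ∨ X J = -1
  zero_iff : ∀ J, X J = 0 ↔ J ≤ v.asIdeal ∨ J ≤ span {2}

theorem dy1_mul {x y : 𝓞 L} (hx : dy x 1) (hy : dy y 1) : dy (x * y) 1 := by
  obtain ⟨a, c, ha, hac⟩ := hx
  obtain ⟨b, d, hb, hbd⟩ := hy
  rw [Units.val_one, one_mul] at hac hbd
  refine ⟨a * b, a ^ 2 * d + b ^ 2 * c + 4 * c * d, ha.mul_left hb, ?_⟩
  rw [Units.val_one, one_mul, hac, hbd]
  ring

theorem dy1_one : dy (1 : 𝓞 L) 1 := ⟨1, 0, isCoprime_one_left, by rw [Units.val_one]; ring⟩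

theorem dy1_pow {x : 𝓞 L} (hx : dy x 1) (n : ℕ) : dy (x ^ n) 1 := by
  induction n with
  | zero =>
    rw [pow_zero]
    exact dy1_one
  | succ n ih =>
    rw [pow_succ]
    exact dy1_mul ih hx

theorem l_qr_one (v : HeightOneSpectrum (𝓞 L)) : TT.qr v (1 : 𝓞 L) = 1 := by
  have h := TT.qr_sq v (a := 1) fun h => v.isPrime.ne_top ((Ideal.eq_top_iff_one _).2 h)
  rwa [one_pow] at h

end

section
variable {L M : Type} [Field L] [NumberField L] [Field M] [NumberField M] [Algebra L M]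
  [IsTotallyReal L] {D : Dat L M} (hD : Od2 D)
include hD

theorem l_gen {J : Ideal (𝓞 L)} (hJ : ¬ J ≤ span {(2 : 𝓞 L)}) :
    ∃ x : 𝓞 L, dy x 1 ∧ J ^ classNumber L = span {x} := by
  obtain ⟨y, hy⟩ := r2_class_gen J
  have h1 : y ∉ span {(2 : 𝓞 L)} := by
    intro h
    apply hJ
    apply hD.two.le_of_pow_le (n := classNumber L)
    rw [hy]
    exact (Ideal.span_singleton_le_iff_mem _).2 h
  obtain ⟨u, hu⟩ := exists_dy hD h1
  refine ⟨(u : 𝓞 L) * y, ?_, ?_⟩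
  · rw [dy_smul_iff, one_mul]
    exact hu
  · rw [hy]
    exact (Ideal.span_singleton_mul_left_unit u.isUnit y).symm

theorem l_qr_gen {v : HeightOneSpectrum (𝓞 L)} (hv : (2 : 𝓞 L) ∉ v.asIdeal) {x y : 𝓞 L} (hx : dy x 1) (hy : dy y 1)
    (h : span {x} = span {y}) : TT.qr v x = TT.qr v y := by
  rw [Ideal.span_singleton_eq_span_singleton] at h
  obtain ⟨u, hu⟩ := h
  have h1 : y = (u : 𝓞 L) * x := by rw [← hu, mul_comm]
  rw [h1, dy_smul_iff] at hy
  obtain ⟨w, hw⟩ := dy_unique hD hx hy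
  rw [one_mul, one_mul] at hw
  have h2 : ((w : 𝓞 L)) ∉ v.asIdeal := fun h => v.isPrime.ne_top (Ideal.eq_top_of_isUnit_mem _ h w.isUnit)
  rw [h1, hw, TT.qr_mul v hv, Units.val_pow_eq_pow_val, TT.qr_sq v h2, one_mul]

theorem exists_lamL {v : HeightOneSpectrum (𝓞 L)} (hv : (2 : 𝓞 L) ∉ v.asIdeal) :
    ∃ X : Ideal (𝓞 L) →*₀ ℤ, LamL v X := by
  have hp := hD.two
  choose! g hg1 hg2 using fun (J : Ideal (𝓞 L)) (hJ : ¬ J ≤ span {(2 : 𝓞 L)}) => l_gen hD hJ
  have h1one : ¬ (1 : Ideal (𝓞 L)) ≤ span {(2 : 𝓞 L)} := by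
    intro h
    apply hp.ne_top
    rw [eq_top_iff, ← Ideal.one_eq_top]
    exact h
  have hqone := l_qr_one v
  let X : Ideal (𝓞 L) →*₀ ℤ :=
    { toFun := fun J => if J ≤ span {(2 : 𝓞 L)} then 0 else TT.qr v (g J)
      map_zero' := if_pos (by rw [Ideal.zero_eq_bot]; exact bot_le)
      map_one' := by
        rw [if_neg h1one, ← hqone]
        apply l_qr_gen hD hv (hg1 _ h1one) dy1_one
        rw [← hg2 _ h1one, one_pow, Ideal.one_eq_top, Ideal.span_singleton_one]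
      map_mul' := by
        intro J K
        by_cases hJ : J ≤ span {(2 : 𝓞 L)}
        · rw [if_pos hJ, if_pos (Ideal.mul_le_left.trans hJ), zero_mul]
        by_cases hK : K ≤ span {(2 : 𝓞 L)}
        · rw [if_pos hK, if_pos (Ideal.mul_le_right.trans hK), mul_zero]
        have hJK : ¬ J * K ≤ span {(2 : 𝓞 L)} := by
          intro h
          rcases hp.mul_le.1 h with h | h
          · exact hJ h
          · exact hK h
        rw [if_neg hJ, if_neg hK, if_neg hJK, ← TT.qr_mul v hv]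
        apply l_qr_gen hD hv (hg1 _ hJK) (dy1_mul (hg1 _ hJ) (hg1 _ hK))
        rw [← hg2 _ hJK, mul_pow, hg2 _ hJ, hg2 _ hK, Ideal.span_singleton_mul_span_singleton] }
  have hX : ∀ J, ¬ J ≤ span {(2 : 𝓞 L)} → X J = TT.qr v (g J) := fun J hJ => if_neg hJ
  have hX0 : ∀ J, J ≤ span {(2 : 𝓞 L)} → X J = 0 := fun J hJ => if_pos hJ
  have hqpow : ∀ (x : 𝓞 L) (n : ℕ), TT.qr v (x ^ n) = TT.qr v x ^ n := by
    intro x n
    induction n with
    | zero => rw [pow_zero, pow_zero, hqone]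
    | succ n ih => rw [pow_succ, TT.qr_mul v hv, ih, pow_succ]
  refine ⟨X, ?_, ?_, ?_⟩
  · intro x hx
    have h1 : ¬ span {x} ≤ span {(2 : 𝓞 L)} := by
      intro h
      exact not_dy hD ((Ideal.span_singleton_le_iff_mem _).1 h) 1 hx
    rw [hX _ h1]
    have h2 : TT.qr v (g (span {x})) = TT.qr v (x ^ classNumber L) := by
      apply l_qr_gen hD hv (hg1 _ h1) (dy1_pow hx _)
      rw [← hg2 _ h1, Ideal.span_singleton_pow]
    rw [h2, hqpow, r1_pow_odd (TT.qr_cases v x) D.odd_classNumber]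
  · intro J
    by_cases hJ : J ≤ span {(2 : 𝓞 L)}
    · left
      exact hX0 J hJ
    · rw [hX J hJ]
      exact TT.qr_cases v _
  · intro J
    by_cases hJ : J ≤ span {(2 : 𝓞 L)}
    · rw [hX0 J hJ]
      exact ⟨fun _ => Or.inr hJ, fun _ => rfl⟩
    · rw [hX J hJ, TT.qr_eq_zero, ← Ideal.span_singleton_le_iff_mem, ← hg2 J hJ]
      constructor
      · intro h
        exact Or.inl (v.isPrime.le_of_pow_le h)
      · rintro (h | h)
        · exact (Ideal.pow_le_self (classNumber_pos L).ne').trans h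
        · exact absurd h hJ

omit hD in
/-- the value of a class character at a prime -/
theorem LamL.prime {u v : HeightOneSpectrum (𝓞 L)} {X : Ideal (𝓞 L) →*₀ ℤ} (hX : LamL u X) {q : 𝓞 L} (hq : NL v q) :
    X v.asIdeal = TT.qr u q := by
  obtain ⟨⟨k, hk, hkq⟩, hdy⟩ := hq
  rw [← hX.span_eq q hdy, hkq, map_pow, r1_pow_odd (hX.val _) hk]

/-- the product of two class characters of `L` is a nontrivial quadratic character -/
theorem l_charMod {u v : HeightOneSpectrum (𝓞 L)} (huv : u ≠ v) (hu : (2 : 𝓞 L) ∉ u.asIdeal)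
    {X Y : Ideal (𝓞 L) →*₀ ℤ} (hX : LamL u X) (hY : LamL v Y) :
    TRQ.CharMod L (4 * (absNorm u.asIdeal * absNorm v.asIdeal)) (X * Y) := by
  have hNP : 0 < absNorm u.asIdeal := Nat.pos_of_ne_zero fun h => u.ne_bot (Ideal.absNorm_eq_zero_iff.1 h)
  have hNQ : 0 < absNorm v.asIdeal := Nat.pos_of_ne_zero fun h => v.ne_bot (Ideal.absNorm_eq_zero_iff.1 h)
  set m : ℕ := 4 * (absNorm u.asIdeal * absNorm v.asIdeal) with hm
  have hm0 : 0 < m := by positivity
  have happ : ∀ A, (X * Y) A = X A * Y A := fun _ => rfl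
  have hm4 : (m : 𝓞 L) = 4 * (absNorm u.asIdeal * absNorm v.asIdeal : ℕ) := by
    rw [hm]
    push_cast
    ring
  have hmP : (m : 𝓞 L) ∈ u.asIdeal := by
    rw [hm4, Nat.cast_mul]
    exact Ideal.mul_mem_left _ _ (Ideal.mul_mem_right _ _ (Ideal.absNorm_mem _))
  have hmQ : (m : 𝓞 L) ∈ v.asIdeal := by
    rw [hm4, Nat.cast_mul]
    exact Ideal.mul_mem_left _ _ (Ideal.mul_mem_left _ _ (Ideal.absNorm_mem _))
  have hmp : (m : 𝓞 L) ∈ span {(4 : 𝓞 L)} := by
    rw [hm4]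
    exact Ideal.mul_mem_right _ _ (Ideal.mem_span_singleton_self _)
  have hmp1 : (m : 𝓞 L) ∈ span {(2 : 𝓞 L)} := by
    refine (Ideal.span_singleton_le_span_singleton.2 ?_) hmp
    exact ⟨2, by norm_num⟩
  have key : ∀ (R : HeightOneSpectrum (𝓞 L)) (Z : Ideal (𝓞 L) →*₀ ℤ), (m : 𝓞 L) ∈ R.asIdeal → LamL R Z →
      ∀ x z : 𝓞 L, Z (span {x + (m : 𝓞 L) * z}) = Z (span {x}) := by
    intro R Z hmR hZ x z
    by_cases hx : x ∈ span {(2 : 𝓞 L)}
    · have h1 : x + (m : 𝓞 L) * z ∈ span {(2 : 𝓞 L)} := add_mem hx (Ideal.mul_mem_right _ _ hmp1)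
      rw [(hZ.zero_iff _).2 (Or.inr ((Ideal.span_singleton_le_iff_mem _).2 h1)),
        (hZ.zero_iff _).2 (Or.inr ((Ideal.span_singleton_le_iff_mem _).2 hx))]
    · obtain ⟨w, hw⟩ := exists_dy hD hx
      obtain ⟨t, ht⟩ := Ideal.mem_span_singleton'.1 hmp
      have hw' : dy (x + (m : 𝓞 L) * z) w := by
        rw [← ht, show x + t * 4 * z = x + 4 * (t * z) by ring]
        exact dy_add hw _
      rw [← Ideal.span_singleton_mul_left_unit w.isUnit x, ← Ideal.span_singleton_mul_left_unit w.isUnit (x + (m : 𝓞 L) * z),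
        hZ.span_eq _ (by rw [dy_smul_iff, one_mul]; exact hw'), hZ.span_eq _ (by rw [dy_smul_iff, one_mul]; exact hw)]
      apply TT.qr_congr
      have e : (w : 𝓞 L) * (x + (m : 𝓞 L) * z) - (w : 𝓞 L) * x = (w : 𝓞 L) * z * (m : 𝓞 L) := by ring
      rw [e]
      exact Ideal.mul_mem_left _ _ hmR
  refine ⟨hm0, fun A => ?_, fun x z => ?_, ?_⟩
  · rw [happ]
    rcases hX.val A with h | h | h <;> rcases hY.val A with h' | h' | h' <;> rw [h, h'] <;> simp
  · rw [happ, happ, key u X hmP hX, key v Y hmQ hY]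
  · obtain ⟨g, h, hgh, hgP, hgR⟩ := nb_g hu (m := (m : 𝓞 L)) (by exact_mod_cast hm0.ne')
    refine ⟨g, h, hgh, ?_⟩
    have h4u : span {(4 : 𝓞 L)} ⊔ u.asIdeal = ⊤ := by
      by_contra hcon
      have h1 := u.isMaximal.eq_of_le hcon le_sup_right
      have h2 : (2 : 𝓞 L) ^ 2 ∈ u.asIdeal := by
        rw [h1]
        refine Ideal.mem_sup_left ?_
        rw [show (2 : 𝓞 L) ^ 2 = 4 by norm_num]
        exact Ideal.mem_span_singleton_self _
      exact hu (u.isPrime.mem_of_pow_mem _ h2)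
    have h1 : g - 1 ∈ span {(4 : 𝓞 L)} := hgR _ ((Ideal.span_singleton_le_iff_mem _).2 hmp) h4u
    have h2 : g - 1 ∈ v.asIdeal := by
      apply hgR _ ((Ideal.span_singleton_le_iff_mem _).2 hmQ)
      by_contra hcon
      have h3 := v.isMaximal.eq_of_le hcon le_sup_left
      have h4 : u.asIdeal ≤ v.asIdeal := by
        rw [h3]
        exact le_sup_right
      exact huv (HeightOneSpectrum.ext (u.isMaximal.eq_of_le v.isPrime.ne_top h4))
    obtain ⟨w, hw⟩ := Ideal.mem_span_singleton'.1 h1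
    have hg : dy g 1 := ⟨1, w, isCoprime_one_left, by rw [Units.val_one]; linear_combination -hw⟩
    rw [happ, hX.span_eq g hg, hY.span_eq g hg, hgP, TT.qr_congr v h2, l_qr_one, mul_one]

/-- [RA2b] `bil` over `L` (as `bil_M`, NB4) -/
theorem bil_L {n : HeightOneSpectrum (𝓞 L) → 𝓞 L} (hn : ∀ v : OQ L, NL v.1 (n v.1)) : ∃ C δ : ℝ, 0 < C ∧ 0 < δ ∧ δ ≤ 1 ∧
    ∀ Y₁ Y₂ : ℝ, 1 ≤ Y₁ → Y₁ ≤ Y₂ → ∀ U V : Finset (OQ L), (∀ u ∈ U, (absNorm u.1.asIdeal : ℝ) ≤ Y₁) →
    (∀ v ∈ V, (absNorm v.1.asIdeal : ℝ) ≤ Y₂) → ∀ a b : OQ L → ℝ, (∀ u, |a u| ≤ 1) → (∀ v, |b v| ≤ 1) →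
    |∑ u ∈ U, ∑ v ∈ V, a u * b v * (if u = v then 0 else if wL n u v = 0 then 1 else -1)| ≤ C * Y₁ ^ (1 - δ) * Y₂ := by
  obtain ⟨C0, hC0, hcard⟩ := TRN.card_prb_le L
  obtain ⟨C, δ, hC, hδ, hδ1, hbil⟩ := bilC L 4 (by norm_num) C0 hC0.le
  choose X hX using fun u : OQ L => exists_lamL hD u.2.1
  refine ⟨C, δ, hC, hδ, hδ1, fun Y₁ Y₂ hY1 hY12 U V hU hV a b ha hb => ?_⟩
  let α : HeightOneSpectrum (𝓞 L) → ℝ := fun P =>
    if h : (2 : 𝓞 L) ∉ P.asIdeal ∧ (7 : 𝓞 L) ∉ P.asIdeal then b ⟨P, h⟩ else 0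
  have hα1 : ∀ v : OQ L, α v.1 = b v := fun v => dif_pos v.2
  have hα : ∀ P, |α P| ≤ 1 := by
    intro P
    by_cases h : (2 : 𝓞 L) ∉ P.asIdeal ∧ (7 : 𝓞 L) ∉ P.asIdeal
    · rw [hα1 ⟨P, h⟩]
      exact hb _
    · change |if h : (2 : 𝓞 L) ∉ P.asIdeal ∧ (7 : 𝓞 L) ∉ P.asIdeal then b ⟨P, h⟩ else 0| ≤ 1
      rw [dif_neg h, abs_zero]
      exact zero_le_one
  have hfam : CFam 4 U X fun u => absNorm u.1.asIdeal := by
    refine ⟨fun u _ A => ?_, fun u _ v _ huv => ?_⟩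
    · rcases (hX u).val A with h | h | h <;> rw [h] <;> simp
    · exact l_charMod hD (fun h => huv (Subtype.ext h)) u.2.1 (hX u) (hX v)
  have hUc : (U.card : ℝ) ≤ C0 * Y₁ := by
    have h1 : (U.card : ℝ) ≤ C0 * (⌊Y₁⌋₊ : ℝ) := by
      refine le_trans ?_ (hcard ⌊Y₁⌋₊)
      rw [← Finset.card_map (Function.Embedding.subtype _)]
      exact_mod_cast Finset.card_le_card fun P hP => by
        obtain ⟨u, hu, rfl⟩ := Finset.mem_map.1 hP
        exact (TRN.mem_prb L).2 (Nat.le_floor (hU u hu))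
    exact h1.trans (mul_le_mul_of_nonneg_left (Nat.floor_le (by linarith)) hC0.le)
  have hmain := hbil Y₁ Y₂ hY1 hY12 U X (fun u => absNorm u.1.asIdeal) hfam hU hUc
    (V.map (Function.Embedding.subtype _)) (fun P hP => by
      obtain ⟨v, hv, rfl⟩ := Finset.mem_map.1 hP
      exact hV v hv) a α ha hα
  have e : ∑ u ∈ U, ∑ v ∈ V, a u * b v * (if u = v then 0 else if wL n u v = 0 then 1 else -1) =
      ∑ u ∈ U, a u * ∑ P ∈ V.map (Function.Embedding.subtype _), α P * (X u P.asIdeal : ℝ) := by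
    refine Finset.sum_congr rfl fun u _ => ?_
    rw [Finset.sum_map, Finset.mul_sum]
    refine Finset.sum_congr rfl fun v _ => ?_
    change _ = a u * (α v.1 * (X u v.1.asIdeal : ℝ))
    rw [hα1, ← mul_assoc]
    congr 1
    by_cases huv : u = v
    · rw [if_pos huv, ← huv, ((hX u).zero_iff _).2 (Or.inl le_rfl), Int.cast_zero]
    · rw [if_neg huv, (hX u).prime (hn v)]
      have h0 : TT.qr u.1 (n v.1) ≠ 0 := by
        intro h
        rw [TT.qr_eq_zero] at h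
        obtain ⟨⟨k, -, hkq⟩, -⟩ := hn v
        have h1 : v.1.asIdeal ^ k ≤ u.1.asIdeal := by
          rw [← hkq]
          exact (Ideal.span_singleton_le_iff_mem _).2 h
        have h2 := v.1.isMaximal.eq_of_le u.1.isPrime.ne_top (u.1.isPrime.le_of_pow_le h1)
        exact huv (Subtype.ext (HeightOneSpectrum.ext h2.symm))
      rcases TT.qr_cases u.1 (n v.1) with h | h | h
      · exact absurd h h0
      · have h5 : wL n u v = 0 := by
          unfold wL
          rw [h]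
          exact if_neg (by norm_num)
        rw [if_pos h5, h, Int.cast_one]
      · have h5 : wL n u v = 1 := if_pos h
        rw [h5, if_neg one_ne_zero, h]
        simp
  rw [e]
  exact hmain

end

end TRP
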