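import Pool.Agent.TRP.RES0
import Pool.Agent.TRP.FM3

/-! # [ALLP] the density theorem for admissible fields -/

set_option autoImplicit false

open NumberField IsDedekindDomain XTR XTS Filter Topology
open scoped Classical

namespace XTB

open TRB

/-- the density theorem over `M` -/
theorem two_density {L : Type} [Field L] [NumberField L] (hL : Admissible L) (h2 : (Ideal.span {(2 : 𝓞 L)}).IsPrime)
    (ho : Odd (Module.finrank ℚ L)) {M : Type} [Field M] [NumberField M] [Algebra L M]
    (hM : Module.finrank L M = 2) (hr : ∃ r : M, r ^ 2 = -7) :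
    (∀ X : ℕ, (cmFamily M X fun _ => True).Finite) ∧
    (∃ c : ℝ, 0 < c ∧ ∀ᶠ X : ℕ in atTop, c * (cmFamily M X fun _ => True).ncard ≤
      (cmFamily M X fun E => TwoCurve E ∧ FiniteSha E).ncard) ∧
    Tendsto (fun X : ℕ => (cmFamily M X TwoCurve).ncard) atTop atTop ∧
    Tendsto (fun X : ℕ => ((cmFamily M X fun E => TwoCurve E ∧ FiniteSha E).ncard : ℝ) /
      ((cmFamily M X TwoCurve).ncard : ℝ)) atTop (𝓝 (∏' k : ℕ, (1 - 1 / 2 ^ (k + 1)))) := by
  have : IsTotallyReal L := hL.real
  obtain ⟨D, hD⟩ := exists_datOd2 hL h2 ho hM hr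
  exact TRP.two_density hD

/-- the statement over `L` -/
theorem two_L {L : Type} [Field L] [NumberField L] (hL : Admissible L) (h2 : (Ideal.span {(2 : 𝓞 L)}).IsPrime)
    (ho : Odd (Module.finrank ℚ L)) {E : WeierstrassCurve L} (hE : TwoCurve E) : ModTwo E ∧
      ∀ (M : Type) [Field M] [NumberField M] [Algebra L M], Module.finrank L M = 2 →
        (∃ r : M, r ^ 2 = -7) → TwoCurve (E.baseChange M) ∧ (FiniteSha E ↔ FiniteSha (E.baseChange M)) := by
  have : IsTotallyReal L := hL.real
  refine ⟨?_, fun M _ _ _ hM hr => (two_base hL h2 ho hM hr hE).2⟩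
  obtain ⟨M, _, _, _, r, hr, gen⟩ := TR.exists_sqrt L
  have hM : Module.finrank L M = 2 := (hL.good.dat hL.inert M r hr gen).finrank_eq_two
  exact (two_base hL h2 ho hM ⟨r, hr⟩ hE).1

end XTB
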